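import Mathlib

/-!
An Effros type theorem for homogeneous compact metric spaces: close points are moved to each
other by self-maps close to the identity.
-/

open Set Metric Filter Topology

namespace Pool.Agent.Lib.MP_d328cc_gt

variable {X : Type*} [MetricSpace X]

/-- points reached from `z` by homeomorphisms moving every point less than `η` -/
def Orb (η : ℝ) (z : X) : Set X :=
  {y | ∃ h : X ≃ₜ X, (∀ w, dist (h w) w < η) ∧ h z = y}

theorem symm_small {η : ℝ} {v : X ≃ₜ X} (hv : ∀ w, dist (v w) w < η) (w : X) :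
    dist (v.symm w) w < η := by
  have := hv (v.symm w)
  rwa [v.apply_symm_apply, dist_comm] at this

theorem map_closure_orb {η η' : ℝ} {v : X ≃ₜ X} (hv : ∀ w, dist (v w) w < η) (z : X) :
    MapsTo v (closure (Orb η' z)) (closure (Orb (η + η') z)) := by
  apply MapsTo.closure _ v.continuous
  rintro y ⟨h, hh, rfl⟩
  refine ⟨h.trans v, fun w => ?_, rfl⟩
  calc dist (v (h w)) w ≤ dist (v (h w)) (h w) + dist (h w) w := dist_triangle _ _ _
    _ < η + η' := add_lt_add (hv _) (hh _)

theorem map_interior_orb {η η' : ℝ} {v : X ≃ₜ X} (hv : ∀ w, dist (v w) w < η) (z : X) :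
    MapsTo v (interior (closure (Orb η' z))) (interior (closure (Orb (η + η') z))) := by
  intro y hy
  have h1 : v '' interior (closure (Orb η' z)) ⊆ closure (Orb (η + η') z) := by
    rintro _ ⟨w, hw, rfl⟩
    exact map_closure_orb hv z (interior_subset hw)
  exact interior_maximal h1 (v.isOpenMap _ isOpen_interior) (mem_image_of_mem _ hy)

variable [CompactSpace X]

theorem interior_orb_nonempty (hom : ∀ x y : X, ∃ h : X ≃ₜ X, h x = y) {η : ℝ} (hη : 0 < η)
    (z : X) : (interior (closure (Orb η z))).Nonempty := by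
  have : Nonempty X := ⟨z⟩
  have hδ : ∀ g : X ≃ₜ X, ∃ δ > 0, ∀ a b, dist a b < δ → dist (g.symm a) (g.symm b) < η := by
    intro g
    obtain ⟨δ, hδ, h⟩ := Metric.uniformContinuous_iff.mp
      (CompactSpace.uniformContinuous_of_continuous g.symm.continuous) η hη
    exact ⟨δ, hδ, fun a b hab => h hab⟩
  choose δ hδ0 hδ using hδ
  obtain ⟨T, hT, hU⟩ := TopologicalSpace.isOpen_iUnion_countable
    (fun g : X ≃ₜ X => ball (g : C(X, X)) (δ g)) fun _ => isOpen_ball
  have : Countable T := hT.to_subtype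
  obtain ⟨g, hg⟩ := nonempty_interior_of_iUnion_of_closed
    (f := fun g : T => (g : X ≃ₜ X) '' closure (Orb η z))
    (fun g => (g : X ≃ₜ X).isClosedMap _ isClosed_closure) (by
      apply eq_univ_of_forall
      intro y
      obtain ⟨h, rfl⟩ := hom z y
      have : (h : C(X, X)) ∈ ⋃ g ∈ T, ball (g : C(X, X)) (δ g) := by
        rw [hU]
        exact mem_iUnion.mpr ⟨h, mem_ball_self (hδ0 h)⟩
      obtain ⟨g, hgT, hg⟩ := mem_iUnion₂.mp this
      refine mem_iUnion.mpr ⟨⟨g, hgT⟩, g.symm (h z), subset_closure ⟨h.trans g.symm, ?_, rfl⟩,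
        g.apply_symm_apply _⟩
      intro w
      have h1 : dist (h w) (g w) < δ g :=
        lt_of_le_of_lt (ContinuousMap.dist_apply_le_dist (f := (h : C(X, X)))
          (g := (g : C(X, X))) w) hg
      have := hδ g _ _ h1
      rwa [g.symm_apply_apply] at this)
  rw [← Homeomorph.image_interior] at hg
  exact hg.of_image

theorem mem_interior_orb (hom : ∀ x y : X, ∃ h : X ≃ₜ X, h x = y) {η : ℝ} (hη : 0 < η)
    (z : X) : z ∈ interior (closure (Orb (η + η) z)) := by
  obtain ⟨y, hy⟩ := interior_orb_nonempty hom hη z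
  obtain ⟨_, hw, ⟨v, hv, rfl⟩⟩ := mem_closure_iff.mp (interior_subset hy) _ isOpen_interior hy
  have := map_interior_orb (symm_small hv) z hw
  rwa [v.symm_apply_apply] at this

theorem weak_effros (hom : ∀ x y : X, ∃ h : X ≃ₜ X, h x = y) {η : ℝ} (hη : 0 < η) :
    ∃ δ > 0, ∀ x y : X, dist x y < δ → y ∈ closure (Orb η x) := by
  have h6 : 0 < η / 6 := by positivity
  obtain ⟨δ, hδ, h⟩ := lebesgue_number_lemma_of_metric (s := (univ : Set X)) isCompact_univ
    (c := fun z : X => interior (closure (Orb (η / 6 + η / 6) z))) (fun _ => isOpen_interior)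
    (fun z _ => mem_iUnion.mpr ⟨z, mem_interior_orb hom h6 z⟩)
  refine ⟨δ, hδ, fun x y hxy => ?_⟩
  obtain ⟨z, hz⟩ := h x (mem_univ x)
  have hx := interior_subset (hz (mem_ball_self hδ))
  have hy := interior_subset (hz (show y ∈ ball x δ by rwa [mem_ball, dist_comm]))
  obtain ⟨_, hw, ⟨v, hv, rfl⟩⟩ := mem_closure_iff.mp hx _ isOpen_interior
    (mem_interior_orb hom h6 x)
  have hz' := map_closure_orb (symm_small hv) x (interior_subset hw)
  rw [v.symm_apply_apply] at hz'
  have : Orb (η / 6 + η / 6) z ⊆ closure (Orb η x) := by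
    rintro _ ⟨w, hw, rfl⟩
    have := map_closure_orb hw x hz'
    rwa [show η / 6 + η / 6 + (η / 6 + η / 6 + (η / 6 + η / 6)) = η by ring] at this
  exact closure_minimal this isClosed_closure hy

theorem effros_map (hom : ∀ x y : X, ∃ h : X ≃ₜ X, h x = y) {η : ℝ} (hη : 0 < η) :
    ∃ δ > 0, ∀ x y : X, dist x y < δ →
      ∃ e : C(X, X), (∀ w, dist (e w) w < η) ∧ e x = y := by
  have hp : ∀ n : ℕ, 0 < η / 2 / 2 / 2 ^ n := fun n => by positivity
  choose δ hδ0 hδ using fun n : ℕ => weak_effros hom (hp n)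
  refine ⟨δ 0, hδ0 0, fun x y hxy => ?_⟩
  have step : ∀ (n : ℕ) (e : {e : C(X, X) // dist (e x) y < δ n}),
      ∃ e' : {e : C(X, X) // dist (e x) y < δ (n + 1)},
        dist e.1 e'.1 ≤ η / 2 / 2 / 2 ^ n ∧ dist (e'.1 x) y < 1 / ((n : ℝ) + 1) := by
    intro n e
    have hpos : 0 < min (δ (n + 1)) (1 / ((n : ℝ) + 1)) := lt_min (hδ0 _) (by positivity)
    obtain ⟨_, ⟨h, hh, rfl⟩, hd⟩ := Metric.mem_closure_iff.mp (hδ n _ _ e.2) _ hpos
    rw [dist_comm] at hd
    refine ⟨⟨(h : C(X, X)).comp e.1, lt_of_lt_of_le hd (min_le_left _ _)⟩, ?_,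
      lt_of_lt_of_le hd (min_le_right _ _)⟩
    rw [ContinuousMap.dist_le (hp n).le]
    intro w
    rw [dist_comm]
    exact (hh _).le
  choose nxt hn1 hn2 using step
  let s : (n : ℕ) → {e : C(X, X) // dist (e x) y < δ n} := fun n =>
    Nat.rec (motive := fun n => {e : C(X, X) // dist (e x) y < δ n})
      ⟨ContinuousMap.id X, hxy⟩ (fun n e => nxt n e) n
  have hs : ∀ n, dist (s n).1 (s (n + 1)).1 ≤ η / 2 / 2 / 2 ^ n := fun n => hn1 n (s n)
  have hs2 : ∀ n : ℕ, dist ((s (n + 1)).1 x) y < 1 / ((n : ℝ) + 1) := fun n => hn2 n (s n)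
  obtain ⟨e, he⟩ := cauchySeq_tendsto_of_complete
    (cauchySeq_of_le_geometric_two (f := fun n => (s n).1) hs)
  have hd : dist (s 0).1 e ≤ η / 2 := dist_le_of_le_geometric_two_of_tendsto₀ hs he
  refine ⟨e, fun w => ?_, ?_⟩
  · have := ContinuousMap.dist_apply_le_dist (f := (s 0).1) (g := e) w
    have h0 : (s 0).1 w = w := rfl
    rw [h0, dist_comm] at this
    linarith
  · have h1 : Tendsto (fun n => (s (n + 1)).1 x) atTop (𝓝 (e x)) :=
      ((continuous_eval_const x).tendsto e).comp (he.comp (tendsto_add_atTop_nat 1))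
    have h2 : Tendsto (fun n => (s (n + 1)).1 x) atTop (𝓝 y) := by
      rw [tendsto_iff_dist_tendsto_zero]
      exact squeeze_zero (fun _ => dist_nonneg) (fun n => (hs2 n).le)
        tendsto_one_div_add_atTop_nhds_zero_nat
    exact tendsto_nhds_unique h1 h2

end Pool.Agent.Lib.MP_d328cc_gt
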