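import Mathlib
import Pool.Agent.Lib.MP_d328cc_gt.Effros

/-!
An Effros type theorem for pairs of points in a 2-homogeneous compact metric space: close pairs
of distinct points are moved to each other by homeomorphisms close to the identity.
-/

open Set Metric Filter Topology

namespace Pool.Agent.Lib.MP_d328cc_gt

/-- any two-point set is carried onto any other by a self-homeomorphism -/
def TwoHom (X : Type*) [TopologicalSpace X] : Prop :=
  ∀ x y x' y' : X, x ≠ y → x' ≠ y' →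
    ∃ h : X ≃ₜ X, (h x = x' ∧ h y = y') ∨ (h x = y' ∧ h y = x')

variable {X : Type*} [MetricSpace X]

/-- diagonal action on pairs -/
def act (h : X ≃ₜ X) : X × X ≃ₜ X × X := h.prodCongr h

@[simp] theorem act_apply (h : X ≃ₜ X) (z : X × X) : act h z = (h z.1, h z.2) := rfl

@[simp] theorem act_symm (h : X ≃ₜ X) : (act h).symm = act h.symm := rfl

/-- pairs reached from `z` by homeomorphisms moving every point less than `η` -/
def Orb2 (η : ℝ) (z : X × X) : Set (X × X) :=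
  {y | ∃ h : X ≃ₜ X, (∀ w, dist (h w) w < η) ∧ act h z = y}

theorem map_interior_orb2 {η η' : ℝ} {v : X ≃ₜ X} (hv : ∀ w, dist (v w) w < η) (z : X × X) :
    MapsTo (act v) (interior (closure (Orb2 η' z))) (interior (closure (Orb2 (η + η') z))) := by
  have h0 : MapsTo (act v) (closure (Orb2 η' z)) (closure (Orb2 (η + η') z)) := by
    apply MapsTo.closure _ (act v).continuous
    rintro y ⟨h, hh, rfl⟩
    refine ⟨h.trans v, fun w => ?_, rfl⟩
    calc dist (v (h w)) w ≤ dist (v (h w)) (h w) + dist (h w) w := dist_triangle _ _ _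
      _ < η + η' := add_lt_add (hv _) (hh _)
  intro y hy
  have h1 : act v '' interior (closure (Orb2 η' z)) ⊆ closure (Orb2 (η + η') z) := by
    rintro _ ⟨w, hw, rfl⟩
    exact h0 (interior_subset hw)
  exact interior_maximal h1 ((act v).isOpenMap _ isOpen_interior) (mem_image_of_mem _ hy)

variable [CompactSpace X]

theorem modulus (g : X ≃ₜ X) {η : ℝ} (hη : 0 < η) :
    ∃ δ > 0, ∀ a b, dist a b < δ → dist (g a) (g b) < η := by
  obtain ⟨δ, hδ, h⟩ := Metric.uniformContinuous_iff.mp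
    (CompactSpace.uniformContinuous_of_continuous g.continuous) η hη
  exact ⟨δ, hδ, fun a b hab => h hab⟩

theorem interior_orb2_nonempty (h2 : TwoHom X) {η : ℝ} (hη : 0 < η) {z : X × X}
    (hz : z.1 ≠ z.2) : (interior (closure (Orb2 η z))).Nonempty := by
  choose δ hδ0 hδ using fun g : X ≃ₜ X => modulus g.symm hη
  obtain ⟨T, hT, hU⟩ := TopologicalSpace.isOpen_iUnion_countable
    (fun g : X ≃ₜ X => ball (g : C(X, X)) (δ g)) fun _ => isOpen_ball
  have : Countable T := hT.to_subtype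
  have key : ∀ h : X ≃ₜ X, ∃ g : T, act h z ∈ act (g : X ≃ₜ X) '' closure (Orb2 η z) := by
    intro h
    have : (h : C(X, X)) ∈ ⋃ g ∈ T, ball (g : C(X, X)) (δ g) := by
      rw [hU]
      exact mem_iUnion.mpr ⟨h, mem_ball_self (hδ0 h)⟩
    obtain ⟨g, hgT, hg⟩ := mem_iUnion₂.mp this
    refine ⟨⟨g, hgT⟩, act g.symm (act h z), subset_closure ⟨h.trans g.symm, ?_, rfl⟩, by simp⟩
    intro w
    have h1 : dist (h w) (g w) < δ g :=
      lt_of_le_of_lt (ContinuousMap.dist_apply_le_dist (f := (h : C(X, X)))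
        (g := (g : C(X, X))) w) hg
    have := hδ g _ _ h1
    rwa [g.symm_apply_apply] at this
  let e : Bool × T → X × X ≃ₜ X × X := fun p =>
    if p.1 then act (p.2 : X ≃ₜ X) else (act (p.2 : X ≃ₜ X)).trans (Homeomorph.prodComm X X)
  let f : Option (Bool × T) → Set (X × X) := fun o =>
    o.elim (diagonal X) fun p => e p '' closure (Orb2 η z)
  have hd := dense_iUnion_interior_of_closed (f := f)
    (by
      rintro (_ | p)
      · exact isClosed_diagonal
      · exact (e p).isClosedMap _ isClosed_closure)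
    (by
      apply eq_univ_of_forall
      rintro ⟨a, b⟩
      by_cases hab : a = b
      · exact mem_iUnion.mpr ⟨none, hab⟩
      obtain ⟨h, hh | hh⟩ := h2 z.1 z.2 a b hz hab
      · obtain ⟨g, hg⟩ := key h
        refine mem_iUnion.mpr ⟨some (true, g), ?_⟩
        rw [act_apply, hh.1, hh.2] at hg
        exact hg
      · obtain ⟨g, w, hw, hg⟩ := key h
        refine mem_iUnion.mpr ⟨some (false, g), w, hw, ?_⟩
        show Prod.swap (act (g : X ≃ₜ X) w) = (a, b)
        rw [hg, act_apply, hh.1, hh.2]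
        rfl)
  obtain ⟨q, hq1, hq2⟩ := hd.inter_open_nonempty _ isClosed_diagonal.isOpen_compl ⟨z, hz⟩
  obtain ⟨_ | p, hp⟩ := mem_iUnion.mp hq2
  · exact absurd (interior_subset hp) hq1
  · have : q ∈ interior (e p '' closure (Orb2 η z)) := hp
    rw [← Homeomorph.image_interior] at this
    exact Set.Nonempty.of_image ⟨q, this⟩

theorem closure_orb2_mem (h2 : TwoHom X) {η : ℝ} (hη : 0 < η) {z : X × X} (hz : z.1 ≠ z.2) :
    closure (Orb2 η z) ∈ 𝓝 z := by
  obtain ⟨y, hy⟩ := interior_orb2_nonempty h2 (half_pos hη) hz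
  obtain ⟨_, hw, ⟨v, hv, rfl⟩⟩ := mem_closure_iff.mp (interior_subset hy) _ isOpen_interior hy
  have := map_interior_orb2 (symm_small hv) z hw
  rw [← act_symm, Homeomorph.symm_apply_apply, add_halves] at this
  exact mem_interior_iff_mem_nhds.mp this

/-- limits of homeomorphisms which are Cauchy together with their inverses -/
theorem homeo_limit (g : ℕ → X ≃ₜ X) {C : ℝ}
    (h1 : ∀ n, dist (g n : C(X, X)) (g (n + 1) : C(X, X)) ≤ C / 2 / 2 ^ n)
    (h2 : ∀ n, dist ((g n).symm : C(X, X)) ((g (n + 1)).symm : C(X, X)) ≤ C / 2 / 2 ^ n) :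
    ∃ G : X ≃ₜ X, Tendsto (fun n => (g n : C(X, X))) atTop (𝓝 (G : C(X, X))) ∧
      dist (g 0 : C(X, X)) (G : C(X, X)) ≤ C := by
  obtain ⟨a, ha⟩ := cauchySeq_tendsto_of_complete
    (cauchySeq_of_le_geometric_two (f := fun n => (g n : C(X, X))) h1)
  obtain ⟨b, hb⟩ := cauchySeq_tendsto_of_complete
    (cauchySeq_of_le_geometric_two (f := fun n => ((g n).symm : C(X, X))) h2)
  have ev : ∀ {u v : ℕ → C(X, X)} {a b : C(X, X)}, Tendsto u atTop (𝓝 a) →
      Tendsto v atTop (𝓝 b) → (∀ n x, u n (v n x) = x) → ∀ x, a (b x) = x := by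
    intro u v a b hu hv h x
    have t1 : Tendsto (fun n => v n x) atTop (𝓝 (b x)) :=
      ((continuous_eval_const x).tendsto b).comp hv
    have t2 : Tendsto (fun n => u n (v n x)) atTop (𝓝 (a (b x))) :=
      (continuous_eval.tendsto (a, b x)).comp (hu.prodMk_nhds t1)
    simp only [h] at t2
    exact tendsto_nhds_unique t2 tendsto_const_nhds
  refine ⟨⟨⟨a, b, ev hb ha (fun n x => (g n).symm_apply_apply x),
    ev ha hb (fun n x => (g n).apply_symm_apply x)⟩, a.continuous, b.continuous⟩, ha, ?_⟩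
  exact dist_le_of_le_geometric_two_of_tendsto₀ h1 ha

theorem half_step {z z' : X × X} (g h : X ≃ₜ X) {η ε : ℝ} (hε : 0 < ε)
    (hg : ∀ a b, dist a b < η → dist (g a) (g b) < ε) (hη : η ≤ ε)
    (hz : act g.symm (act h z') ∈ closure (Orb2 η z)) {W : Set (X × X)} (hW : W ∈ 𝓝 z') :
    ∃ g' : X ≃ₜ X, dist (g : C(X, X)) (g' : C(X, X)) ≤ ε ∧
      dist (g.symm : C(X, X)) (g'.symm : C(X, X)) ≤ ε ∧ act h.symm (act g' z) ∈ W := by
  have hc : Continuous fun w => act h.symm (act g w) :=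
    (act h.symm).continuous.comp (act g).continuous
  have hW' : (fun w => act h.symm (act g w)) ⁻¹' W ∈ 𝓝 (act g.symm (act h z')) := by
    apply hc.continuousAt.preimage_mem_nhds
    simpa using hW
  obtain ⟨_, hw, ⟨v, hv, rfl⟩⟩ := mem_closure_iff_nhds.mp hz _ hW'
  refine ⟨v.trans g, ?_, ?_, hw⟩
  · rw [ContinuousMap.dist_le hε.le]
    intro w
    exact (hg w (v w) (by rw [dist_comm]; exact hv w)).le
  · rw [ContinuousMap.dist_le hε.le]
    intro w
    have := symm_small hv (g.symm w)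
    rw [dist_comm] at this
    exact (this.trans_le hη).le

theorem orb2_mem (h2 : TwoHom X) {η : ℝ} (hη : 0 < η) {z : X × X} (hz : z.1 ≠ z.2) :
    Orb2 η z ∈ 𝓝 z := by
  have hp : ∀ n : ℕ, 0 < η / 3 / 2 / 2 ^ n := fun n => by positivity
  have hm : ∀ (g : X ≃ₜ X) (n : ℕ), ∃ δ > 0, δ ≤ η / 3 / 2 / 2 ^ n ∧
      ∀ a b, dist a b < δ → dist (g a) (g b) < η / 3 / 2 / 2 ^ n := by
    intro g n
    obtain ⟨δ, hδ, h⟩ := modulus g (hp n)
    exact ⟨min δ (η / 3 / 2 / 2 ^ n), lt_min hδ (hp n), min_le_right _ _,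
      fun a b hab => h a b (hab.trans_le (min_le_left _ _))⟩
  choose δ hδ0 hδ1 hδ2 using hm
  filter_upwards [closure_orb2_mem h2 (hδ0 (Homeomorph.refl X) 0) hz,
    isClosed_diagonal.isOpen_compl.mem_nhds (show z ∈ (diagonal X)ᶜ from hz)] with z' h0 hz'
  let S : ℕ → Type _ := fun n => {p : (X ≃ₜ X) × (X ≃ₜ X) //
    act p.1.symm (act p.2 z') ∈ closure (Orb2 (δ p.1 n) z)}
  have step : ∀ (n : ℕ) (p : S n), ∃ q : S (n + 1),
      (dist (p.1.1 : C(X, X)) (q.1.1 : C(X, X)) ≤ η / 3 / 2 / 2 ^ n ∧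
        dist (p.1.1.symm : C(X, X)) (q.1.1.symm : C(X, X)) ≤ η / 3 / 2 / 2 ^ n) ∧
      (dist (p.1.2 : C(X, X)) (q.1.2 : C(X, X)) ≤ η / 3 / 2 / 2 ^ n ∧
        dist (p.1.2.symm : C(X, X)) (q.1.2.symm : C(X, X)) ≤ η / 3 / 2 / 2 ^ n) ∧
      dist (act q.1.2 z') (act q.1.1 z) < 1 / ((n : ℝ) + 1) := by
    rintro n ⟨⟨g, h⟩, hgh⟩
    obtain ⟨g', a1, a2, a3⟩ := half_step g h (hp n) (hδ2 g n) (hδ1 g n) hgh
      (closure_orb2_mem h2 (hδ0 h n) hz')
    have hb : act g' ⁻¹' ball (act g' z) (1 / ((n : ℝ) + 1)) ∈ 𝓝 z :=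
      (act g').continuous.continuousAt.preimage_mem_nhds (ball_mem_nhds _ (by positivity))
    obtain ⟨h', b1, b2, b3, b4⟩ := half_step h g' (hp n) (hδ2 h n) (hδ1 h n) a3
      (inter_mem (closure_orb2_mem h2 (hδ0 g' (n + 1)) hz) hb)
    refine ⟨⟨(g', h'), b3⟩, ⟨a1, a2⟩, ⟨b1, b2⟩, ?_⟩
    simpa using b4
  choose nxt hn1 hn2 hn3 using step
  let s : (n : ℕ) → S n := fun n =>
    Nat.rec (motive := S) ⟨(Homeomorph.refl X, Homeomorph.refl X), h0⟩ (fun n e => nxt n e) n
  obtain ⟨G, hG, hG0⟩ := homeo_limit (fun n => (s n).1.1) (fun n => (hn1 n (s n)).1)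
    (fun n => (hn1 n (s n)).2)
  obtain ⟨H, hH, hH0⟩ := homeo_limit (fun n => (s n).1.2) (fun n => (hn2 n (s n)).1)
    (fun n => (hn2 n (s n)).2)
  have lim : ∀ {u : ℕ → X ≃ₜ X} {U : X ≃ₜ X},
      Tendsto (fun n => (u n : C(X, X))) atTop (𝓝 (U : C(X, X))) → ∀ w,
      Tendsto (fun n => act (u (n + 1)) w) atTop (𝓝 (act U w)) := by
    intro u U hu w
    have t : ∀ x, Tendsto (fun n => u (n + 1) x) atTop (𝓝 (U x)) := fun x =>
      ((continuous_eval_const x).tendsto (U : C(X, X))).comp (hu.comp (tendsto_add_atTop_nat 1))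
    exact (t w.1).prodMk_nhds (t w.2)
  have e : act H z' = act G z := by
    have t1 := (lim hH z').dist (lim hG z)
    have t2 : Tendsto (fun n => dist (act (s (n + 1)).1.2 z') (act (s (n + 1)).1.1 z)) atTop
        (𝓝 0) := squeeze_zero (fun _ => dist_nonneg) (fun n => (hn3 n (s n)).le)
        tendsto_one_div_add_atTop_nhds_zero_nat
    exact dist_eq_zero.mp (tendsto_nhds_unique t1 t2)
  have sm : ∀ {U : X ≃ₜ X}, dist ((Homeomorph.refl X : X ≃ₜ X) : C(X, X)) (U : C(X, X)) ≤ η / 3 →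
      ∀ w, dist (U w) w < η / 2 := by
    intro U hU w
    have := (ContinuousMap.dist_apply_le_dist (f := ((Homeomorph.refl X : X ≃ₜ X) : C(X, X)))
      (g := (U : C(X, X))) w).trans hU
    rw [dist_comm]
    have h3 : η / 3 < η / 2 := by linarith
    exact lt_of_le_of_lt this h3
  refine ⟨G.trans H.symm, fun w => ?_, ?_⟩
  · have a1 := symm_small (sm hH0) (G w)
    have a2 := sm hG0 w
    have := dist_triangle (H.symm (G w)) (G w) w
    show dist (H.symm (G w)) w < η
    linarith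
  · show act H.symm (act G z) = z'
    rw [← e]
    simp

/-- Effros property for pairs of points at distance at least `a`. -/
theorem effros2 (h2 : TwoHom X) {a η : ℝ} (ha : 0 < a) (hη : 0 < η) :
    ∃ δ > 0, ∀ x y x' y' : X, a ≤ dist x y → dist x x' < δ → dist y y' < δ →
      ∃ φ : X ≃ₜ X, (∀ w, dist (φ w) w < η) ∧ φ x' = x ∧ φ y' = y := by
  have hK : IsCompact {z : X × X | a ≤ dist z.1 z.2} :=
    (isClosed_le continuous_const continuous_dist).isCompact
  obtain ⟨δ, hδ, h⟩ := lebesgue_number_lemma_of_metric hK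
    (c := fun z : X × X => interior (Orb2 (η / 2) z)) (fun _ => isOpen_interior)
    (fun z hz => mem_iUnion.mpr ⟨z, mem_interior_iff_mem_nhds.mpr (orb2_mem h2 (half_pos hη)
      (dist_pos.mp (ha.trans_le hz)))⟩)
  refine ⟨δ, hδ, fun x y x' y' hxy hx hy => ?_⟩
  obtain ⟨z, hz⟩ := h (x, y) hxy
  obtain ⟨u, hu, hu'⟩ := interior_subset (hz (mem_ball_self hδ))
  obtain ⟨v, hv, hv'⟩ := interior_subset (hz (show (x', y') ∈ ball (x, y) δ by
    rw [mem_ball, Prod.dist_eq, dist_comm x', dist_comm y']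
    exact max_lt hx hy))
  simp only [act_apply, Prod.mk.injEq] at hu' hv'
  refine ⟨v.symm.trans u, fun w => ?_, ?_, ?_⟩
  · have a1 := symm_small hv w
    have a2 := hu (v.symm w)
    have := dist_triangle (u (v.symm w)) (v.symm w) w
    show dist (u (v.symm w)) w < η
    linarith
  · show u (v.symm x') = x
    rw [← hv'.1, v.symm_apply_apply, hu'.1]
  · show u (v.symm y') = y
    rw [← hv'.2, v.symm_apply_apply, hu'.2]

omit [CompactSpace X] in
theorem TwoHom.hom [PreconnectedSpace X] (h2 : TwoHom X) (x y : X) : ∃ h : X ≃ₜ X, h x = y := by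
  by_cases hxy : x = y
  · exact ⟨Homeomorph.refl X, hxy⟩
  have hi : (univ : Set X).Infinite :=
    isPreconnected_univ.infinite_of_nontrivial ⟨x, trivial, y, trivial, hxy⟩
  obtain ⟨z, -, hz⟩ := hi.exists_notMem_finite ((finite_singleton y).insert x)
  simp only [mem_insert_iff, mem_singleton_iff, not_or] at hz
  obtain ⟨h, hh | hh⟩ := h2 x z y z (Ne.symm hz.1) (Ne.symm hz.2)
  · exact ⟨h, hh.1⟩
  · refine ⟨h.trans h, ?_⟩
    show h (h x) = y
    rw [hh.1, hh.2]

end Pool.Agent.Lib.MP_d328cc_gt
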