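import Mathlib
import Pool.Agent.Shared.Brouwer

/-!
Poincare-Miranda and a KKM type labelling lemma on the cube.
-/

open Set Metric Filter Topology

namespace Pool.Agent.Lib.MP_d328cc_gt

theorem brouwer_cube (m : ℕ) (G : (Fin m → ℝ) → (Fin m → ℝ)) (hG : Continuous G)
    (hb : ∀ u k, |G u k| ≤ 1) : ∃ u, G u = u := by
  let R : ℝ := m + 1
  have hR : 0 < R := by positivity
  let f : EuclideanSpace ℝ (Fin m) → EuclideanSpace ℝ (Fin m) :=
    fun x => R⁻¹ • WithLp.toLp 2 (G (WithLp.ofLp (R • x)))
  have hf : Continuous f := by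
    exact (continuous_const_smul R⁻¹).comp ((PiLp.continuous_toLp 2 _).comp
      (hG.comp ((PiLp.continuous_ofLp 2 _).comp (continuous_const_smul R))))
  have hm : MapsTo f (closedBall 0 1) (closedBall 0 1) := by
    intro x _
    rw [mem_closedBall_zero_iff]
    have h1 : ‖(WithLp.toLp 2 (G (WithLp.ofLp (R • x))) : EuclideanSpace ℝ (Fin m))‖ ≤ R := by
      rw [EuclideanSpace.norm_eq]
      apply Real.sqrt_le_iff.mpr
      refine ⟨hR.le, ?_⟩
      calc ∑ i, ‖(WithLp.toLp 2 (G (WithLp.ofLp (R • x))) : EuclideanSpace ℝ (Fin m)) i‖ ^ 2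
          ≤ ∑ _i : Fin m, (1 : ℝ) := by
            apply Finset.sum_le_sum
            intro i _
            have := hb (WithLp.ofLp (R • x)) i
            rw [Real.norm_eq_abs]
            have h0 := abs_nonneg (G (WithLp.ofLp (R • x)) i)
            show |G (WithLp.ofLp (R • x)) i| ^ 2 ≤ 1
            nlinarith
        _ = m := by simp
        _ ≤ R ^ 2 := by
            have : (0 : ℝ) ≤ m := by positivity
            simp only [R]; nlinarith
    simp only [f, norm_smul, norm_inv, Real.norm_eq_abs, abs_of_pos hR]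
    rw [inv_mul_le_iff₀ hR]; simpa using h1
  obtain ⟨x, _, hx⟩ := Pool.Agent.Shared.Brouwer.fixed_point_closedBall f hf.continuousOn hm
  refine ⟨WithLp.ofLp (R • x), ?_⟩
  have h2 : R • x = WithLp.toLp 2 (G (WithLp.ofLp (R • x))) := by
    conv_lhs => rw [← hx]
    simp only [f, smul_smul, mul_inv_cancel₀ hR.ne', one_smul]
  conv_rhs => rw [h2]

theorem miranda (m : ℕ) (F : (Fin m → ℝ) → Fin m → ℝ) (hF : Continuous F)
    (h0 : ∀ u k, u k ≤ 0 → F u k ≤ 0) (h1 : ∀ u k, 1 ≤ u k → 0 ≤ F u k) : ∃ u, F u = 0 := by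
  let G : (Fin m → ℝ) → (Fin m → ℝ) := fun u k => max 0 (min 1 (u k - F u k))
  have hG : Continuous G := by
    apply continuous_pi
    intro k
    have : Continuous fun u => F u k := (continuous_apply k).comp hF
    fun_prop
  obtain ⟨u, hu⟩ := brouwer_cube m G hG (by
    intro u k
    rw [abs_le]
    constructor
    · have := le_max_left 0 (min 1 (u k - F u k)); simp only [G]; linarith
    · exact max_le zero_le_one (min_le_left _ _))
  refine ⟨u, funext fun k => ?_⟩
  have hk : max 0 (min 1 (u k - F u k)) = u k := congrFun hu k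
  have a0 := h0 u k
  have a1 := h1 u k
  show F u k = 0
  rcases lt_trichotomy (F u k) 0 with h | h | h
  · exfalso
    have : ¬ 1 ≤ u k := fun h' => absurd (a1 h') (not_le.mpr h)
    have h3 : u k < min 1 (u k - F u k) := lt_min (not_le.mp this) (by linarith)
    have := le_max_right 0 (min 1 (u k - F u k))
    linarith
  · exact h
  · exfalso
    have : ¬ u k ≤ 0 := fun h' => absurd (a0 h') (not_le.mpr h)
    have h3 : max 0 (min 1 (u k - F u k)) < u k :=
      max_lt (not_le.mp this) (lt_of_le_of_lt (min_le_right _ _) (by linarith))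
    linarith

theorem kkm_cube (m : ℕ) (d : ℕ → (Fin m → ℝ) → ℝ) (hc : ∀ l, Continuous (d l))
    (hn : ∀ l u, 0 ≤ d l u) (hpos : ∀ u, ∃ l ≤ m, 0 < d l u)
    (h0 : ∀ u (k : Fin m), u k ≤ 0 → d (k + 1) u = 0)
    (h1 : ∀ u (k : Fin m) (l : ℕ), l ≤ (k : ℕ) → 1 ≤ u k → d l u = 0) :
    ∃ u, ∀ l ≤ m, 0 < d l u := by
  obtain ⟨u, hu⟩ := miranda m (fun u k => d (k + 1) u - ∑ l ∈ Finset.range (k + 1), d l u)
    (by
      apply continuous_pi
      intro k
      exact (hc _).sub (continuous_finsetSum _ fun l _ => hc l))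
    (by
      intro u k hk
      simp only [h0 u k hk]
      have : 0 ≤ ∑ l ∈ Finset.range (k + 1), d l u := Finset.sum_nonneg fun l _ => hn l u
      linarith)
    (by
      intro u k hk
      have : ∑ l ∈ Finset.range (k + 1), d l u = 0 := Finset.sum_eq_zero fun l hl =>
        h1 u k l (Nat.lt_succ_iff.mp (Finset.mem_range.mp hl)) hk
      simp only [this]
      have := hn (k + 1) u
      linarith)
  have hrec : ∀ k < m, d (k + 1) u = ∑ l ∈ Finset.range (k + 1), d l u := by
    intro k hk
    have := congrFun hu ⟨k, hk⟩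
    simp only [Pi.zero_apply] at this
    linarith
  have hz : 0 < d 0 u := by
    rcases (hn 0 u).eq_or_lt with h | h
    · exfalso
      have : ∀ l, l ≤ m → d l u = 0 := by
        intro l
        induction l using Nat.strong_induction_on with
        | _ l ih =>
          intro hl
          rcases l with _ | k
          · exact h.symm
          · rw [hrec k hl]
            exact Finset.sum_eq_zero fun l' hl' =>
              ih l' (Finset.mem_range.mp hl') (by have := Finset.mem_range.mp hl'; omega)
      obtain ⟨l, hl, hp⟩ := hpos u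
      rw [this l hl] at hp
      exact lt_irrefl _ hp
    · exact h
  refine ⟨u, fun l hl => ?_⟩
  rcases l with _ | k
  · exact hz
  · rw [hrec k hl]
    exact lt_of_lt_of_le hz (Finset.single_le_sum (f := fun l => d l u) (fun l _ => hn l u)
      (Finset.mem_range.mpr (Nat.succ_pos k)))

/-- Locally constant labels on the members of a finite open cover of the cube. -/
theorem labels (m : ℕ) {ι : Type*} [Fintype ι] (lam : ι → (Fin m → ℝ) → ℝ)
    (hc : ∀ i, Continuous (lam i)) (hn : ∀ i u, 0 ≤ lam i u) (hpos : ∀ u, ∃ i, 0 < lam i u)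
    (lab : ι → (Fin m → ℝ) → ℕ)
    (hloc : ∀ i u, 0 < lam i u → ∀ᶠ v in 𝓝 u, lab i v = lab i u)
    (hle : ∀ i u, 0 < lam i u → lab i u ≤ m)
    (h0 : ∀ i u (k : Fin m), 0 < lam i u → u k ≤ 0 → lab i u ≠ k + 1)
    (h1 : ∀ i u (k : Fin m), 0 < lam i u → 1 ≤ u k → (k : ℕ) < lab i u) :
    m + 1 ≤ Fintype.card ι := by
  classical
  let e : ι → ℕ → (Fin m → ℝ) → ℝ := fun i l u => if lab i u = l then lam i u else 0
  have he0 : ∀ i l u, 0 ≤ e i l u := by
    intro i l u
    simp only [e]; split_ifs
    · exact hn i u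
    · exact le_rfl
  have hel : ∀ i l u, e i l u ≤ lam i u := by
    intro i l u
    simp only [e]; split_ifs
    · exact le_rfl
    · exact hn i u
  have hec : ∀ i l, Continuous (e i l) := by
    intro i l
    rw [continuous_iff_continuousAt]
    intro u
    rcases (hn i u).eq_or_lt with h | h
    · have hu : e i l u = 0 := le_antisymm (h ▸ hel i l u) (he0 i l u)
      unfold ContinuousAt
      rw [hu]
      refine tendsto_of_tendsto_of_tendsto_of_le_of_le tendsto_const_nhds ?_ (he0 i l) (hel i l)
      rw [h]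
      exact (hc i).continuousAt
    · by_cases hl : lab i u = l
      · refine (hc i).continuousAt.congr ?_
        filter_upwards [hloc i u h] with v hv
        simp only [e, hv, hl, if_true]
      · refine (continuousAt_const (y := (0 : ℝ))).congr ?_
        filter_upwards [hloc i u h] with v hv
        simp only [e, hv, hl, if_false]
  have hz : ∀ l u, (∀ i, 0 < lam i u → lab i u ≠ l) → ∑ i, e i l u = 0 := by
    intro l u h
    apply Finset.sum_eq_zero
    intro i _
    simp only [e]
    split_ifs with hl
    · rcases (hn i u).eq_or_lt with h' | h'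
      · exact h'.symm
      · exact absurd hl (h i h')
    · rfl
  obtain ⟨u, hu⟩ := kkm_cube m (fun l u => ∑ i, e i l u)
    (fun l => continuous_finsetSum _ fun i _ => hec i l)
    (fun l u => Finset.sum_nonneg fun i _ => he0 i l u)
    (by
      intro u
      obtain ⟨i, hi⟩ := hpos u
      refine ⟨lab i u, hle i u hi, ?_⟩
      refine lt_of_lt_of_le ?_ (Finset.single_le_sum (f := fun j => e j (lab i u) u)
        (fun j _ => he0 j _ u) (Finset.mem_univ i))
      simpa [e] using hi)
    (fun u k hk => hz _ u fun i hi => h0 i u k hi hk)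
    (fun u k l hl hk => hz _ u fun i hi => by have := h1 i u k hi hk; omega)
  have hex : ∀ l : Fin (m + 1), ∃ i, lab i u = l := by
    intro l
    by_contra hcon
    push Not at hcon
    have := hu l (Nat.lt_succ_iff.mp l.2)
    simp only [hz l u fun i _ => hcon i] at this
    exact lt_irrefl _ this
  choose φ hφ using hex
  have hinj : Function.Injective φ := by
    intro a b hab
    apply Fin.ext
    rw [← hφ a, ← hφ b, hab]
  simpa using Fintype.card_le_of_injective φ hinj

end Pool.Agent.Lib.MP_d328cc_gt
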