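import Mathlib
import Pool.Agent.Lib.MP_d328cc_gt.Pairs

/-!
Inductive convergence: if every point is moved into each of countably many open sets by
arbitrarily small homeomorphisms, then every point is moved into their intersection.
-/

open Set Metric Filter Topology

namespace Pool.Agent.Lib.MP_d328cc_gt.CE

variable {X : Type*} [MetricSpace X] [CompactSpace X]

theorem converge_step {O : Set X} (hO : IsOpen O)
    (h : ∀ q : X, ∀ ε > 0, ∃ k : X ≃ₜ X, (∀ z, dist (k z) z < ε) ∧ k q ∈ O)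
    (q : X) (g : X ≃ₜ X) {δ e : ℝ} (hδ : 0 < δ) (he : 0 < e) :
    ∃ g' : X ≃ₜ X, ∃ δ' > 0, dist (g : C(X, X)) (g' : C(X, X)) ≤ e ∧
      dist (g.symm : C(X, X)) (g'.symm : C(X, X)) ≤ e ∧
      closedBall (g' q) δ' ⊆ O ∩ closedBall (g q) δ := by
  obtain ⟨η, hη, hm⟩ := modulus g.symm he
  obtain ⟨k, hk, hq⟩ := h (g q) (min (min e η) (δ / 2)) (by positivity)
  obtain ⟨ρ, hρ, hb⟩ := Metric.isOpen_iff.mp hO _ hq
  refine ⟨g.trans k, min (ρ / 2) (δ / 2), by positivity, ?_, ?_, ?_⟩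
  · rw [ContinuousMap.dist_le he.le]
    intro x
    have := hk (g x)
    rw [dist_comm] at this
    exact (this.trans_le ((min_le_left _ _).trans (min_le_left _ _))).le
  · rw [ContinuousMap.dist_le he.le]
    intro x
    have := hk (k.symm x)
    rw [k.apply_symm_apply] at this
    exact (hm _ _ (this.trans_le ((min_le_left _ _).trans (min_le_right _ _)))).le
  · intro z hz
    have a1 : dist z (k (g q)) ≤ min (ρ / 2) (δ / 2) := hz
    refine ⟨hb ?_, ?_⟩
    · rw [mem_ball]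
      linarith [min_le_left (ρ / 2) (δ / 2)]
    · rw [mem_closedBall]
      have a2 := (hk (g q)).trans_le (min_le_right _ _)
      linarith [min_le_right (ρ / 2) (δ / 2), dist_triangle z (k (g q)) (g q)]

theorem converge_nat (O : ℕ → Set X) (hO : ∀ n, IsOpen (O n))
    (h : ∀ n, ∀ q : X, ∀ ε > 0, ∃ k : X ≃ₜ X, (∀ z, dist (k z) z < ε) ∧ k q ∈ O n) (q : X) :
    ∃ G : X ≃ₜ X, ∀ n, G q ∈ O n := by
  have step : ∀ (n : ℕ) (s : {s : (X ≃ₜ X) × ℝ // 0 < s.2}), ∃ s' : {s : (X ≃ₜ X) × ℝ // 0 < s.2},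
      dist (s.1.1 : C(X, X)) (s'.1.1 : C(X, X)) ≤ 2 / 2 / 2 ^ n ∧
      dist (s.1.1.symm : C(X, X)) (s'.1.1.symm : C(X, X)) ≤ 2 / 2 / 2 ^ n ∧
      closedBall (s'.1.1 q) s'.1.2 ⊆ O n ∩ closedBall (s.1.1 q) s.1.2 := by
    intro n s
    obtain ⟨g', δ', h0, h1⟩ := converge_step (hO n) (h n) q s.1.1 s.2
      (e := 2 / 2 / 2 ^ n) (by positivity)
    exact ⟨⟨(g', δ'), h0⟩, h1⟩
  choose F hF using step
  let s : ℕ → {s : (X ≃ₜ X) × ℝ // 0 < s.2} := fun n =>
    Nat.rec ⟨(Homeomorph.refl X, 1), one_pos⟩ (fun n s => F n s) n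
  have hs : ∀ n, s (n + 1) = F n (s n) := fun n => rfl
  obtain ⟨G, hG, -⟩ := homeo_limit (fun n => (s n).1.1) (C := 2)
    (fun n => by rw [hs]; exact (hF n (s n)).1) (fun n => by rw [hs]; exact (hF n (s n)).2.1)
  have nest : ∀ n m, closedBall ((s (n + m)).1.1 q) (s (n + m)).1.2 ⊆
      closedBall ((s n).1.1 q) (s n).1.2 := by
    intro n m
    induction m with
    | zero => exact subset_rfl
    | succ m ih =>
      refine subset_trans ?_ ih
      rw [← add_assoc, hs]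
      exact (hF _ _).2.2.trans inter_subset_right
  refine ⟨G, fun n => ?_⟩
  have t1 : Tendsto (fun m => (s m).1.1 q) atTop (𝓝 (G q)) :=
    ((continuous_eval_const q).tendsto (G : C(X, X))).comp hG
  have : G q ∈ closedBall ((s (n + 1)).1.1 q) (s (n + 1)).1.2 := by
    refine isClosed_closedBall.mem_of_tendsto t1 ?_
    filter_upwards [eventually_ge_atTop (n + 1)] with m hm
    obtain ⟨k, rfl⟩ := Nat.exists_eq_add_of_le hm
    exact nest (n + 1) k (mem_closedBall_self (s (n + 1 + k)).2.le)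
  rw [hs] at this
  exact ((hF n (s n)).2.2 this).1

theorem converge {κ : Type*} [Countable κ] [Nonempty κ] (O : κ → Set X) (hO : ∀ n, IsOpen (O n))
    (h : ∀ n, ∀ q : X, ∀ ε > 0, ∃ k : X ≃ₜ X, (∀ z, dist (k z) z < ε) ∧ k q ∈ O n) (q : X) :
    ∃ G : X ≃ₜ X, ∀ n, G q ∈ O n := by
  obtain ⟨e, he⟩ := exists_surjective_nat κ
  obtain ⟨G, hG⟩ := converge_nat (fun n => O (e n)) (fun n => hO _) (fun n => h _) q
  refine ⟨G, fun n => ?_⟩
  obtain ⟨m, rfl⟩ := he n
  exact hG m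

end Pool.Agent.Lib.MP_d328cc_gt.CE
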