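import Mathlib
import Pool.Agent.Lib.MP_d328cc_gt.Cube

/-!
The space: a Hilbert cube with coordinates `x k`, `t n`, `y i` from which the open boxes
`|t n| < r n, |x 0| < r n, ..., |x n| < r n` are removed, where `r n` increases to `1` and
`x 0 ≥ 0`.
-/

open Set Metric Filter Topology

namespace Pool.Agent.Lib.MP_d328cc_gt.CE

/-- indices of the coordinates -/
abbrev Idx : Type := ℕ ⊕ ℕ ⊕ ℕ

/-- index of `x k` -/
abbrev xi (k : ℕ) : Idx := Sum.inl k

/-- index of `t n` -/
abbrev ti (n : ℕ) : Idx := Sum.inr (Sum.inl n)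

/-- index of `y i` -/
abbrev yi (i : ℕ) : Idx := Sum.inr (Sum.inr i)

/-- radius of the `n`-th box -/
noncomputable def r (n : ℕ) : ℝ := 1 - 1 / ((n : ℝ) + 2)

theorem r_lt_one (n : ℕ) : r n < 1 := by
  have : 0 < 1 / ((n : ℝ) + 2) := by positivity
  unfold r
  linarith

theorem r_strictMono : StrictMono r := by
  intro a b h
  have h1 : (a : ℝ) < b := by exact_mod_cast h
  have : 1 / ((b : ℝ) + 2) < 1 / ((a : ℝ) + 2) :=
    one_div_lt_one_div_of_lt (by positivity) (by linarith)
  unfold r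
  linarith

theorem r_zero : r 0 = 1 / 2 := by
  unfold r
  norm_num

theorem half_le_r (n : ℕ) : 1 / 2 ≤ r n := r_zero ▸ r_strictMono.monotone (Nat.zero_le n)

theorem exists_r_gt {c : ℝ} (hc : c < 1) : ∃ n, c < r n := by
  obtain ⟨n, hn⟩ := exists_nat_one_div_lt (sub_pos.mpr hc)
  refine ⟨n, ?_⟩
  have : 1 / ((n : ℝ) + 2) < 1 / ((n : ℝ) + 1) :=
    one_div_lt_one_div_of_lt (by positivity) (by linarith)
  unfold r
  linarith

/-- the `n`-th removed box -/
def Hole (n : ℕ) (z : Idx → ℝ) : Prop := |z (ti n)| < r n ∧ ∀ j ≤ n, |z (xi j)| < r n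

/-- the cube with the boxes removed -/
def S : Set (Idx → ℝ) := {z | (∀ i, |z i| ≤ 1) ∧ 0 ≤ z (xi 0) ∧ ∀ n, ¬ Hole n z}

theorem isOpen_hole (n : ℕ) : IsOpen {z | Hole n z} := by
  have : {z | Hole n z} = {z : Idx → ℝ | |z (ti n)| < r n} ∩
      ⋂ j ∈ Finset.range (n + 1), {z : Idx → ℝ | |z (xi j)| < r n} := by
    ext z
    simp [Hole, Nat.lt_succ_iff]
  rw [this]
  exact (isOpen_lt (by fun_prop) continuous_const).inter
    (isOpen_biInter_finset fun j _ => isOpen_lt (by fun_prop) continuous_const)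

theorem isCompact_S : IsCompact S := by
  have h1 : IsCompact (Set.pi univ fun _ : Idx => Icc (-1 : ℝ) 1) :=
    isCompact_univ_pi fun _ => isCompact_Icc
  have h2 : S = (Set.pi univ fun _ : Idx => Icc (-1 : ℝ) 1) ∩
      ({z : Idx → ℝ | 0 ≤ z (xi 0)} ∩ ⋂ n, {z | Hole n z}ᶜ) := by
    ext z
    simp only [S, abs_le, mem_ofPred_eq, mem_inter_iff, Set.mem_pi, mem_univ, true_imp_iff, mem_Icc,
      mem_iInter, mem_compl_iff]
  rw [h2]
  exact h1.inter_right ((isClosed_le continuous_const (by fun_prop)).inter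
    (isClosed_iInter fun n => (isOpen_hole n).isClosed_compl))

/-- the space -/
def X : Type := {z : Idx → ℝ // z ∈ S}

noncomputable instance : MetricSpace X := TopologicalSpace.metrizableSpaceMetric S

instance : CompactSpace X := isCompact_iff_compactSpace.mp isCompact_S

theorem continuous_val : Continuous fun z : X => z.1 :=
  continuous_subtype_val (p := fun z => z ∈ S)

theorem continuous_coord (i : Idx) : Continuous fun z : X => z.1 i :=
  (continuous_apply i).comp continuous_val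

theorem continuous_mk {Y : Type*} [TopologicalSpace Y] {f : Y → Idx → ℝ} (hf : Continuous f)
    (h : ∀ y, f y ∈ S) : Continuous fun y => (⟨f y, h y⟩ : X) :=
  hf.subtype_mk h

theorem mkHomeo (F : (Idx → ℝ) → Idx → ℝ) (hc : Continuous F) (hm : MapsTo F S S)
    (hi : InjOn F S) (hs : SurjOn F S S) : ∃ h : X ≃ₜ X, ∀ z, (h z).1 = F z.1 := by
  let f : X → X := fun z => ⟨F z.1, hm z.2⟩
  have hf : Continuous f := continuous_mk (hc.comp continuous_val) _
  have hb : Function.Bijective f := by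
    constructor
    · intro z w h
      exact Subtype.ext (hi z.2 w.2 (congrArg Subtype.val h))
    · intro w
      obtain ⟨z, hz, e⟩ := hs w.2
      exact ⟨⟨z, hz⟩, Subtype.ext e⟩
  exact ⟨Continuous.homeoOfEquivCompactToT2 (f := Equiv.ofBijective f hb) hf, fun z => rfl⟩

theorem mkHomeo' (F : (Idx → ℝ) → Idx → ℝ) (hc : Continuous F) (hm : ∀ z, F z ∈ S ↔ z ∈ S)
    (hi : Function.Injective F) (hs : Function.Surjective F) :
    ∃ h : X ≃ₜ X, ∀ z, (h z).1 = F z.1 := by
  refine mkHomeo F hc (fun z hz => (hm z).mpr hz) hi.injOn fun w hw => ?_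
  obtain ⟨z, rfl⟩ := hs w
  exact ⟨z, (hm z).mp hw, rfl⟩

theorem small {ε : ℝ} (hε : 0 < ε) : ∃ M : ℕ, ∃ δ > 0, ∀ z w : X,
    (∀ i, (∀ m ≥ M, i ≠ xi m ∧ i ≠ yi m) → |z.1 i - w.1 i| < δ) → dist z w < ε := by
  classical
  let C : Set (X × X) := {p | ε ≤ dist p.1 p.2}
  have hC : IsCompact C := (isClosed_le continuous_const continuous_dist).isCompact
  let V : Idx × ℕ → Set (X × X) := fun a => {p | 1 / ((a.2 : ℝ) + 1) < |p.1.1 a.1 - p.2.1 a.1|}
  have hV : ∀ a, IsOpen (V a) := fun a => isOpen_lt continuous_const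
    (((continuous_coord a.1).comp continuous_fst).sub
      ((continuous_coord a.1).comp continuous_snd)).abs
  have hcov : C ⊆ ⋃ a, V a := by
    intro p hp
    have hne : p.1.1 ≠ p.2.1 := by
      intro e
      have : p.1 = p.2 := Subtype.ext e
      have h2 : ε ≤ dist p.1 p.2 := hp
      rw [this, dist_self] at h2
      linarith
    obtain ⟨i, hi⟩ := Function.ne_iff.mp hne
    obtain ⟨n, hn⟩ := exists_nat_one_div_lt (abs_pos.mpr (sub_ne_zero.mpr hi))
    exact mem_iUnion.mpr ⟨(i, n), hn⟩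
  obtain ⟨T, hT⟩ := hC.elim_finite_subcover V hV hcov
  let size : Idx × ℕ → ℕ := fun a => a.2 + Sum.elim id (Sum.elim id id) a.1
  refine ⟨T.sup size + 1, 1 / (((T.sup size : ℕ) : ℝ) + 1), by positivity, fun z w h => ?_⟩
  by_contra hc
  obtain ⟨a, ha, h1⟩ := mem_iUnion₂.mp (hT (show (z, w) ∈ C from not_lt.mp hc))
  have h2 : a.2 + Sum.elim id (Sum.elim id id) a.1 ≤ T.sup size := Finset.le_sup (f := size) ha
  have h3 := h a.1 (by
    intro m hm
    constructor <;> intro e <;> simp only [e, Sum.elim_inl, Sum.elim_inr, id] at h2 <;> omega)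
  have h4 : (a.2 : ℝ) ≤ ((T.sup size : ℕ) : ℝ) := by
    exact_mod_cast le_trans (Nat.le_add_right _ _) h2
  have h5 : 1 / (((T.sup size : ℕ) : ℝ) + 1) ≤ 1 / ((a.2 : ℝ) + 1) :=
    one_div_le_one_div_of_le (by positivity) (by linarith)
  have h6 : 1 / ((a.2 : ℝ) + 1) < |z.1 a.1 - w.1 a.1| := h1
  linarith

theorem mem_S_of_one {z : Idx → ℝ} (h : ∀ i, |z i| ≤ 1) (h1 : z (xi 0) = 1) : z ∈ S := by
  refine ⟨h, by rw [h1]; exact zero_le_one, fun n hn => ?_⟩
  have := hn.2 0 (Nat.zero_le n)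
  rw [h1, abs_one] at this
  exact lt_asymm this (r_lt_one n)

/-- the contraction -/
noncomputable def contr (s : ℝ) (z : Idx → ℝ) : Idx → ℝ := fun i =>
  if i = xi 0 then z i + min 1 (2 * s) * (1 - z i) else (1 - max 0 (2 * s - 1)) * z i

theorem contr_mem {s : ℝ} (h0 : 0 ≤ s) (h1 : s ≤ 1) {z : Idx → ℝ} (hz : z ∈ S) :
    contr s z ∈ S := by
  have m0 : 0 ≤ min 1 (2 * s) := le_min zero_le_one (by linarith)
  have m1 : min 1 (2 * s) ≤ 1 := min_le_left _ _
  have z1 := (abs_le.mp (hz.1 (xi 0))).2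
  have z0 := hz.2.1
  have e0 : contr s z (xi 0) = z (xi 0) + min 1 (2 * s) * (1 - z (xi 0)) := by simp [contr]
  have b0 : z (xi 0) ≤ contr s z (xi 0) := by rw [e0]; nlinarith
  have hb : ∀ i, |contr s z i| ≤ 1 := by
    intro i
    by_cases hi : i = xi 0
    · rw [hi, abs_le, e0]
      constructor <;> nlinarith
    · simp only [contr, hi, if_false]
      have a0 : 0 ≤ max 0 (2 * s - 1) := le_max_left _ _
      have a1 : max 0 (2 * s - 1) ≤ 1 := max_le zero_le_one (by linarith)
      rw [abs_mul, abs_of_nonneg (by linarith)]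
      nlinarith [hz.1 i, abs_nonneg (z i)]
  rcases le_total s (1 / 2) with h | h
  · refine ⟨hb, z0.trans b0, fun n hn => hz.2.2 n ?_⟩
    have e : ∀ i, i ≠ xi 0 → contr s z i = z i := by
      intro i hi
      simp only [contr, hi, if_false]
      rw [max_eq_left (by linarith)]
      ring
    refine ⟨by rw [← e _ (by simp)]; exact hn.1, fun j hj => ?_⟩
    by_cases h0 : j = 0
    · have := hn.2 0 (Nat.zero_le n)
      rw [h0, abs_of_nonneg z0]
      exact lt_of_le_of_lt (b0.trans (le_abs_self _)) this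
    · rw [← e _ (by simpa using h0)]
      exact hn.2 j hj
  · apply mem_S_of_one hb
    rw [e0, min_eq_left (by linarith)]
    ring

theorem contractible : ContractibleSpace X := by
  rw [contractible_iff_id_nullhomotopic]
  let p : X := ⟨fun i => if i = xi 0 then 1 else 0, mem_S_of_one (by
    intro i
    split_ifs <;> simp) (by simp)⟩
  have hc : Continuous fun q : unitInterval × X => contr q.1 q.2.1 := by
    apply continuous_pi
    intro i
    have := (continuous_coord i).comp (continuous_snd (X := unitInterval))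
    have h2 : Continuous fun q : unitInterval × X => q.2.1 i := this
    by_cases hi : i = xi 0
    · simp only [contr, hi, if_true]
      rw [hi] at h2
      fun_prop
    · simp only [contr, hi, if_false]
      fun_prop
  refine ⟨p, ⟨⟨⟨fun q => ⟨contr q.1 q.2.1, contr_mem q.1.2.1 q.1.2.2 q.2.2⟩,
    continuous_mk hc _⟩, ?_, ?_⟩⟩⟩
  · intro z
    apply Subtype.ext
    funext i
    by_cases hi : i = xi 0 <;> simp [contr, hi]
  · intro z
    apply Subtype.ext
    funext i
    show contr ((1 : unitInterval) : ℝ) z.1 i = if i = xi 0 then 1 else 0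
    by_cases hi : i = xi 0
    · simp [contr, hi]
    · simp only [contr, hi, if_false]
      norm_num

end Pool.Agent.Lib.MP_d328cc_gt.CE
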