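import Mathlib

/-!
Monotone pushes of the line and a slide of the plane along concentric squares.
-/

open Set Filter Topology

namespace Pool.Agent.Lib.MP_d328cc_gt.CE

/-- a strictly increasing continuous map of the line which is the identity outside `(α, β)` -/
structure Push (α β : ℝ) (φ : ℝ → ℝ) : Prop where
  cont : Continuous φ
  mono : StrictMono φ
  left : ∀ s, s ≤ α → φ s = s
  right : ∀ s, β ≤ s → φ s = s

theorem Push.surj {α β : ℝ} {φ : ℝ → ℝ} (h : Push α β φ) : Function.Surjective φ := by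
  refine h.cont.surjective ?_ ?_
  · refine tendsto_id.congr' ?_
    filter_upwards [eventually_ge_atTop β] with s hs
    exact (h.right s hs).symm
  · refine tendsto_id.congr' ?_
    filter_upwards [eventually_le_atBot α] with s hs
    exact (h.left s hs).symm

theorem Push.lt_iff {α β : ℝ} {φ : ℝ → ℝ} (h : Push α β φ) {c : ℝ} (hc : c ≤ α ∨ β ≤ c) (s : ℝ) :
    φ s < c ↔ s < c := by
  have : φ c = c := hc.elim (h.left c) (h.right c)
  conv_lhs => rw [← this]
  exact h.mono.lt_iff_lt

theorem Push.gt_iff {α β : ℝ} {φ : ℝ → ℝ} (h : Push α β φ) {c : ℝ} (hc : c ≤ α ∨ β ≤ c) (s : ℝ) :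
    c < φ s ↔ c < s := by
  have : φ c = c := hc.elim (h.left c) (h.right c)
  conv_lhs => rw [← this]
  exact h.mono.lt_iff_lt

theorem Push.abs_lt_iff {α β : ℝ} {φ : ℝ → ℝ} (h : Push α β φ) {c : ℝ}
    (h1 : c ≤ α ∨ β ≤ c) (h2 : -c ≤ α ∨ β ≤ -c) (s : ℝ) : |φ s| < c ↔ |s| < c := by
  rw [abs_lt, abs_lt, h.lt_iff h1, h.gt_iff h2]

theorem Push.abs_le_iff {α β : ℝ} {φ : ℝ → ℝ} (h : Push α β φ) {c : ℝ}
    (h1 : c ≤ α ∨ β ≤ c) (h2 : -c ≤ α ∨ β ≤ -c) (s : ℝ) : |φ s| ≤ c ↔ |s| ≤ c := by
  rw [abs_le, abs_le, ← not_lt, ← not_lt, ← not_lt, ← not_lt, h.lt_iff h2, h.gt_iff h1]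

theorem push_id (α β : ℝ) : Push α β id :=
  ⟨continuous_id, strictMono_id, fun _ _ => rfl, fun _ _ => rfl⟩

/-- convex combination of the identity and `φ` -/
def mix (θ : ℝ) (φ : ℝ → ℝ) (s : ℝ) : ℝ := s + θ * (φ s - s)

theorem mix_zero (φ : ℝ → ℝ) (s : ℝ) : mix 0 φ s = s := by simp [mix]

theorem mix_one (φ : ℝ → ℝ) (s : ℝ) : mix 1 φ s = φ s := by simp [mix]

theorem Push.mix {α β : ℝ} {φ : ℝ → ℝ} (h : Push α β φ) {θ : ℝ} (h0 : 0 ≤ θ) (h1 : θ ≤ 1) :
    Push α β (mix θ φ) := by
  refine ⟨?_, ?_, ?_, ?_⟩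
  · have := h.cont
    unfold CE.mix
    fun_prop
  · intro s s' hs
    have a := h.mono hs
    unfold CE.mix
    rcases eq_or_lt_of_le h1 with e | e
    · rw [e]; linarith
    · nlinarith [mul_nonneg h0 (sub_pos.mpr a).le, mul_pos (sub_pos.mpr e) (sub_pos.mpr hs)]
  · intro s hs
    simp [CE.mix, h.left s hs]
  · intro s hs
    simp [CE.mix, h.right s hs]

theorem exists_push_up {α β p q : ℝ} (h1 : α < p) (h2 : p ≤ q) (h3 : q < β) :
    ∃ φ, Push α β φ ∧ φ p = q := by
  have hp : 0 < p - α := by linarith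
  have hb : 0 < β - p := by linarith
  set k1 := (q - α) / (p - α) with hk1
  set k2 := (β - q) / (β - p) with hk2
  have a1 : 1 ≤ k1 := by rw [hk1, le_div_iff₀ hp]; linarith
  have a2 : 0 < k2 := div_pos (by linarith) hb
  have a3 : k2 ≤ 1 := by rw [hk2, div_le_iff₀ hb]; linarith
  have e1 : k1 * (p - α) = q - α := by rw [hk1]; field_simp
  have e2 : k2 * (β - p) = β - q := by rw [hk2]; field_simp
  refine ⟨fun s => max s (min (α + k1 * (s - α)) (β - k2 * (β - s))), ⟨by fun_prop, ?_, ?_, ?_⟩, ?_⟩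
  · intro s s' hs
    apply max_lt_max hs
    apply min_lt_min <;> nlinarith
  · intro s hs
    apply max_eq_left
    apply le_trans (min_le_left _ _)
    nlinarith
  · intro s hs
    apply max_eq_left
    apply le_trans (min_le_right _ _)
    nlinarith
  · simp only [e1, e2]
    rw [show α + (q - α) = q by ring, show β - (β - q) = q by ring, min_self]
    exact max_eq_right h2

theorem exists_push {α β p q : ℝ} (h1 : α < p) (h2 : p < β) (h3 : α < q) (h4 : q < β) :
    ∃ φ, Push α β φ ∧ φ p = q := by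
  rcases le_total p q with h | h
  · exact exists_push_up h1 h h4
  · obtain ⟨φ, hφ, e⟩ := exists_push_up (α := -β) (β := -α) (p := -p) (q := -q)
      (by linarith) (by linarith) (by linarith)
    refine ⟨fun s => -φ (-s), ⟨?_, ?_, ?_, ?_⟩, ?_⟩
    · have := hφ.cont
      fun_prop
    · intro s s' hs
      have := hφ.mono (neg_lt_neg hs)
      simp only
      linarith
    · intro s hs
      rw [hφ.right _ (by linarith), neg_neg]
    · intro s hs
      rw [hφ.left _ (by linarith), neg_neg]
    · simp only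
      rw [e, neg_neg]

/-- arc length along the concentric squares -/
noncomputable def arc (a b : ℝ) : ℝ := b + max 0 (b - a) - max 0 (-b - a)

/-- first coordinate of the point with given radius and arc length -/
noncomputable def ptA (ρ σ : ℝ) : ℝ := ρ - max 0 (|σ| - ρ)

/-- second coordinate of the point with given radius and arc length -/
noncomputable def ptB (ρ σ : ℝ) : ℝ := max (-ρ) (min ρ σ)

theorem pt_arc {a : ℝ} (ha : 0 < a) (b : ℝ) :
    ptA (max a |b|) (arc a b) = a ∧ ptB (max a |b|) (arc a b) = b := by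
  unfold ptA ptB arc
  rcases le_total 0 b with hb | hb
  · rw [abs_of_nonneg hb, max_eq_left (by linarith : -b - a ≤ 0)]
    rcases le_total a b with h | h
    · rw [max_eq_right h, max_eq_right (by linarith : 0 ≤ b - a), abs_of_nonneg (by linarith),
        max_eq_right (by linarith), min_eq_left (by linarith), max_eq_right (by linarith)]
      constructor <;> ring
    · rw [max_eq_left h, max_eq_left (by linarith : b - a ≤ 0), abs_of_nonneg (by linarith),
        max_eq_left (by linarith), min_eq_right (by linarith), max_eq_right (by linarith)]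
      constructor <;> ring
  · rw [abs_of_nonpos hb, max_eq_left (by linarith : b - a ≤ 0)]
    rcases le_total a (-b) with h | h
    · rw [max_eq_right h, max_eq_right (by linarith : 0 ≤ -b - a), abs_of_nonpos (by linarith),
        max_eq_right (by linarith), min_eq_right (by linarith), max_eq_left (by linarith)]
      constructor <;> ring
    · rw [max_eq_left h, max_eq_left (by linarith : -b - a ≤ 0), abs_of_nonpos (by linarith),
        max_eq_left (by linarith), min_eq_right (by linarith), max_eq_right (by linarith)]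
      constructor <;> ring

theorem arc_pt {ρ σ : ℝ} (h0 : 0 < ρ) (h : |σ| < 2 * ρ) :
    max (ptA ρ σ) |ptB ρ σ| = ρ ∧ arc (ptA ρ σ) (ptB ρ σ) = σ := by
  unfold ptA ptB arc
  obtain ⟨h1, h2⟩ := abs_lt.mp h
  rcases le_total σ (-ρ) with a | a
  · rw [abs_of_nonpos (by linarith : σ ≤ 0), max_eq_right (by linarith : 0 ≤ -σ - ρ),
      min_eq_right (by linarith), max_eq_left a, abs_of_nonpos (by linarith),
      max_eq_right (by linarith), max_eq_left (by linarith), max_eq_right (by linarith)]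
    constructor <;> ring
  · rcases le_total σ ρ with c | c
    · have : |σ| ≤ ρ := abs_le.mpr ⟨a, c⟩
      rw [max_eq_left (by linarith : |σ| - ρ ≤ 0), min_eq_right c, max_eq_right a,
        max_eq_left (by linarith), max_eq_left (by linarith), max_eq_left (by linarith)]
      constructor <;> ring
    · rw [abs_of_nonneg (by linarith : 0 ≤ σ), max_eq_right (by linarith : 0 ≤ σ - ρ),
        min_eq_left c, max_eq_right (by linarith : -ρ ≤ ρ), abs_of_nonneg h0.le,
        max_eq_right (by linarith), max_eq_right (by linarith), max_eq_left (by linarith)]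
      constructor <;> ring

theorem ptA_gt {ρ σ c : ℝ} : c < ptA ρ σ ↔ c < ρ ∧ |σ| < 2 * ρ - c := by
  unfold ptA
  rcases le_total (|σ| - ρ) 0 with h | h
  · rw [max_eq_left h]
    constructor
    · intro a; constructor <;> linarith
    · intro a; linarith [a.1]
  · rw [max_eq_right h]
    constructor
    · intro a; constructor <;> linarith
    · intro a; linarith [a.2]

/-- a bijection of the plane which preserves the sup norm, is supported near the right edge of
the square and moves the right edge off itself -/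
structure Twist (β : ℝ) (τ : ℝ × ℝ → ℝ × ℝ) : Prop where
  cont : Continuous τ
  inj : Function.Injective τ
  surj : Function.Surjective τ
  fix : ∀ p : ℝ × ℝ, p.1 ≤ 1 - β → τ p = p
  stay : ∀ p : ℝ × ℝ, 1 - β < p.1 → 1 - β < (τ p).1
  norm : ∀ p : ℝ × ℝ, max |(τ p).1| |(τ p).2| = max |p.1| |p.2|
  off : ∀ b, |b| ≤ 1 → (τ (1, b)).1 < 1

theorem exists_twist {β : ℝ} (h0 : 0 < β) (h1 : β < 1) : ∃ τ, Twist β τ := by
  obtain ⟨φ, hφ, hφ1⟩ := exists_push (α := -(1 + β / 2)) (β := 1 + β / 2) (p := -1)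
    (q := 1 + β / 4) (by linarith) (by linarith) (by linarith) (by linarith)
  let θ : ℝ → ℝ := fun ρ => max 0 (min 1 ((ρ - (1 - β / 4)) / (β / 4)))
  have θc : Continuous θ := by fun_prop
  have θ0 : ∀ ρ, 0 ≤ θ ρ := fun ρ => le_max_left _ _
  have θ1 : ∀ ρ, θ ρ ≤ 1 := fun ρ => max_le zero_le_one (min_le_left _ _)
  have θz : ∀ ρ, ρ ≤ 1 - β / 4 → θ ρ = 0 := fun ρ h =>
    max_eq_left ((min_le_right _ _).trans (div_nonpos_of_nonpos_of_nonneg (by linarith)
      (by linarith)))
  have θo : θ 1 = 1 := by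
    have : (1 - (1 - β / 4)) / (β / 4) = 1 := by field_simp; ring
    simp only [θ, this, min_self]
    exact max_eq_right zero_le_one
  let f : ℝ → ℝ → ℝ := fun ρ => mix (θ ρ) φ
  have hf : ∀ ρ, Push (-(1 + β / 2)) (1 + β / 2) (f ρ) := fun ρ => hφ.mix (θ0 ρ) (θ1 ρ)
  have fkeep : ∀ ρ σ, |f ρ σ| < 2 * ρ - (1 - β) ↔ |σ| < 2 * ρ - (1 - β) := by
    intro ρ σ
    rcases le_total ρ (1 - β / 4) with h | h
    · simp only [f, θz ρ h, mix_zero]
    · exact (hf ρ).abs_lt_iff (Or.inr (by linarith)) (Or.inl (by linarith)) σ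
  let τ : ℝ × ℝ → ℝ × ℝ := fun p =>
    (p.1 - max p.1 (1 - β) +
      ptA (max (max p.1 (1 - β)) |p.2|) (f (max (max p.1 (1 - β)) |p.2|) (arc (max p.1 (1 - β)) p.2)),
     ptB (max (max p.1 (1 - β)) |p.2|) (f (max (max p.1 (1 - β)) |p.2|) (arc (max p.1 (1 - β)) p.2)))
  have hβ : 0 < 1 - β := by linarith
  have hfix : ∀ p : ℝ × ℝ, p.1 ≤ 1 - β → τ p = p := by
    rintro ⟨a, b⟩ ha
    simp only at ha
    have e := pt_arc hβ b
    have hs : f (max (1 - β) |b|) (arc (1 - β) b) = arc (1 - β) b := by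
      rcases le_total (max (1 - β) |b|) (1 - β / 4) with h | h
      · simp only [f, θz _ h, mix_zero]
      · have hn : ¬ |arc (1 - β) b| < 2 * max (1 - β) |b| - (1 - β) := by
          intro hlt
          have := (ptA_gt (c := 1 - β)).mpr ⟨by linarith, hlt⟩
          rw [e.1] at this
          exact lt_irrefl _ this
        rcases le_abs.mp (not_lt.mp hn) with c | c
        · exact (hf _).right _ (by linarith)
        · exact (hf _).left _ (by linarith)
    simp only [τ, max_eq_right ha, hs, e.1, e.2]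
    ext
    · simp
    · rfl
  have hin : ∀ p : ℝ × ℝ, 1 - β < p.1 → τ p =
      (ptA (max p.1 |p.2|) (f (max p.1 |p.2|) (arc p.1 p.2)),
       ptB (max p.1 |p.2|) (f (max p.1 |p.2|) (arc p.1 p.2))) := by
    intro p hp
    simp only [τ, max_eq_left hp.le, sub_self, zero_add]
  have hlt : ∀ p : ℝ × ℝ, 1 - β < p.1 → 1 - β < max p.1 |p.2| ∧
      |f (max p.1 |p.2|) (arc p.1 p.2)| < 2 * max p.1 |p.2| - (1 - β) := by
    intro p hp
    have e := pt_arc (hβ.trans hp) p.2
    have := (ptA_gt (ρ := max p.1 |p.2|) (σ := arc p.1 p.2) (c := 1 - β)).mp (by rw [e.1]; exact hp)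
    exact ⟨this.1, (fkeep _ _).mpr this.2⟩
  have hstay : ∀ p : ℝ × ℝ, 1 - β < p.1 → 1 - β < (τ p).1 := by
    intro p hp
    rw [hin p hp]
    exact ptA_gt.mpr (hlt p hp)
  have hback : ∀ p : ℝ × ℝ, 1 - β < p.1 → max (τ p).1 |(τ p).2| = max p.1 |p.2| ∧
      arc (τ p).1 (τ p).2 = f (max p.1 |p.2|) (arc p.1 p.2) := by
    intro p hp
    rw [hin p hp]
    have := hlt p hp
    exact arc_pt (hβ.trans this.1) (by linarith [this.2])
  refine ⟨τ, ?_, ?_, ?_, hfix, hstay, ?_, ?_⟩
  · have := hφ.cont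
    simp only [τ, f, mix, ptA, ptB, arc]
    fun_prop
  · intro p q hpq
    rcases le_or_gt p.1 (1 - β) with hp | hp <;> rcases le_or_gt q.1 (1 - β) with hq | hq
    · rwa [hfix p hp, hfix q hq] at hpq
    · have := hstay q hq
      rw [← hpq, hfix p hp] at this
      linarith
    · have := hstay p hp
      rw [hpq, hfix q hq] at this
      linarith
    · have a := hback p hp
      have b := hback q hq
      rw [hpq] at a
      have e1 : max p.1 |p.2| = max q.1 |q.2| := a.1.symm.trans b.1
      have e2 : arc p.1 p.2 = arc q.1 q.2 := by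
        apply (hf (max q.1 |q.2|)).mono.injective
        rw [← b.2, a.2, e1]
      have c := pt_arc (hβ.trans hp) p.2
      have d := pt_arc (hβ.trans hq) q.2
      rw [e1, e2] at c
      exact Prod.ext (c.1.symm.trans d.1) (c.2.symm.trans d.2)
  · intro q
    rcases le_or_gt q.1 (1 - β) with hq | hq
    · exact ⟨q, hfix q hq⟩
    · have d := pt_arc (hβ.trans hq) q.2
      have d2 := (ptA_gt (ρ := max q.1 |q.2|) (σ := arc q.1 q.2) (c := 1 - β)).mp
        (by rw [d.1]; exact hq)
      obtain ⟨σ, hσ⟩ := (hf (max q.1 |q.2|)).surj (arc q.1 q.2)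
      have s1 : |σ| < 2 * max q.1 |q.2| - (1 - β) := (fkeep _ _).mp (by rw [hσ]; exact d2.2)
      have s2 := arc_pt (hβ.trans d2.1) (σ := σ) (by linarith)
      refine ⟨(ptA (max q.1 |q.2|) σ, ptB (max q.1 |q.2|) σ), ?_⟩
      rw [hin _ (ptA_gt.mpr ⟨d2.1, s1⟩)]
      simp only [s2.1, s2.2, hσ, d.1, d.2]
  · intro p
    rcases le_or_gt p.1 (1 - β) with hp | hp
    · rw [hfix p hp]
    · rw [abs_of_pos (hβ.trans hp), abs_of_pos (hβ.trans (hstay p hp))]
      exact (hback p hp).1
  · intro b hb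
    rw [hin _ (by simp only; linarith)]
    have hb' := abs_le.mp hb
    have e1 : arc 1 b = b := by
      unfold arc
      rw [max_eq_left (by linarith), max_eq_left (by linarith)]
      ring
    simp only [max_eq_left hb, e1, f, θo, mix_one]
    have e2 : 1 + β / 4 ≤ φ b := hφ1 ▸ hφ.mono.monotone hb'.1
    unfold ptA
    rw [abs_of_pos (by linarith), max_eq_right (by linarith)]
    linarith

end Pool.Agent.Lib.MP_d328cc_gt.CE
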