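import Mathlib
import Pool.Agent.Lib.MP_d328cc_gt.Space
import Pool.Agent.Lib.MP_d328cc_gt.Twist

/-!
Small homeomorphisms which move a point off a face of the cube.
-/

open Set Metric Filter Topology

namespace Pool.Agent.Lib.MP_d328cc_gt.CE

/-- the slide applied to the coordinates `ε * z i + c` and `z j` -/
def pairMap (i j : Idx) (ε c : ℝ) (τ : ℝ × ℝ → ℝ × ℝ) (z : Idx → ℝ) : Idx → ℝ := fun l =>
  if l = i then ε * ((τ (ε * z i + c, z j)).1 - c)
  else if l = j then (τ (ε * z i + c, z j)).2 else z l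

section
variable {i j : Idx} {ε c β : ℝ} {τ : ℝ × ℝ → ℝ × ℝ}

theorem pair_i (hε : ε * ε = 1) (z : Idx → ℝ) :
    ε * pairMap i j ε c τ z i + c = (τ (ε * z i + c, z j)).1 := by
  simp only [pairMap, if_true]
  rw [← mul_assoc, hε]
  ring

theorem pair_j (hij : j ≠ i) (z : Idx → ℝ) :
    pairMap i j ε c τ z j = (τ (ε * z i + c, z j)).2 := by
  simp [pairMap, hij]

theorem pair_other (z : Idx → ℝ) {l : Idx} (h1 : l ≠ i) (h2 : l ≠ j) :
    pairMap i j ε c τ z l = z l := by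
  simp [pairMap, h1, h2]

theorem eq_of_aff (hε : ε * ε = 1) {u v : ℝ} (h : ε * u + c = ε * v + c) : u = v := by
  have : ε * (ε * u) = ε * (ε * v) := by rw [add_right_cancel h]
  rwa [← mul_assoc, ← mul_assoc, hε, one_mul, one_mul] at this

theorem pair_cont (hτ : Continuous τ) : Continuous (pairMap i j ε c τ) := by
  apply continuous_pi
  intro l
  unfold pairMap
  split_ifs <;> fun_prop

theorem pair_inj (hε : ε * ε = 1) (hij : j ≠ i) (hτ : Function.Injective τ) :
    Function.Injective (pairMap i j ε c τ) := by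
  intro z w h
  have e : (ε * z i + c, z j) = (ε * w i + c, w j) := by
    apply hτ
    apply Prod.ext
    · rw [← pair_i hε, ← pair_i hε, h]
    · rw [← pair_j hij, ← pair_j hij, h]
  funext l
  by_cases h1 : l = i
  · rw [h1]
    exact eq_of_aff hε (congrArg Prod.fst e)
  · by_cases h2 : l = j
    · rw [h2]
      exact congrArg Prod.snd e
    · rw [← pair_other (ε := ε) (c := c) (τ := τ) z h1 h2, h, pair_other w h1 h2]

theorem pair_surj (hε : ε * ε = 1) (hij : j ≠ i) (hτ : Function.Surjective τ) :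
    Function.Surjective (pairMap i j ε c τ) := by
  intro w
  obtain ⟨p, hp⟩ := hτ (ε * w i + c, w j)
  let z : Idx → ℝ := fun l => if l = i then ε * (p.1 - c) else if l = j then p.2 else w l
  have e : (ε * z i + c, z j) = p := by
    apply Prod.ext
    · simp only [z, if_true]
      rw [← mul_assoc, hε]
      ring
    · simp [z, hij]
  refine ⟨z, funext fun l => ?_⟩
  by_cases h1 : l = i
  · rw [h1]
    apply eq_of_aff (c := c) hε
    rw [pair_i hε, e, hp]
  · by_cases h2 : l = j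
    · rw [h2, pair_j hij, e, hp]
    · rw [pair_other z h1 h2]
      simp [z, h1, h2]

/-- the relation between a point in the support of the slide and its image -/
def Rel (i j : Idx) (ε c β : ℝ) (z w : Idx → ℝ) : Prop :=
  1 - β < ε * z i + c ∧ 1 - β < ε * w i + c ∧
    max (ε * w i + c) |w j| = max (ε * z i + c) |z j| ∧ ∀ l, l ≠ i → l ≠ j → w l = z l

theorem Rel.symm {z w : Idx → ℝ} (h : Rel i j ε c β z w) : Rel i j ε c β w z :=
  ⟨h.2.1, h.1, h.2.2.1.symm, fun l h1 h2 => (h.2.2.2 l h1 h2).symm⟩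

theorem pair_cases (hε : ε * ε = 1) (hij : j ≠ i) (hβ : β < 1) (hτ : Twist β τ) (z : Idx → ℝ) :
    pairMap i j ε c τ z = z ∨ Rel i j ε c β z (pairMap i j ε c τ z) := by
  rcases le_or_gt (ε * z i + c) (1 - β) with h | h
  · left
    have e := hτ.fix (ε * z i + c, z j) h
    funext l
    by_cases h1 : l = i
    · rw [h1]
      apply eq_of_aff (c := c) hε
      rw [pair_i hε, e]
    · by_cases h2 : l = j
      · rw [h2, pair_j hij, e]
      · exact pair_other z h1 h2
  · right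
    have s := hτ.stay (ε * z i + c, z j) h
    have n := hτ.norm (ε * z i + c, z j)
    rw [abs_of_pos (by linarith), abs_of_pos (a := (ε * z i + c, z j).1) (by simp only; linarith)] at n
    refine ⟨h, by rw [pair_i hε]; exact s, ?_, fun l => pair_other z⟩
    rw [pair_i hε, pair_j hij]
    exact n

end

theorem face_move (i : Idx) (ε c : ℝ) (hε : ε = 1 ∨ ε = -1) (ha : ∀ z ∈ S, ε * z i + c ≤ 1)
    (H : ∀ M : ℕ, ∃ m ≥ M, ∃ j, (j = xi m ∨ j = yi m) ∧ j ≠ i ∧ ∃ β₀ > 0, ∀ β, 0 < β → β ≤ β₀ →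
      ∀ z w, Rel i j ε c β z w → z ∈ S → w ∈ S)
    (q : X) (hq : ε * q.1 i + c = 1) {e : ℝ} (he : 0 < e) :
    ∃ k : X ≃ₜ X, (∀ z, dist (k z) z < e) ∧ 0 < ε * (k q).1 i + c ∧ ε * (k q).1 i + c < 1 := by
  have hε2 : ε * ε = 1 := by rcases hε with h | h <;> rw [h] <;> norm_num
  obtain ⟨M, δ, hδ, hs⟩ := small he
  obtain ⟨m, hm, j, hj, hij, β₀, hβ₀, hR⟩ := H M
  set β := min (min β₀ δ) (1 / 2) with hβ
  have b0 : 0 < β := by positivity
  have b1 : β < 1 := (min_le_right _ _).trans_lt (by norm_num)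
  have b2 : β ≤ β₀ := (min_le_left _ _).trans (min_le_left _ _)
  have b3 : β ≤ δ := (min_le_left _ _).trans (min_le_right _ _)
  obtain ⟨τ, hτ⟩ := exists_twist b0 b1
  obtain ⟨k, hk⟩ := mkHomeo' (pairMap i j ε c τ) (pair_cont hτ.cont) (by
    intro z
    rcases pair_cases (c := c) hε2 hij b1 hτ z with h | h
    · rw [h]
    · exact ⟨hR β b0 b2 _ _ h.symm, hR β b0 b2 _ _ h⟩)
    (pair_inj hε2 hij hτ.inj) (pair_surj hε2 hij hτ.surj)
  refine ⟨k, fun z => hs _ _ fun l hl => ?_, ?_, ?_⟩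
  · have hlj : l ≠ j := by
      rcases hj with h | h <;> rw [h]
      · exact (hl m hm).1
      · exact (hl m hm).2
    have a1 := ha _ (k z).2
    have a2 := ha _ z.2
    rw [hk] at a1 ⊢
    rcases pair_cases (c := c) hε2 hij b1 hτ z.1 with h | h
    · rw [h]
      simpa using hδ
    · by_cases h1 : l = i
      · rw [h1, abs_lt]
        have a3 := h.1
        have a4 := h.2.1
        rcases hε with h5 | h5 <;> rw [h5] at a1 a2 a3 a4 <;> rw [h5] <;> constructor <;> linarith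
      · rw [h.2.2.2 l h1 hlj]
        simpa using hδ
  · rw [hk, pair_i hε2]
    have := hτ.stay (ε * q.1 i + c, q.1 j) (by simp only; linarith)
    linarith
  · rw [hk, pair_i hε2, hq]
    exact hτ.off _ (q.2.1 j)

theorem abs_eq_of_sign {ε u : ℝ} (hε : ε = 1 ∨ ε = -1) (h : 0 < ε * u) : |u| = ε * u := by
  rcases hε with e | e <;> rw [e] at h ⊢
  · rw [abs_of_pos (by linarith), one_mul]
  · rw [abs_of_neg (by linarith), neg_one_mul]

theorem sign_le_abs {ε : ℝ} (hε : ε = 1 ∨ ε = -1) (u : ℝ) : ε * u ≤ |u| := by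
  rcases hε with e | e <;> rw [e]
  · rw [one_mul]; exact le_abs_self u
  · rw [neg_one_mul]; exact neg_le_abs u

theorem Rel.box {i j : Idx} {ε β : ℝ} {z w : Idx → ℝ} (hε : ε = 1 ∨ ε = -1) (hβ : β ≤ 1)
    (h : Rel i j ε 0 β z w) {c : ℝ} (hi : |z i| ≤ c) (hj : |z j| ≤ c) : |w i| ≤ c ∧ |w j| ≤ c := by
  obtain ⟨a1, a2, a3, -⟩ := h
  simp only [add_zero] at a1 a2 a3
  have : max (ε * w i) |w j| ≤ c := by
    rw [a3]
    exact max_le ((sign_le_abs hε _).trans hi) hj
  rw [abs_eq_of_sign hε (by linarith : 0 < ε * w i)]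
  exact max_le_iff.mp this

theorem Rel.cube {i j : Idx} {ε β : ℝ} {z w : Idx → ℝ} (hε : ε = 1 ∨ ε = -1) (hβ : β ≤ 1)
    (h : Rel i j ε 0 β z w) (hz : ∀ l, |z l| ≤ 1) (l : Idx) : |w l| ≤ 1 := by
  have := h.box hε hβ (hz i) (hz j)
  by_cases h1 : l = i
  · rw [h1]; exact this.1
  · by_cases h2 : l = j
    · rw [h2]; exact this.2
    · rw [h.2.2.2 l h1 h2]; exact hz l

theorem rel_x {k m : ℕ} (hkm : k < m) {ε β : ℝ} (hε : ε = 1 ∨ ε = -1) (h0 : k = 0 → ε = 1)
    (hβ : β ≤ 1 - r m) {z w : Idx → ℝ} (h : Rel (xi k) (xi m) ε 0 β z w) (hz : z ∈ S) :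
    w ∈ S := by
  have hr := half_le_r m
  have hβ1 : β ≤ 1 := by linarith
  have a2 := h.2.1
  rw [add_zero] at a2
  refine ⟨h.cube hε hβ1 hz.1, ?_, fun n hn => ?_⟩
  · by_cases hk : k = 0
    · rw [h0 hk, hk] at a2
      linarith
    · rw [h.2.2.2 _ (by simpa using Ne.symm hk) (by simp; omega)]
      exact hz.2.1
  · apply hz.2.2 n
    refine ⟨by rw [← h.2.2.2 _ (by simp) (by simp)]; exact hn.1, fun l hl => ?_⟩
    by_cases h1 : l = k ∨ l = m
    · have hk : k ≤ n := by omega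
      have b1 := hn.2 k hk
      have b2 := sign_le_abs hε (w (xi k))
      have hm : m ≤ n := by
        by_contra hc
        have := r_strictMono (not_le.mp hc)
        linarith
      have b3 := hn.2 m hm
      have := h.symm.box hε hβ1 (le_max_left _ _) (le_max_right _ _)
      have b4 := max_lt b1 b3
      rcases h1 with e | e <;> rw [e]
      · exact this.1.trans_lt b4
      · exact this.2.trans_lt b4
    · push Not at h1
      rw [← h.2.2.2 _ (by simpa using h1.1) (by simpa using h1.2)]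
      exact hn.2 l hl

theorem rel_t {k m : ℕ} {ε β : ℝ} (hε : ε = 1 ∨ ε = -1) (hβ : β ≤ 1 - r k) {z w : Idx → ℝ}
    (h : Rel (ti k) (yi m) ε 0 β z w) (hz : z ∈ S) : w ∈ S := by
  have hr := half_le_r k
  have a2 := h.2.1
  rw [add_zero] at a2
  refine ⟨h.cube hε (by linarith) hz.1, ?_, fun n hn => ?_⟩
  · rw [h.2.2.2 _ (by simp) (by simp)]
    exact hz.2.1
  · by_cases hk : n = k
    · have b1 := hn.1
      rw [hk] at b1
      linarith [sign_le_abs hε (w (ti k))]
    · apply hz.2.2 n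
      refine ⟨by rw [← h.2.2.2 _ (by simpa using hk) (by simp)]; exact hn.1, fun l hl => ?_⟩
      rw [← h.2.2.2 _ (by simp) (by simp)]
      exact hn.2 l hl

theorem rel_y {k m : ℕ} {ε β : ℝ} (hε : ε = 1 ∨ ε = -1) (hβ : β ≤ 1) {z w : Idx → ℝ}
    (h : Rel (yi k) (yi m) ε 0 β z w) (hz : z ∈ S) : w ∈ S := by
  refine ⟨h.cube hε hβ hz.1, ?_, fun n hn => ?_⟩
  · rw [h.2.2.2 _ (by simp) (by simp)]
    exact hz.2.1
  · apply hz.2.2 n
    refine ⟨by rw [← h.2.2.2 _ (by simp) (by simp)]; exact hn.1, fun l hl => ?_⟩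
    rw [← h.2.2.2 _ (by simp) (by simp)]
    exact hn.2 l hl

theorem rel_zero {m : ℕ} {β : ℝ} (hβ : β ≤ 1 / 2) {z w : Idx → ℝ}
    (h : Rel (xi 0) (yi m) (-1) 1 β z w) (hz : z ∈ S) : w ∈ S := by
  obtain ⟨a1, a2, a3, a4⟩ := h
  have z0 := hz.2.1
  have b : max (-1 * w (xi 0) + 1) |w (yi m)| ≤ 1 := by
    rw [a3]
    exact max_le (by linarith) (hz.1 _)
  obtain ⟨b1, b2⟩ := max_le_iff.mp b
  refine ⟨fun l => ?_, by linarith, fun n hn => ?_⟩
  · by_cases h1 : l = xi 0
    · rw [h1, abs_le]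
      constructor <;> linarith
    · by_cases h2 : l = yi m
      · rw [h2]; exact b2
      · rw [a4 l h1 h2]; exact hz.1 l
  · apply hz.2.2 n
    refine ⟨by rw [← a4 _ (by simp) (by simp)]; exact hn.1, fun l hl => ?_⟩
    by_cases h1 : l = 0
    · rw [h1, abs_of_nonneg z0]
      linarith [half_le_r n]
    · rw [← a4 _ (by simpa using h1) (by simp)]
      exact hn.2 l hl

theorem move_face (i : Idx) (q : X) {e : ℝ} (he : 0 < e) :
    ∃ k : X ≃ₜ X, (∀ z, dist (k z) z < e) ∧ |(k q).1 i| < 1 := by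
  rcases eq_or_lt_of_le (q.2.1 i) with h | h
  swap
  · exact ⟨Homeomorph.refl X, fun z => by simpa using he, h⟩
  obtain ⟨ε, hε, hq⟩ : ∃ ε : ℝ, (ε = 1 ∨ ε = -1) ∧ ε * q.1 i + 0 = 1 := by
    rcases (abs_eq zero_le_one).mp h with a | a
    · exact ⟨1, Or.inl rfl, by rw [a]; norm_num⟩
    · exact ⟨-1, Or.inr rfl, by rw [a]; norm_num⟩
  obtain ⟨k, hk, a1, a2⟩ := face_move i ε 0 hε
    (fun z hz => by rw [add_zero]; exact (sign_le_abs hε _).trans (hz.1 i)) (by
      intro M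
      rcases i with k | k | k
      · refine ⟨M + k + 1, by omega, xi (M + k + 1), Or.inl rfl, by simp; omega,
          1 - r (M + k + 1), sub_pos.mpr (r_lt_one _), fun β _ hβ z w hR => ?_⟩
        refine rel_x (by omega) hε (fun hk => ?_) hβ hR
        rcases hε with a | a
        · exact a
        · have := q.2.2.1
          rw [a, hk] at hq
          exfalso
          linarith
      · exact ⟨M, le_rfl, yi M, Or.inr rfl, by simp, 1 - r k, sub_pos.mpr (r_lt_one _),
          fun β _ hβ z w hR => rel_t hε hβ hR⟩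
      · exact ⟨M + k + 1, by omega, yi (M + k + 1), Or.inr rfl, by simp; omega, 1, one_pos,
          fun β _ hβ z w hR => rel_y hε hβ hR⟩) q hq he
  rw [add_zero] at a1 a2
  exact ⟨k, hk, by rw [abs_eq_of_sign hε a1]; exact a2⟩

theorem move_zero (q : X) {e : ℝ} (he : 0 < e) :
    ∃ k : X ≃ₜ X, (∀ z, dist (k z) z < e) ∧ 0 < (k q).1 (xi 0) := by
  rcases eq_or_lt_of_le q.2.2.1 with h | h
  swap
  · exact ⟨Homeomorph.refl X, fun z => by simpa using he, h⟩
  obtain ⟨k, hk, -, a2⟩ := face_move (xi 0) (-1) 1 (Or.inr rfl)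
    (fun z hz => by linarith [hz.2.1])
    (fun M => ⟨M, le_rfl, yi M, Or.inr rfl, by simp, 1 / 2, by norm_num,
      fun β _ hβ z w hR => rel_zero hβ hR⟩) q (by rw [← h]; norm_num) he
  exact ⟨k, hk, by linarith⟩

end Pool.Agent.Lib.MP_d328cc_gt.CE
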