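import Mathlib
import Pool.Agent.Lib.MP_d328cc_gt.Space
import Pool.Agent.Lib.MP_d328cc_gt.Twist

/-!
Small homeomorphisms which move a point off the wall of a removed box.
-/

open Set Metric Filter Topology

namespace Pool.Agent.Lib.MP_d328cc_gt.CE

/-- the largest of `|x 0|, ..., |x n|` -/
noncomputable def Nx : ℕ → (Idx → ℝ) → ℝ
  | 0, z => |z (xi 0)|
  | n + 1, z => max (Nx n z) |z (xi (n + 1))|

theorem Nx_lt {n : ℕ} {z : Idx → ℝ} {c : ℝ} : Nx n z < c ↔ ∀ j ≤ n, |z (xi j)| < c := by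
  induction n with
  | zero => simp [Nx]
  | succ n ih =>
    rw [Nx, max_lt_iff, ih]
    constructor
    · rintro ⟨h1, h2⟩ j hj
      rcases Nat.lt_or_eq_of_le hj with h | h
      · exact h1 j (Nat.lt_succ_iff.mp h)
      · rw [h]; exact h2
    · intro h
      exact ⟨fun j hj => h j (hj.trans (Nat.le_succ n)), h _ le_rfl⟩

theorem Nx_le {n : ℕ} {z : Idx → ℝ} {c : ℝ} (h : ∀ j ≤ n, |z (xi j)| ≤ c) : Nx n z ≤ c :=
  le_of_forall_gt_imp_ge_of_dense fun _ hd => (Nx_lt.mpr fun j hj => (h j hj).trans_lt hd).le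

theorem Nx_cont (n : ℕ) : Continuous (Nx n) := by
  induction n with
  | zero => exact (continuous_apply (xi 0)).abs
  | succ n ih => exact ih.max (continuous_apply (xi (n + 1))).abs

theorem Nx_map {f : ℝ → ℝ} (hf : Monotone f) {n : ℕ} {z w : Idx → ℝ}
    (h : ∀ j ≤ n, |w (xi j)| = f |z (xi j)|) : Nx n w = f (Nx n z) := by
  induction n with
  | zero => exact h 0 le_rfl
  | succ n ih =>
    rw [Nx, Nx, hf.map_max, ih fun j hj => h j (hj.trans (Nat.le_succ n)), h _ le_rfl]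

/-- the largest of `|t n|, |x 0|, ..., |x n|` -/
noncomputable def NN (n : ℕ) (z : Idx → ℝ) : ℝ := max |z (ti n)| (Nx n z)

theorem hole_iff {n : ℕ} {z : Idx → ℝ} : Hole n z ↔ NN n z < r n := by
  rw [NN, max_lt_iff, Nx_lt, Hole]

theorem NN_cont (n : ℕ) : Continuous (NN n) := (continuous_apply (ti n)).abs.max (Nx_cont n)

theorem NN_le {n : ℕ} {z : Idx → ℝ} (h : ∀ i, |z i| ≤ 1) : NN n z ≤ 1 :=
  max_le (h _) (Nx_le fun _ _ => h _)

/-- a bump at `ρ` -/
noncomputable def bump (ρ η s : ℝ) : ℝ := max 0 (min 1 ((5 * η - |s - ρ|) / (4 * η)))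

/-- an odd map which translates a neighbourhood of `ρ` by `c` -/
noncomputable def shift (ρ η c s : ℝ) : ℝ := s + c * (bump ρ η s - bump ρ η (-s))

section
variable {ρ η c : ℝ}

theorem bump_nonneg (s : ℝ) : 0 ≤ bump ρ η s := le_max_left _ _

theorem bump_le (s : ℝ) : bump ρ η s ≤ 1 := max_le zero_le_one (min_le_left _ _)

theorem bump_zero (hη : 0 < η) {s : ℝ} (h : 5 * η ≤ |s - ρ|) : bump ρ η s = 0 :=
  max_eq_left ((min_le_right _ _).trans (div_nonpos_of_nonpos_of_nonneg (by linarith)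
    (by linarith)))

theorem bump_one (hη : 0 < η) {s : ℝ} (h : |s - ρ| ≤ η) : bump ρ η s = 1 := by
  unfold bump
  rw [min_eq_left (by rw [le_div_iff₀ (by linarith)]; linarith), max_eq_right zero_le_one]

theorem bump_lip (hη : 0 < η) (s s' : ℝ) : |bump ρ η s - bump ρ η s'| ≤ |s - s'| / (4 * η) := by
  unfold bump
  refine (abs_max_sub_max_le_max _ _ _ _).trans (max_le (by simp; positivity) ?_)
  refine (abs_min_sub_min_le_max _ _ _ _).trans (max_le (by simp; positivity) ?_)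
  rw [← sub_div, abs_div, abs_of_pos (by linarith : 0 < 4 * η)]
  apply div_le_div_of_nonneg_right _ (by linarith)
  rw [show 5 * η - |s - ρ| - (5 * η - |s' - ρ|) = |s' - ρ| - |s - ρ| by ring]
  refine (abs_abs_sub_abs_le_abs_sub _ _).trans ?_
  rw [show s' - ρ - (s - ρ) = -(s - s') by ring, abs_neg]

theorem shift_mono (hη : 0 < η) (hc : |c| ≤ η) : StrictMono (shift ρ η c) := by
  intro s s' hs
  have a := bump_lip (ρ := ρ) hη s' s
  have b := bump_lip (ρ := ρ) hη (-s') (-s)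
  rw [show -s' - -s = -(s' - s) by ring, abs_neg] at b
  rw [abs_of_pos (sub_pos.mpr hs)] at a b
  set u := (s' - s) / (4 * η) with hu
  have e : u * (4 * η) = s' - s := by rw [hu]; field_simp
  have u0 : 0 ≤ u := (abs_nonneg _).trans a
  have d : |c * ((bump ρ η s' - bump ρ η s) - (bump ρ η (-s') - bump ρ η (-s)))| ≤ η * (u + u) := by
    rw [abs_mul]
    exact mul_le_mul hc ((abs_sub _ _).trans (add_le_add a b)) (abs_nonneg _) hη.le
  have := (abs_le.mp d).1
  unfold shift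
  nlinarith

theorem shift_neg (s : ℝ) : shift ρ η c (-s) = -shift ρ η c s := by
  unfold shift
  rw [neg_neg]
  ring

theorem shift_zero : shift ρ η c 0 = 0 := by simp [shift]

theorem shift_abs (hη : 0 < η) (hc : |c| ≤ η) (s : ℝ) : |shift ρ η c s| = shift ρ η c |s| := by
  have m := (shift_mono (ρ := ρ) hη hc).monotone
  rcases le_total 0 s with h | h
  · have := m h
    rw [shift_zero] at this
    rw [abs_of_nonneg h, abs_of_nonneg this]
  · have := m h
    rw [shift_zero] at this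
    rw [abs_of_nonpos h, abs_of_nonpos this, shift_neg]

theorem shift_fix (hη : 0 < η) (hρ : 5 * η ≤ ρ) {s : ℝ} (h0 : 0 ≤ s) (h : 5 * η ≤ |s - ρ|) :
    shift ρ η c s = s := by
  unfold shift
  rw [bump_zero hη h, bump_zero hη (s := -s) (by rw [abs_of_nonpos] <;> linarith)]
  ring

theorem shift_near (hη : 0 < η) (hρ : 5 * η ≤ ρ) {s : ℝ} (h : |s - ρ| ≤ η) :
    shift ρ η c s = s + c := by
  unfold shift
  have := (abs_le.mp h).1
  rw [bump_one hη h, bump_zero hη (s := -s) (by rw [abs_of_nonpos] <;> linarith)]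
  ring

theorem shift_dist (s : ℝ) : |shift ρ η c s - s| ≤ |c| := by
  unfold shift
  rw [add_sub_cancel_left, abs_mul]
  apply mul_le_of_le_one_right (abs_nonneg _)
  rw [abs_le]
  constructor <;>
    linarith [bump_nonneg (ρ := ρ) (η := η) s, bump_le (ρ := ρ) (η := η) s,
      bump_nonneg (ρ := ρ) (η := η) (-s), bump_le (ρ := ρ) (η := η) (-s)]

theorem shift_surj : Function.Surjective (shift ρ η c) := by
  have h := shift_dist (ρ := ρ) (η := η) (c := c)
  refine Continuous.surjective (by unfold shift bump; fun_prop) ?_ ?_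
  · refine tendsto_atTop_mono (fun s => ?_) (tendsto_atTop_add_const_right _ (-|c|) tendsto_id)
    linarith [(abs_le.mp (h s)).1, show id s = s from rfl]
  · refine tendsto_atBot_mono (fun s => ?_) (tendsto_atBot_add_const_right _ |c| tendsto_id)
    linarith [(abs_le.mp (h s)).2, show id s = s from rfl]

theorem shift_lt_iff (hη : 0 < η) (hc : |c| ≤ η) (hρ : 5 * η ≤ ρ) {b : ℝ} (h0 : 0 ≤ b)
    (h : 5 * η ≤ |b - ρ|) (s : ℝ) : |shift ρ η c s| < b ↔ |s| < b := by
  rw [shift_abs hη hc]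
  conv_lhs => rw [← shift_fix (c := c) hη hρ h0 h]
  exact (shift_mono hη hc).lt_iff_lt

theorem shift_le_iff (hη : 0 < η) (hc : |c| ≤ η) (hρ : 5 * η ≤ ρ) {b : ℝ} (h0 : 0 ≤ b)
    (h : 5 * η ≤ |b - ρ|) (s : ℝ) : |shift ρ η c s| ≤ b ↔ |s| ≤ b := by
  rw [shift_abs hη hc]
  conv_lhs => rw [← shift_fix (c := c) hη hρ h0 h]
  exact (shift_mono hη hc).le_iff_le

end

/-- the coordinates which enter the `n`-th box -/
def InA (n : ℕ) (i : Idx) : Prop := i = ti n ∨ ∃ j ≤ n, i = xi j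

/-- `w` arises from `z` by shifting the coordinates of the `n`-th box and changing `y m` -/
def Sh (n m : ℕ) (η c : ℝ) (z w : Idx → ℝ) : Prop :=
  (∀ i, InA n i → w i = shift (r n) η c (z i)) ∧ ∀ i, ¬ InA n i → i ≠ yi m → w i = z i

/-- membership in `S` up to the `n`-th box and the coordinate `y m` -/
def S' (n m : ℕ) (z : Idx → ℝ) : Prop :=
  (∀ i, i ≠ yi m → |z i| ≤ 1) ∧ 0 ≤ z (xi 0) ∧ ∀ k, k ≠ n → ¬ Hole k z

theorem mem_S_iff (n m : ℕ) {z : Idx → ℝ} :
    z ∈ S ↔ S' n m z ∧ |z (yi m)| ≤ 1 ∧ r n ≤ NN n z := by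
  constructor
  · intro h
    exact ⟨⟨fun i _ => h.1 i, h.2.1, fun k _ => h.2.2 k⟩, h.1 _,
      not_lt.mp fun a => h.2.2 n (hole_iff.mpr a)⟩
  · rintro ⟨h, a, b⟩
    refine ⟨fun i => ?_, h.2.1, fun k => ?_⟩
    · by_cases e : i = yi m
      · rw [e]; exact a
      · exact h.1 i e
    · by_cases e : k = n
      · rw [e, hole_iff]; exact not_lt.mpr b
      · exact h.2.2 k e

section
variable {n m : ℕ} {η c : ℝ} {z w : Idx → ℝ}

theorem Sh.NN (h : Sh n m η c z w) (hη : 0 < η) (hc : |c| ≤ η) :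
    NN n w = shift (r n) η c (NN n z) := by
  have m := (shift_mono (ρ := r n) hη hc).monotone
  unfold CE.NN
  rw [m.map_max, h.1 _ (Or.inl rfl), shift_abs hη hc, Nx_map m]
  intro j hj
  rw [h.1 _ (Or.inr ⟨j, hj, rfl⟩), shift_abs hη hc]

theorem Sh.iff (h : Sh n m η c z w) (hη : 0 < η) (hc : |c| ≤ η) (hρ : 5 * η ≤ r n)
    (h1 : r n + 5 * η ≤ 1) (hg : ∀ k, k ≠ n → 5 * η ≤ |r k - r n|) : S' n m w ↔ S' n m z := by
  have a1 : ∀ i, i ≠ yi m → (|w i| ≤ 1 ↔ |z i| ≤ 1) := by
    intro i hi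
    by_cases e : InA n i
    · rw [h.1 i e]
      exact shift_le_iff hη hc hρ zero_le_one (by rw [abs_of_nonneg] <;> linarith) _
    · rw [h.2 i e hi]
  have a2 : 0 ≤ w (xi 0) ↔ 0 ≤ z (xi 0) := by
    rw [h.1 _ (Or.inr ⟨0, Nat.zero_le n, rfl⟩)]
    conv_lhs => rw [← shift_zero (ρ := r n) (η := η) (c := c)]
    exact (shift_mono hη hc).le_iff_le
  have a3 : ∀ k, k ≠ n → ∀ i, i ≠ yi m → (|w i| < r k ↔ |z i| < r k) := by
    intro k hk i hi
    by_cases e : InA n i
    · rw [h.1 i e]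
      exact shift_lt_iff hη hc hρ (by linarith [half_le_r k]) (hg k hk) _
    · rw [h.2 i e hi]
  have a4 : ∀ k, k ≠ n → (Hole k w ↔ Hole k z) := by
    intro k hk
    unfold Hole
    rw [a3 k hk _ (by simp)]
    exact and_congr_right fun _ => forall₂_congr fun j _ => a3 k hk _ (by simp)
  unfold S'
  rw [a2]
  exact and_congr (forall₂_congr a1) (and_congr_right fun _ =>
    forall₂_congr fun k hk => not_congr (a4 k hk))

end

theorem exists_gap (n : ℕ) : ∃ g > 0, g ≤ r n ∧ r n + g ≤ 1 ∧ ∀ k, k ≠ n → g ≤ |r k - r n| := by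
  have h1 : 0 < r (n + 1) - r n := sub_pos.mpr (r_strictMono (Nat.lt_succ_self n))
  obtain ⟨g, g0, hg⟩ : ∃ g > 0, ∀ k < n, g ≤ r n - r k := by
    rcases n with _ | n
    · exact ⟨1, one_pos, fun k hk => absurd hk (Nat.not_lt_zero k)⟩
    · exact ⟨_, sub_pos.mpr (r_strictMono (Nat.lt_succ_self n)), fun k hk =>
        sub_le_sub_left (r_strictMono.monotone (Nat.lt_succ_iff.mp hk)) _⟩
  refine ⟨min (min g (r (n + 1) - r n)) (1 / 2), by positivity,
    (min_le_right _ _).trans (half_le_r n), ?_, fun k hk => ?_⟩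
  · linarith [r_lt_one (n + 1), min_le_left (min g (r (n + 1) - r n)) (1 / 2),
      min_le_right g (r (n + 1) - r n)]
  · refine (min_le_left _ _).trans ?_
    rcases lt_or_gt_of_ne hk with h | h
    · rw [abs_sub_comm]
      exact (min_le_left _ _).trans ((hg k h).trans (le_abs_self _))
    · exact (min_le_right _ _).trans ((sub_le_sub_right (r_strictMono.monotone h) _).trans
        (le_abs_self _))

open Classical in
/-- the slide across the wall of the `n`-th box -/
noncomputable def wallMap (n m : ℕ) (η : ℝ) (τ : ℝ × ℝ → ℝ × ℝ) (z : Idx → ℝ) : Idx → ℝ := fun i =>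
  if InA n i then
    shift (r n) η (1 + r n - NN n z - (τ (1 + r n - NN n z, z (yi m))).1) (z i)
  else if i = yi m then (τ (1 + r n - NN n z, z (yi m))).2 else z i

theorem not_InA_y (n m : ℕ) : ¬ InA n (yi m) := by simp [InA]

theorem wall_sh (n m : ℕ) (η : ℝ) (τ : ℝ × ℝ → ℝ × ℝ) (z : Idx → ℝ) :
    Sh n m η (1 + r n - NN n z - (τ (1 + r n - NN n z, z (yi m))).1) z (wallMap n m η τ z) :=
  ⟨fun i hi => by simp only [wallMap, hi, if_true],
    fun i hi hy => by simp only [wallMap, hi, hy, if_false]⟩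

theorem wall_y (n m : ℕ) (η : ℝ) (τ : ℝ × ℝ → ℝ × ℝ) (z : Idx → ℝ) :
    wallMap n m η τ z (yi m) = (τ (1 + r n - NN n z, z (yi m))).2 := by
  simp only [wallMap, not_InA_y, if_false, if_true]

theorem wall_cont (n m : ℕ) (η : ℝ) {τ : ℝ × ℝ → ℝ × ℝ} (hτ : Continuous τ) :
    Continuous (wallMap n m η τ) := by
  apply continuous_pi
  intro i
  have := NN_cont n
  unfold wallMap
  split_ifs
  · unfold shift bump
    fun_prop
  · fun_prop
  · fun_prop

theorem twist_shift {η ρ : ℝ} {τ : ℝ × ℝ → ℝ × ℝ} (hτ : Twist η τ) (hη : 0 < η) (hρ : 5 * η ≤ ρ)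
    {p : ℝ × ℝ} (h1 : p.1 ≤ 1) (h2 : (τ p).1 ≤ 1) :
    |p.1 - (τ p).1| ≤ η ∧ shift ρ η (p.1 - (τ p).1) (1 + ρ - p.1) = 1 + ρ - (τ p).1 := by
  rcases le_or_gt p.1 (1 - η) with h | h
  · rw [hτ.fix p h, sub_self]
    exact ⟨by simpa using hη.le, by simp [shift]⟩
  · have := hτ.stay p h
    refine ⟨abs_le.mpr ⟨by linarith, by linarith⟩, ?_⟩
    rw [shift_near hη hρ (abs_le.mpr ⟨by linarith, by linarith⟩)]
    ring

theorem move_wall (n : ℕ) (q : X) {e : ℝ} (he : 0 < e) :
    ∃ k : X ≃ₜ X, (∀ z, dist (k z) z < e) ∧ r n < NN n (k q).1 := by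
  classical
  rcases eq_or_lt_of_le ((mem_S_iff n 0).mp q.2).2.2 with hq | hq
  swap
  · exact ⟨Homeomorph.refl X, fun z => by simpa using he, hq⟩
  obtain ⟨m, δ, hδ, hs⟩ := small he
  obtain ⟨g, g0, g1, g2, g3⟩ := exists_gap n
  set η := min (g / 5) (δ / 2) with hη'
  have hη : 0 < η := by positivity
  have b1 : 5 * η ≤ g := by linarith [min_le_left (g / 5) (δ / 2)]
  have b2 : η < δ := by linarith [min_le_right (g / 5) (δ / 2)]
  have hρ : 5 * η ≤ r n := b1.trans g1
  have h1 : r n + 5 * η ≤ 1 := by linarith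
  have hg : ∀ k, k ≠ n → 5 * η ≤ |r k - r n| := fun k hk => b1.trans (g3 k hk)
  have hr := half_le_r n
  obtain ⟨τ, hτ⟩ := exists_twist hη (by linarith)
  have key : ∀ z ∈ S, |1 + r n - NN n z - (τ (1 + r n - NN n z, z (yi m))).1| ≤ η ∧
      NN n (wallMap n m η τ z) = 1 + r n - (τ (1 + r n - NN n z, z (yi m))).1 ∧
      max |(τ (1 + r n - NN n z, z (yi m))).1| |(τ (1 + r n - NN n z, z (yi m))).2| ≤ 1 := by
    intro z hz
    have a1 := ((mem_S_iff n m).mp hz).2.2
    have a2 : NN n z ≤ 1 := NN_le hz.1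
    have a3 : max |(τ (1 + r n - NN n z, z (yi m))).1| |(τ (1 + r n - NN n z, z (yi m))).2| ≤ 1 := by
      rw [hτ.norm]
      exact max_le (abs_le.mpr ⟨by simp only; linarith, by simp only; linarith⟩) (hz.1 _)
    have a4 := twist_shift hτ hη hρ (p := (1 + r n - NN n z, z (yi m))) (by simp only; linarith)
      ((le_abs_self _).trans ((le_max_left _ _).trans a3))
    refine ⟨a4.1, ?_, a3⟩
    rw [(wall_sh n m η τ z).NN hη a4.1, ← a4.2]
    congr 1
    simp
  obtain ⟨k, hk⟩ := mkHomeo (wallMap n m η τ) (wall_cont n m η hτ.cont) (by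
    intro z hz
    obtain ⟨a1, a2, a3⟩ := key z hz
    refine (mem_S_iff n m).mpr ⟨((wall_sh n m η τ z).iff hη a1 hρ h1 hg).mpr
      ((mem_S_iff n m).mp hz).1, ?_, ?_⟩
    · rw [wall_y]
      exact (le_max_right _ _).trans a3
    · rw [a2]
      linarith [(le_abs_self _).trans ((le_max_left _ _).trans a3)]) (by
    intro z hz w hw h
    obtain ⟨a1, a2, -⟩ := key z hz
    obtain ⟨-, a3, -⟩ := key w hw
    have e : (1 + r n - NN n z, z (yi m)) = (1 + r n - NN n w, w (yi m)) := by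
      apply hτ.inj
      apply Prod.ext
      · rw [h] at a2
        linarith
      · rw [← wall_y n m η, ← wall_y n m η, h]
    have e1 : 1 + r n - NN n z = 1 + r n - NN n w := congrArg Prod.fst e
    have e2 : z (yi m) = w (yi m) := congrArg Prod.snd e
    funext i
    by_cases hi : InA n i
    · apply (shift_mono (ρ := r n) hη a1).injective
      rw [← (wall_sh n m η τ z).1 i hi, h, (wall_sh n m η τ w).1 i hi, e1, e2]
    · by_cases hy : i = yi m
      · rw [hy, e2]
      · rw [← (wall_sh n m η τ z).2 i hi hy, h, (wall_sh n m η τ w).2 i hi hy]) (by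
    intro w hw
    obtain ⟨p, hp⟩ := hτ.surj (1 + r n - NN n w, w (yi m))
    have a1 := ((mem_S_iff n m).mp hw).2.2
    have a2 : NN n w ≤ 1 := NN_le hw.1
    have a3 : max |p.1| |p.2| ≤ 1 := by
      rw [← hτ.norm, hp]
      exact max_le (abs_le.mpr ⟨by simp only; linarith, by simp only; linarith⟩) (hw.1 _)
    have a5 : p.1 ≤ 1 := (le_abs_self _).trans ((le_max_left _ _).trans a3)
    have a4 := twist_shift hτ hη hρ a5 (by rw [hp]; simp only; linarith)
    choose ψ hψ using shift_surj (ρ := r n) (η := η) (c := p.1 - (τ p).1)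
    let z : Idx → ℝ := fun i => if InA n i then ψ (w i) else if i = yi m then p.2 else w i
    have hsh : Sh n m η (p.1 - (τ p).1) z w :=
      ⟨fun i hi => by simp only [z, hi, if_true, hψ],
        fun i hi hy => by simp only [z, hi, hy, if_false]⟩
    have e1 : NN n z = 1 + r n - p.1 := by
      apply (shift_mono (ρ := r n) hη a4.1).injective
      rw [← hsh.NN hη a4.1, a4.2, hp]
      simp
    have e2 : z (yi m) = p.2 := by simp only [z, not_InA_y, if_false, if_true]
    have e3 : (1 + r n - NN n z, z (yi m)) = p := by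
      rw [e1, e2]
      simp
    refine ⟨z, (mem_S_iff n m).mpr ⟨(hsh.iff hη a4.1 hρ h1 hg).mp ((mem_S_iff n m).mp hw).1,
      ?_, ?_⟩, funext fun i => ?_⟩
    · rw [e2]
      exact (le_max_right _ _).trans a3
    · rw [e1]
      linarith
    · by_cases hi : InA n i
      · rw [(wall_sh n m η τ z).1 i hi, hsh.1 i hi, e3, e1]
        congr 1
        ring
      · by_cases hy : i = yi m
        · rw [hy, wall_y, e3, hp]
        · rw [(wall_sh n m η τ z).2 i hi hy, hsh.2 i hi hy])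
  refine ⟨k, fun z => hs _ _ fun i hi => ?_, ?_⟩
  · rw [hk]
    by_cases hA : InA n i
    · rw [(wall_sh n m η τ z.1).1 i hA]
      exact ((shift_dist _).trans (key _ z.2).1).trans_lt b2
    · rw [(wall_sh n m η τ z.1).2 i hA (hi m le_rfl).2]
      simpa using hδ
  · rw [hk, (key _ q.2).2.1, ← hq]
    have := hτ.off _ (q.2.1 (yi m))
    rw [show 1 + r n - r n = 1 by ring]
    linarith

end Pool.Agent.Lib.MP_d328cc_gt.CE
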