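import Mathlib
import Pool.Agent.Lib.MP_d328cc_gt.Faces
import Pool.Agent.Lib.MP_d328cc_gt.Wall
import Pool.Agent.Lib.MP_d328cc_gt.Converge

/-!
The space is homogeneous.
-/

open Set Metric Filter Topology

namespace Pool.Agent.Lib.MP_d328cc_gt.CE

theorem tri_homeo (P : Idx → Prop) (f : Idx → (Idx → ℝ) → ℝ → ℝ)
    (hc : ∀ i, Continuous fun z : Idx → ℝ => f i z (z i))
    (hb : ∀ i z, Function.Bijective (f i z)) (hP : ∀ i z, P i → f i z = id)
    (hd : ∀ i z w, (∀ j, P j → z j = w j) → f i z = f i w)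
    (hS : ∀ z, (fun i => f i z (z i)) ∈ S ↔ z ∈ S) :
    ∃ h : X ≃ₜ X, ∀ z i, (h z).1 i = f i z.1 (z.1 i) := by
  obtain ⟨h, hh⟩ := mkHomeo' (fun z i => f i z (z i)) (continuous_pi hc) hS (by
    intro z w h
    have e : ∀ j, P j → z j = w j := by
      intro j hj
      have := congrFun h j
      simpa only [hP j _ hj, id] using this
    funext i
    apply (hb i w).1
    have := congrFun h i
    simp only at this
    rwa [hd i z w e] at this) (by
    intro w
    choose z hz using fun i => (hb i w).2 (w i)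
    have e : ∀ j, P j → z j = w j := by
      intro j hj
      have := hz j
      rwa [hP j _ hj] at this
    exact ⟨z, funext fun i => by rw [← hz i, ← hd i z w e]⟩)
  exact ⟨h, fun z i => by rw [hh]⟩

theorem Push.bij {α β : ℝ} {φ : ℝ → ℝ} (h : Push α β φ) : Function.Bijective φ :=
  ⟨h.mono.injective, h.surj⟩

theorem Push.widen {α β α' β' : ℝ} {φ : ℝ → ℝ} (h : Push α β φ) (h1 : α' ≤ α) (h2 : β ≤ β') :
    Push α' β' φ :=
  ⟨h.cont, h.mono, fun s hs => h.left s (hs.trans h1), fun s hs => h.right s (h2.trans hs)⟩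

theorem Push.cube {φ : ℝ → ℝ} (h : Push (-1) 1 φ) (s : ℝ) : |φ s| ≤ 1 ↔ |s| ≤ 1 :=
  h.abs_le_iff (Or.inr le_rfl) (Or.inl le_rfl) s

theorem reflect (q : X) : ∃ h : X ≃ₜ X, ∀ i, (h q).1 i = |q.1 i| := by
  classical
  let σ : Idx → ℝ := fun i => if 0 ≤ q.1 i then 1 else -1
  have h1 : ∀ i s, |σ i * s| = |s| := by
    intro i s
    simp only [σ]
    split_ifs <;> simp
  have h2 : σ (xi 0) = 1 := if_pos q.2.2.1
  obtain ⟨h, hh⟩ := tri_homeo (fun _ => False) (fun i _ s => σ i * s) (fun i => by fun_prop)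
    (fun i _ => by
      apply Function.Involutive.bijective
      intro s
      simp only [σ]
      split_ifs <;> simp) (fun _ _ h => h.elim) (fun _ _ _ _ => rfl)
    (fun z => by simp only [S, Hole, mem_ofPred_eq, h1, h2, one_mul])
  refine ⟨h, fun i => ?_⟩
  rw [hh]
  simp only [σ]
  split_ifs with a
  · rw [one_mul, abs_of_nonneg a]
  · rw [neg_one_mul, abs_of_neg (not_le.mp a)]

/-- truncation to the unit interval -/
noncomputable def cl (s : ℝ) : ℝ := max 0 (min 1 s)

theorem cl_nonneg (s : ℝ) : 0 ≤ cl s := le_max_left _ _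

theorem cl_le (s : ℝ) : cl s ≤ 1 := max_le zero_le_one (min_le_left _ _)

theorem cl_zero {s : ℝ} (h : s ≤ 0) : cl s = 0 := max_eq_left ((min_le_right _ _).trans h)

theorem cl_one {s : ℝ} (h : 1 ≤ s) : cl s = 1 := by
  rw [cl, min_eq_left h, max_eq_right zero_le_one]

theorem cl_self {s : ℝ} (h0 : 0 ≤ s) (h1 : s ≤ 1) : cl s = s := by
  rw [cl, min_eq_right h1, max_eq_right h0]

theorem cl_cont : Continuous cl := by
  unfold cl
  fun_prop

/-- the target value of `t n` -/
noncomputable def tv (n : ℕ) : ℝ := (1 + r n) / 2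

theorem r_lt_tv (n : ℕ) : r n < tv n := by
  unfold tv
  linarith [r_lt_one n]

theorem tv_lt (n : ℕ) : tv n < 1 := by
  unfold tv
  linarith [r_lt_one n]

theorem exists_gT (n : ℕ) (p : Idx → ℝ) (h0 : 0 ≤ p (ti n)) (h1 : p (ti n) < 1)
    (h2 : r n < NN n p) : ∃ g : (Idx → ℝ) → ℝ → ℝ, (Continuous fun z => g z (z (ti n))) ∧
      (∀ z, Push (-1) 1 (g z)) ∧ (∀ z w, (∀ j, z (xi j) = w (xi j)) → g z = g w) ∧
      (∀ z, Nx n z < r n → ∀ s, |g z s| < r n ↔ |s| < r n) ∧ g p (p (ti n)) = tv n := by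
  have hr := half_le_r n
  rcases lt_max_iff.mp h2 with h | h
  · rw [abs_of_nonneg h0] at h
    obtain ⟨φ, hφ, e⟩ := exists_push h h1 (r_lt_tv n) (tv_lt n)
    exact ⟨fun _ => φ, hφ.cont.comp (continuous_apply _),
      fun _ => hφ.widen (by linarith) le_rfl, fun _ _ _ => rfl,
      fun _ _ => hφ.abs_lt_iff (Or.inl le_rfl) (Or.inl (by linarith)), e⟩
  · obtain ⟨φ, hφ, e⟩ := exists_push (α := -1) (p := p (ti n)) (q := tv n) (by linarith) h1
      (by linarith [r_lt_tv n]) (tv_lt n)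
    refine ⟨fun z => mix (cl ((Nx n z - r n) / (Nx n p - r n))) φ, ?_,
      fun z => hφ.mix (cl_nonneg _) (cl_le _), fun z w h => ?_, fun z hz s => ?_, ?_⟩
    · have := hφ.cont
      have := Nx_cont n
      have := cl_cont
      unfold mix
      fun_prop
    · have : Nx n z = Nx n w := Nx_map (f := id) monotone_id fun j _ => by rw [h j]; rfl
      simp only [this]
    · simp only
      rw [cl_zero (div_nonpos_of_nonpos_of_nonneg (by linarith) (by linarith)), mix_zero]
    · simp only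
      rw [div_self (by linarith), cl_one le_rfl, mix_one, e]

theorem moveT (p : X) (h0 : ∀ i, 0 ≤ p.1 i) (h1 : ∀ i, p.1 i < 1) (h2 : ∀ n, r n < NN n p.1) :
    ∃ h : X ≃ₜ X, (∀ k, (h p).1 (xi k) = p.1 (xi k)) ∧ (∀ n, (h p).1 (ti n) = tv n) ∧
      ∀ i, (h p).1 (yi i) = 0 := by
  choose g g1 g2 g3 g4 g5 using fun n => exists_gT n p.1 (h0 _) (h1 _) (h2 n)
  choose φ φ1 φ2 using fun i => exists_push (α := -1) (β := 1) (p := p.1 (yi i)) (q := 0)
    (by linarith [h0 (yi i)]) (h1 _) (by norm_num) one_pos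
  let f : Idx → (Idx → ℝ) → ℝ → ℝ := Sum.elim (fun _ _ => id) (Sum.elim g fun i _ => φ i)
  have hf : ∀ i z, Push (-1) 1 (f i z) := by
    rintro (k | k | k) z
    · exact push_id _ _
    · exact g2 k z
    · exact φ1 k
  obtain ⟨h, hh⟩ := tri_homeo (fun i => ∃ k, i = xi k) f (by
    rintro (k | k | k)
    · exact continuous_apply _
    · exact g1 k
    · exact (φ1 k).cont.comp (continuous_apply _)) (fun i z => (hf i z).bij) (by
    rintro i z ⟨k, rfl⟩
    rfl) (by
    rintro (k | k | k) z w h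
    · rfl
    · exact g3 k z w fun j => h _ ⟨j, rfl⟩
    · rfl) (by
    intro z
    refine and_congr (forall_congr' fun i => (hf i z).cube _) (and_congr Iff.rfl
      (forall_congr' fun n => not_congr (and_congr_left fun a => ?_)))
    exact g4 n z (Nx_lt.mpr a) _)
  exact ⟨h, fun k => hh p _, fun n => (hh p _).trans (g5 n), fun i => (hh p _).trans (φ2 i)⟩

theorem exists_gC (α b c : ℝ) (M : ℕ) (hα : -r M ≤ α) (hα0 : α ≤ 0) (h1 : α < b) (h2 : b < r M)
    (h3 : α < c) (h4 : c < r M) (i : Idx) : ∃ g : (Idx → ℝ) → ℝ → ℝ,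
      (Continuous fun z => g z (z i)) ∧ (∀ z, Push α 1 (g z)) ∧
      (∀ z w, (∀ j, z (ti j) = w (ti j)) → g z = g w) ∧
      (∀ z n, |z (ti n)| < r n → ∀ s, |g z s| < r n ↔ |s| < r n) ∧
      ∀ p, (∀ n, p (ti n) = tv n) → g p b = c := by
  obtain ⟨φ, hφ, e⟩ := exists_push h1 h2 h3 h4
  let θ : (Idx → ℝ) → ℝ := fun z => ∏ n ∈ Finset.range M, cl ((|z (ti n)| - r n) / (tv n - r n))
  have θc : Continuous θ := continuous_finsetProd _ fun n _ => cl_cont.comp (by fun_prop)
  have hp : ∀ z, Push α (r M) (mix (θ z) φ) := fun z =>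
    hφ.mix (Finset.prod_nonneg fun _ _ => cl_nonneg _)
      (Finset.prod_le_one (fun _ _ => cl_nonneg _) fun _ _ => cl_le _)
  refine ⟨fun z => mix (θ z) φ, ?_, fun z => (hp z).widen le_rfl (r_lt_one M).le,
    fun z w h => by simp only [θ, h], fun z n hn s => ?_, fun p h => ?_⟩
  · have := hφ.cont
    unfold mix
    fun_prop
  · rcases lt_or_ge n M with h | h
    · have : θ z = 0 := Finset.prod_eq_zero (Finset.mem_range.mpr h)
        (cl_zero (div_nonpos_of_nonpos_of_nonneg (by linarith) (by linarith [r_lt_tv n])))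
      simp only [this, mix_zero]
    · have := r_strictMono.monotone h
      exact (hp z).abs_lt_iff (Or.inr this) (Or.inl (by linarith)) s
  · have : θ p = 1 := Finset.prod_eq_one fun n _ => by
      rw [h n, abs_of_pos (by linarith [r_lt_tv n, half_le_r n]),
        div_self (by linarith [r_lt_tv n]), cl_one le_rfl]
    simp only [this, mix_one, e]

theorem moveC (p : X) (h0 : ∀ k, 0 ≤ p.1 (xi k)) (h1 : ∀ k, p.1 (xi k) < 1)
    (h2 : 0 < p.1 (xi 0)) (h3 : ∀ n, p.1 (ti n) = tv n) :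
    ∃ h : X ≃ₜ X, (∀ k, (h p).1 (xi k) = if k = 0 then 1 / 2 else 0) ∧
      (∀ n, (h p).1 (ti n) = p.1 (ti n)) ∧ ∀ i, (h p).1 (yi i) = p.1 (yi i) := by
  have : ∀ k, ∃ g : (Idx → ℝ) → ℝ → ℝ,
      (Continuous fun z => g z (z (xi k))) ∧ (∀ z, Push (if k = 0 then 0 else -1) 1 (g z)) ∧
      (∀ z w, (∀ j, z (ti j) = w (ti j)) → g z = g w) ∧
      (∀ z n, |z (ti n)| < r n → ∀ s, |g z s| < r n ↔ |s| < r n) ∧
      g p.1 (p.1 (xi k)) = if k = 0 then 1 / 2 else 0 := by
    intro k
    obtain ⟨M, hM⟩ := exists_r_gt (c := max (p.1 (xi k)) (1 / 2)) (max_lt (h1 k) (by norm_num))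
    obtain ⟨m1, m2⟩ := max_lt_iff.mp hM
    split_ifs with hk
    · obtain ⟨g, a1, a2, a3, a4, a5⟩ := exists_gC 0 (p.1 (xi k)) (1 / 2) M (by linarith) le_rfl
        (by rw [hk]; exact h2) m1 (by norm_num) m2 (xi k)
      exact ⟨g, a1, a2, a3, a4, a5 _ h3⟩
    · obtain ⟨g, a1, a2, a3, a4, a5⟩ := exists_gC (-r M) (p.1 (xi k)) 0 M le_rfl (by linarith)
        (by linarith [h0 k]) m1 (by linarith) (by linarith) (xi k)
      exact ⟨g, a1, fun z => (a2 z).widen (by linarith [r_lt_one M]) le_rfl, a3, a4, a5 _ h3⟩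
  choose g g1 g2 g3 g4 g5 using this
  let f : Idx → (Idx → ℝ) → ℝ → ℝ := Sum.elim g fun _ _ => id
  have hf : ∀ i z, Push (-1) 1 (f i z) := by
    rintro (k | k) z
    · exact (g2 k z).widen (by split_ifs <;> norm_num) le_rfl
    · exact push_id _ _
  obtain ⟨h, hh⟩ := tri_homeo (fun i => ∃ k, i = Sum.inr k) f (by
    rintro (k | k)
    · exact g1 k
    · exact continuous_apply _) (fun i z => (hf i z).bij) (by
    rintro i z ⟨k, rfl⟩
    rfl) (by
    rintro (k | k) z w h
    · exact g3 k z w fun j => h _ ⟨_, rfl⟩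
    · rfl) (by
    intro z
    refine and_congr (forall_congr' fun i => (hf i z).cube _) (and_congr ?_
      (forall_congr' fun n => not_congr (and_congr_right fun a => ?_)))
    · rw [← not_lt, ← not_lt]
      exact not_congr ((g2 0 z).lt_iff (Or.inl (by simp)) _)
    · exact forall₂_congr fun j _ => g4 j z n a _)
  exact ⟨h, fun k => (hh p _).trans (g5 k), fun n => hh p _, fun i => hh p _⟩

theorem to_base (q : X) : ∃ h : X ≃ₜ X, (∀ k, (h q).1 (xi k) = if k = 0 then 1 / 2 else 0) ∧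
    (∀ n, (h q).1 (ti n) = tv n) ∧ ∀ i, (h q).1 (yi i) = 0 := by
  let O : Idx ⊕ Unit ⊕ ℕ → Set X := Sum.elim (fun i => {z | |z.1 i| < 1})
    (Sum.elim (fun _ => {z | 0 < z.1 (xi 0)}) fun n => {z | r n < NN n z.1})
  obtain ⟨G, hG⟩ := converge O (by
    rintro (i | i | i)
    · exact isOpen_lt (continuous_coord i).abs continuous_const
    · exact isOpen_lt continuous_const (continuous_coord _)
    · exact isOpen_lt continuous_const ((NN_cont i).comp continuous_val)) (by
    rintro (i | i | i) q ε hε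
    · exact move_face i q hε
    · exact move_zero q hε
    · exact move_wall i q hε) q
  obtain ⟨R, hR⟩ := reflect (G q)
  obtain ⟨T, t1, t2, t3⟩ := moveT (R (G q)) (fun i => by rw [hR]; exact abs_nonneg _)
    (fun i => by rw [hR]; exact hG (Sum.inl i)) (fun n => by
      have : NN n (R (G q)).1 = NN n (G q).1 := by
        unfold NN
        rw [hR, abs_abs, Nx_map (f := id) monotone_id fun j _ => by rw [hR, abs_abs]; rfl]
        rfl
      rw [this]
      exact hG (Sum.inr (Sum.inr n)))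
  obtain ⟨C, c1, c2, c3⟩ := moveC (T (R (G q))) (fun k => by rw [t1, hR]; exact abs_nonneg _)
    (fun k => by rw [t1, hR]; exact hG (Sum.inl _))
    (by rw [t1, hR]; exact abs_pos.mpr (ne_of_gt (hG (Sum.inr (Sum.inl ()))))) t2
  exact ⟨((G.trans R).trans T).trans C, c1, fun n => (c2 n).trans (t2 n),
    fun i => (c3 i).trans (t3 i)⟩

theorem homogeneous (x y : X) : ∃ h : X ≃ₜ X, h x = y := by
  obtain ⟨g, a1, a2, a3⟩ := to_base x
  obtain ⟨h, b1, b2, b3⟩ := to_base y
  have : g x = h y := by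
    apply Subtype.ext
    funext i
    rcases i with k | k | k
    · exact (a1 k).trans (b1 k).symm
    · exact (a2 k).trans (b2 k).symm
    · exact (a3 k).trans (b3 k).symm
  exact ⟨g.trans h.symm, by simp [this]⟩

end Pool.Agent.Lib.MP_d328cc_gt.CE
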