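import Mathlib
import Pool.Agent.Lib.MP_d328cc_gt.Homog

/-!
The space has infinite covering dimension.
-/

open Set Metric Filter Topology

namespace Pool.Agent.Lib.MP_d328cc_gt.CE

theorem abs_cl_le (s : ℝ) : |cl s| ≤ 1 := by
  rw [abs_of_nonneg (cl_nonneg s)]
  exact cl_le s

/-- a cube inside the space -/
noncomputable def emb (N : ℕ) (u : Fin N → ℝ) : X :=
  ⟨Sum.elim (fun _ => 1) (Sum.elim (fun _ => 0) fun k => if h : k < N then cl (u ⟨k, h⟩) else 0),
    mem_S_of_one (by
      rintro (k | k | k)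
      · simp
      · simp
      · simp only [Sum.elim_inr]
        split_ifs
        · exact abs_cl_le _
        · simp) rfl⟩

theorem emb_cont (N : ℕ) : Continuous (emb N) := by
  apply continuous_mk
  apply continuous_pi
  rintro (k | k | k)
  · exact continuous_const
  · exact continuous_const
  · simp only [Sum.elim_inr]
    split_ifs
    · exact cl_cont.comp (continuous_apply _)
    · exact continuous_const

theorem emb_y (N : ℕ) (u : Fin N → ℝ) (k : Fin N) : (emb N u).1 (yi k) = cl (u k) := by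
  simp [emb]

theorem infinite_dim (n : ℕ) : ∃ m : ℕ, ∃ U : Fin m → Set X,
    (∀ i, IsOpen (U i)) ∧ (⋃ i, U i) = Set.univ ∧
    ∀ k : ℕ, ∀ V : Fin k → Set X,
      (∀ j, IsOpen (V j)) → (⋃ j, V j) = Set.univ → (∀ j, ∃ i, V j ⊆ U i) →
      ∃ x : X, ∃ s : Finset (Fin k), s.card = n + 2 ∧ ∀ j ∈ s, x ∈ V j := by
  classical
  let U : Fin (n + 2) → Set X := fun l =>
    (⋂ k : Fin (n + 1), {z | (k : ℕ) + 1 = l → 1 / 3 < z.1 (yi k)}) ∩
      ⋂ k : Fin (n + 1), {z | (l : ℕ) ≤ k → z.1 (yi k) < 2 / 3}
  refine ⟨n + 2, U, fun l => ?_, ?_, fun k V hV hc hr => ?_⟩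
  · refine (isOpen_iInter_of_finite fun k => ?_).inter (isOpen_iInter_of_finite fun k => ?_)
    · by_cases h : (k : ℕ) + 1 = l
      · simp only [h, true_imp_iff]
        exact isOpen_lt continuous_const (continuous_coord _)
      · simp [h]
    · by_cases h : (l : ℕ) ≤ k
      · simp only [h, true_imp_iff]
        exact isOpen_lt (continuous_coord _) continuous_const
      · simp [h]
  · apply eq_univ_of_forall
    intro z
    have ex : ∃ l : ℕ, ∀ k : Fin (n + 1), l ≤ k → z.1 (yi k) < 2 / 3 :=
      ⟨n + 1, fun k hk => absurd k.2 (not_lt.mpr hk)⟩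
    have hl : Nat.find ex ≤ n + 1 := Nat.find_min' ex fun k hk => absurd k.2 (not_lt.mpr hk)
    refine mem_iUnion.mpr ⟨⟨Nat.find ex, by omega⟩, mem_iInter.mpr fun k hk => ?_,
      mem_iInter.mpr fun k hk => Nat.find_spec ex k hk⟩
    have hk' : (k : ℕ) + 1 = Nat.find ex := hk
    by_contra hc
    apply Nat.find_min ex (m := k) (by omega)
    intro j hj
    rcases eq_or_lt_of_le hj with e | e
    · rw [← Fin.ext e]
      linarith [not_lt.mp hc]
    · exact Nat.find_spec ex j (by omega)
  · choose σ hσ using hr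
    obtain ⟨f, hf⟩ := PartitionOfUnity.exists_isSubordinate isClosed_univ V hV hc.ge
    have hin : ∀ j x, f j x ≠ 0 → x ∈ V j := fun j x h => hf j (subset_tsupport _ h)
    obtain ⟨u, hu⟩ := kkm_cube (n + 1)
      (fun l u => ∑ j ∈ Finset.univ.filter fun j => (σ j : ℕ) = l, f j (emb (n + 1) u))
      (fun l => continuous_finsetSum _ fun j _ => (f j).continuous.comp (emb_cont _))
      (fun l u => Finset.sum_nonneg fun j _ => f.nonneg j _) (by
        intro u
        obtain ⟨j, hj⟩ := f.exists_pos (mem_univ (emb (n + 1) u))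
        exact ⟨σ j, Nat.lt_succ_iff.mp (σ j).2,
          Finset.sum_pos' (fun j _ => f.nonneg j _) ⟨j, by simp, hj⟩⟩) (by
        intro u i hi
        refine Finset.sum_eq_zero fun j hj => ?_
        by_contra h
        have := mem_iInter.mp (hσ j (hin j _ h)).1 i (Finset.mem_filter.mp hj).2.symm
        rw [emb_y, cl_zero hi] at this
        linarith) (by
        intro u i l hl hi
        refine Finset.sum_eq_zero fun j hj => ?_
        by_contra h
        have := mem_iInter.mp (hσ j (hin j _ h)).2 i ((Finset.mem_filter.mp hj).2.le.trans hl)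
        rw [emb_y, cl_one hi] at this
        linarith)
    have : ∀ l : Fin (n + 2), ∃ j, σ j = l ∧ emb (n + 1) u ∈ V j := by
      intro l
      obtain ⟨j, hj, h⟩ := Finset.exists_ne_zero_of_sum_ne_zero
        (hu l (Nat.lt_succ_iff.mp l.2)).ne'
      exact ⟨j, Fin.ext (Finset.mem_filter.mp hj).2, hin j _ h⟩
    choose J h1 h2 using this
    refine ⟨emb (n + 1) u, Finset.univ.image J, ?_, fun j hj => ?_⟩
    · rw [Finset.card_image_of_injective _ (Function.LeftInverse.injective h1)]
      simp
    · obtain ⟨l, -, rfl⟩ := Finset.mem_image.mp hj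
      exact h2 l

end Pool.Agent.Lib.MP_d328cc_gt.CE
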