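import Mathlib

/-!
Homotopies of germs of maps, written as paths in spaces of continuous maps.
-/

open Set Metric Filter Topology

namespace Pool.Agent.Lib.MP_d328cc_gt

variable {X : Type*} [TopologicalSpace X]

/-- maps from `V` with values in `O` -/
def Into (V O : Set X) : Set C(V, X) := {k | ∀ y, k y ∈ O}

/-- the inclusion of `V` -/
def inc (V : Set X) : C(V, X) := ⟨Subtype.val, continuous_subtype_val⟩

/-- some neighbourhood of `x` is deformed inside `O` so that `x` ends at `y` -/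
def TrIn (O : Set X) (x y : X) : Prop :=
  ∃ (V : Set X) (hV : V ∈ 𝓝 x) (f : C(V, X)),
    JoinedIn (Into V O) (inc V) f ∧ f ⟨x, mem_of_mem_nhds hV⟩ = y

/-- `g` is null-homotopic inside `O` on some neighbourhood of `b` -/
def Dead (O : Set X) (g : C(X, X)) (b : X) : Prop :=
  ∃ V ∈ 𝓝 b, ∃ c, JoinedIn (Into V O) (g.comp (inc V)) (ContinuousMap.const V c)

theorem join_pre {V W O : Set X} (k : C(V, W)) {a b : C(W, X)} (h : JoinedIn (Into W O) a b) :
    JoinedIn (Into V O) (a.comp k) (b.comp k) := by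
  refine (h.map (ContinuousMap.continuous_precomp k)).mono ?_
  rintro _ ⟨w, hw, rfl⟩ y
  exact hw (k y)

theorem join_post {V O O' : Set X} (g : C(X, X)) (hg : MapsTo g O O') {a b : C(V, X)}
    (h : JoinedIn (Into V O) a b) : JoinedIn (Into V O') (g.comp a) (g.comp b) := by
  refine (h.map (ContinuousMap.continuous_postcomp g)).mono ?_
  rintro _ ⟨w, hw, rfl⟩ y
  exact hg (hw y)

theorem TrIn.left {O : Set X} {x y : X} (h : TrIn O x y) : x ∈ O := by
  obtain ⟨V, hV, f, h, -⟩ := h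
  exact h.source_mem ⟨x, mem_of_mem_nhds hV⟩

theorem TrIn.right {O : Set X} {x y : X} (h : TrIn O x y) : y ∈ O := by
  obtain ⟨V, hV, f, h, rfl⟩ := h
  exact h.target_mem _

theorem TrIn.mono {O O' : Set X} {x y : X} (h : TrIn O x y) (hO : O ⊆ O') : TrIn O' x y := by
  obtain ⟨V, hV, f, h, e⟩ := h
  exact ⟨V, hV, f, h.mono fun k hk y => hO (hk y), e⟩

theorem TrIn.refl {O : Set X} {x : X} (h : O ∈ 𝓝 x) : TrIn O x x :=
  ⟨O, h, inc O, JoinedIn.refl fun y => y.2, rfl⟩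

theorem TrIn.pull {O W : Set X} {x y : X} (h : TrIn O x y) (hW : W ∈ 𝓝 y) :
    ∃ (V : Set X) (hV : V ∈ 𝓝 x) (f : C(V, W)), JoinedIn (Into V O) (inc V) ((inc W).comp f) ∧
      f ⟨x, mem_of_mem_nhds hV⟩ = ⟨y, mem_of_mem_nhds hW⟩ := by
  obtain ⟨V, hV, f, h, rfl⟩ := h
  have h1 := f.continuous.continuousAt.preimage_mem_nhds hW
  rw [nhds_subtype, mem_comap] at h1
  obtain ⟨t, ht, hsub⟩ := h1
  let k : C((V ∩ t : Set X), V) := ContinuousMap.inclusion inter_subset_left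
  refine ⟨V ∩ t, inter_mem hV ht, ⟨fun v => ⟨f (k v), hsub v.2.2⟩,
    (f.continuous.comp k.continuous).subtype_mk _⟩, join_pre k h, rfl⟩

theorem TrIn.trans {O : Set X} {x y z : X} (h1 : TrIn O x y) (h2 : TrIn O y z) : TrIn O x z := by
  obtain ⟨W, hW, f2, j2, rfl⟩ := h2
  obtain ⟨V, hV, f, j1, e⟩ := h1.pull hW
  refine ⟨V, hV, f2.comp f, j1.trans (join_pre f j2), ?_⟩
  rw [ContinuousMap.comp_apply, e]

/-- the inverse of a homeomorphism as a map between neighbourhoods -/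
def back (φ : X ≃ₜ X) (V : Set X) : C((φ.symm ⁻¹' V : Set X), V) :=
  ⟨fun v => ⟨φ.symm v, v.2⟩, (φ.symm.continuous.comp continuous_subtype_val).subtype_mk _⟩

theorem back_mem (φ : X ≃ₜ X) {V : Set X} {x : X} (hV : V ∈ 𝓝 x) : φ.symm ⁻¹' V ∈ 𝓝 (φ x) :=
  φ.symm.continuous.continuousAt.preimage_mem_nhds (by simpa using hV)

theorem back_inc (φ : X ≃ₜ X) (V : Set X) :
    (φ : C(X, X)).comp ((inc V).comp (back φ V)) = inc (φ.symm ⁻¹' V) := by
  ext v
  exact φ.apply_symm_apply v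

theorem TrIn.map {O O' : Set X} {x y : X} (h : TrIn O x y) (φ : X ≃ₜ X) (hφ : MapsTo φ O O') :
    TrIn O' (φ x) (φ y) := by
  obtain ⟨V, hV, f, h, rfl⟩ := h
  have := join_post (φ : C(X, X)) hφ (join_pre (back φ V) h)
  rw [back_inc] at this
  refine ⟨_, back_mem φ hV, _, this, ?_⟩
  show φ (f _) = φ (f _)
  congr 2
  exact Subtype.ext (φ.symm_apply_apply x)

theorem Dead.mono {O O' : Set X} {g : C(X, X)} {b : X} (h : Dead O g b) (hO : O ⊆ O') :
    Dead O' g b := by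
  obtain ⟨V, hV, c, h⟩ := h
  exact ⟨V, hV, c, h.mono fun k hk y => hO (hk y)⟩

theorem Dead.mem {O : Set X} {g : C(X, X)} {b : X} (h : Dead O g b) : g b ∈ O := by
  obtain ⟨V, hV, c, h⟩ := h
  exact h.source_mem ⟨b, mem_of_mem_nhds hV⟩

theorem Dead.pull {O B : Set X} {g : C(X, X)} {x y : X} (h : Dead O g y) (ht : TrIn B x y)
    (hg : MapsTo g B O) : Dead O g x := by
  obtain ⟨W, hW, c, j2⟩ := h
  obtain ⟨V, hV, f, j1, -⟩ := ht.pull hW
  exact ⟨V, hV, c, (join_post g hg j1).trans (join_pre f j2)⟩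

theorem Dead.map {O O' : Set X} {b : X} (h : Dead O (ContinuousMap.id X) b) (φ : X ≃ₜ X)
    (hφ : MapsTo φ O O') : Dead O' (ContinuousMap.id X) (φ b) := by
  obtain ⟨V, hV, c, h⟩ := h
  have := join_post (φ : C(X, X)) hφ (join_pre (back φ V) h)
  rw [ContinuousMap.id_comp, back_inc] at this
  exact ⟨_, back_mem φ hV, φ c, this⟩

theorem Dead.change {O B : Set X} {g g' : C(X, X)} {b : X} (h : Dead O g b) (hB : B ∈ 𝓝 b)
    (hj : JoinedIn {k : C(X, X) | MapsTo k B O} g' g) : Dead O g' b := by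
  obtain ⟨V, hV, c, h⟩ := h
  let k : C((V ∩ B : Set X), V) := ContinuousMap.inclusion inter_subset_left
  refine ⟨V ∩ B, inter_mem hV hB, c, JoinedIn.trans ?_ (join_pre k h)⟩
  refine (hj.map (ContinuousMap.continuous_precomp (inc (V ∩ B)))).mono ?_
  rintro _ ⟨w, hw, rfl⟩ y
  exact hw y.2.2

theorem Dead.eventually {O : Set X} {g : C(X, X)} {b : X} (h : Dead O g b) :
    ∀ᶠ x in 𝓝 b, Dead O g x := by
  obtain ⟨V, hV, h⟩ := h
  filter_upwards [eventually_mem_nhds_iff.mpr hV] with z hz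
  exact ⟨V, hz, h⟩

theorem tube {F : ℝ → C(X, X)} (hF : Continuous fun q : ℝ × X => F q.1 q.2) (h0 : ∀ x, F 0 x = x)
    {O : Set X} (hO : IsOpen O) {x : X} {t : ℝ} (ht : 0 ≤ t) (h : ∀ s ∈ Icc 0 t, F s x ∈ O) :
    ∃ V ∈ 𝓝 x, JoinedIn (Into V O) (inc V) ((F t).comp (inc V)) := by
  have hV : ∀ᶠ y in 𝓝 x, ∀ s ∈ Icc 0 t, F s y ∈ O :=
    isCompact_Icc.eventually_forall_of_forall_eventually fun s hs =>
      (hF.comp continuous_swap).continuousAt.preimage_mem_nhds (hO.mem_nhds (h s hs))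
  refine ⟨_, hV, ?_⟩
  have hc : Continuous F := ContinuousMap.continuous_of_continuous_uncurry F hF
  have j : JoinedIn (Icc 0 t) 0 t :=
    JoinedIn.of_segment_subset (by rw [segment_eq_Icc ht])
  have j2 := j.map ((ContinuousMap.continuous_precomp
    (inc {y | ∀ s ∈ Icc 0 t, F s y ∈ O})).comp hc)
  have e : (F 0).comp (inc {y | ∀ s ∈ Icc 0 t, F s y ∈ O}) = inc _ := by
    ext v
    exact h0 v
  simp only [Function.comp_apply] at j2
  rw [e] at j2
  refine j2.mono ?_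
  rintro _ ⟨s, hs, rfl⟩ y
  exact y.2 s hs

theorem Dead.nullhomotopic [LocallyCompactSpace X] [T2Space X] {O : Set X} {b : X}
    (h : Dead O (ContinuousMap.id X) b) :
    ∃ (V : Set X) (hVU : V ⊆ O), V ∈ 𝓝 b ∧ (ContinuousMap.inclusion hVU).Nullhomotopic := by
  obtain ⟨V, hV, c, h⟩ := h
  obtain ⟨K, hK, hKV, hc⟩ := local_compact_nhds hV
  have : CompactSpace K := isCompact_iff_compactSpace.mp hc
  have j := join_pre (ContinuousMap.inclusion hKV) h
  have hKO : K ⊆ O := fun y hy => j.source_mem ⟨y, hy⟩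
  have hc : c ∈ O := j.target_mem ⟨b, mem_of_mem_nhds hK⟩
  obtain ⟨γ, hγ⟩ := j
  refine ⟨K, hKO, hK, ⟨c, hc⟩, ⟨⟨⟨fun q => ⟨γ q.1 q.2, hγ q.1 q.2⟩, ?_⟩, fun y => ?_, fun y => ?_⟩⟩⟩
  · exact (continuous_eval.comp ((γ.continuous.comp continuous_fst).prodMk
      continuous_snd)).subtype_mk _
  · apply Subtype.ext
    show γ 0 y = y
    rw [γ.source]
    rfl
  · apply Subtype.ext
    show γ 1 y = c
    rw [γ.target]
    rfl

end Pool.Agent.Lib.MP_d328cc_gt
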