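import Mathlib
import Pool.Agent.Lib.MP_d328cc_gt.Cube
import Pool.Agent.Lib.MP_d328cc_gt.Effros

/-!
Homogeneous compact metric spaces whose identity is homotopic to a map sending close points to
points joined by short paths are locally path connected.

For a homotopy `H` starting at the identity and a word `T 0, ..., T (m-1)` of times, cut the
composition `H (T (m-1)) ∘ ... ∘ H (T 0)` applied to `p` after `j` letters.  The label of a word
is the last cut at which the remaining letters merge all close points; the labelling lemma on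
the cube produces a point at which no letter is needed.
-/

open Set Metric Filter Topology unitInterval

namespace Pool.Agent.Lib.MP_d328cc_gt

/-- the point obtained from `p` by the first `j` letters -/
def pre {X : Type*} (H : I → X → X) (p : X) (T : ℕ → I) : ℕ → X
  | 0 => p
  | j + 1 => H (T j) (pre H p T j)

/-- the composition of the `n` letters starting with letter `a` -/
def suf {X : Type*} (H : I → X → X) (T : ℕ → I) : ℕ → ℕ → X → X
  | 0, _, x => x
  | n + 1, a, x => suf H T n (a + 1) (H (T a) x)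

theorem suf_step {X : Type*} (H : I → X → X) (T : ℕ → I) {m j : ℕ} (h : j < m) (x : X) :
    suf H T (m - j) j x = suf H T (m - (j + 1)) (j + 1) (H (T j) x) := by
  rw [show m - j = m - (j + 1) + 1 by omega]
  rfl

theorem suf_pre {X : Type*} (H : I → X → X) (p : X) (T : ℕ → I) (n j : ℕ) :
    suf H T n j (pre H p T j) = pre H p T (j + n) := by
  induction n generalizing j with
  | zero => rfl
  | succ n ih =>
    have := ih (j + 1)
    rw [show j + (n + 1) = j + 1 + n by omega, ← this]
    rfl

variable {X : Type*} [MetricSpace X]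

theorem continuous_pre {H : I → X → X} (hH : Continuous fun q : I × X => H q.1 q.2) (p : X)
    (j : ℕ) : Continuous fun T : ℕ → I => pre H p T j := by
  induction j with
  | zero => exact continuous_const
  | succ j ih => exact hH.comp ((continuous_apply j).prodMk ih)

theorem continuous_suf {H : I → X → X} (hH : Continuous fun q : I × X => H q.1 q.2)
    (n a : ℕ) : Continuous fun q : (ℕ → I) × X => suf H q.1 n a q.2 := by
  induction n generalizing a with
  | zero => exact continuous_snd
  | succ n ih =>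
    exact (ih (a + 1)).comp (continuous_fst.prodMk
      (hH.comp (((continuous_apply a).comp continuous_fst).prodMk continuous_snd)))

theorem suf_unif [CompactSpace X] {H : I → X → X} (hH : Continuous fun q : I × X => H q.1 q.2)
    (m : ℕ) {r : ℝ} (hr : 0 < r) : ∃ η > 0, ∀ j ≤ m, ∀ T y y', dist y y' < η →
      dist (suf H T (m - j) j y) (suf H T (m - j) j y') < r := by
  have h1 : ∀ j : ℕ, ∃ η > 0, ∀ T y y', dist y y' < η →
      dist (suf H T (m - j) j y) (suf H T (m - j) j y') < r := by
    intro j
    have hu := CompactSpace.uniformContinuous_of_continuous (continuous_suf hH (m - j) j)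
    have h2 := hu (dist_mem_uniformity hr)
    rw [uniformity_prod_eq_prod, mem_map, mem_map, mem_prod_iff] at h2
    obtain ⟨A, hA, B, hB, hAB⟩ := h2
    obtain ⟨η, hη, hB'⟩ := mem_uniformity_dist.mp hB
    exact ⟨η, hη, fun T y y' hy =>
      hAB (a := ((T, T), (y, y'))) ⟨refl_mem_uniformity hA, hB' hy⟩⟩
  choose η hη h using h1
  obtain ⟨j0, hj0, hmin⟩ := Finset.exists_min_image (Finset.range (m + 1)) η ⟨0, by simp⟩
  exact ⟨η j0, hη j0, fun j hj T y y' hy =>
    h j T y y' (lt_of_lt_of_le hy (hmin j (Finset.mem_range.mpr (by omega))))⟩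

theorem key [CompactSpace X] {H : I → X → X} (hH : Continuous fun q : I × X => H q.1 q.2)
    (h0 : ∀ x, H 0 x = x)
    (h1 : ∀ ε > 0, ∃ η > 0, ∀ y y', dist y y' < η → JoinedIn (ball (H 1 y) ε) (H 1 y') (H 1 y))
    (p : X) {r : ℝ} (hr : 0 < r) :
    ∃ η > 0, ∃ b c : X, ∀ e : C(X, X), (∀ w, dist (e w) w < η) →
      JoinedIn (ball c (2 * r)) (e b) b := by
  classical
  obtain ⟨C, hC, hcov⟩ := Metric.totallyBounded_iff.mp
    (isCompact_univ (X := X)).totallyBounded r hr
  have : Fintype C := hC.fintype
  set m := Fintype.card C with hm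
  obtain ⟨η1, hη1, hu⟩ := suf_unif hH m hr
  obtain ⟨η2, hη2, hj⟩ := h1 η1 hη1
  refine ⟨min η1 η2, lt_min hη1 hη2, ?_⟩
  by_contra hcon
  push Not at hcon
  let T : (Fin m → ℝ) → ℕ → I := fun u k =>
    if h : k < m then projIcc 0 1 zero_le_one (u ⟨k, h⟩) else 0
  have hT : Continuous T := by
    apply continuous_pi
    intro k
    by_cases h : k < m
    · simp only [T, h, dif_pos]
      exact continuous_projIcc.comp (continuous_apply _)
    · simp only [T, h, dif_neg, not_false_eq_true]
      exact continuous_const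
  have hT0 : ∀ u (k : Fin m), u k ≤ 0 → T u k = 0 := by
    intro u k hk
    simp only [T, k.2, dif_pos]
    exact projIcc_of_le_left _ hk
  have hT1 : ∀ u (k : Fin m), 1 ≤ u k → T u k = 1 := by
    intro u k hk
    simp only [T, k.2, dif_pos]
    exact projIcc_of_right_le _ hk
  let b : ℕ → (Fin m → ℝ) → X := fun j u => pre H p (T u) j
  let g : ℕ → (Fin m → ℝ) → X → X := fun j u => suf H (T u) (m - j) j
  have hb : ∀ j, Continuous (b j) := fun j => (continuous_pre hH p j).comp hT
  have hgb : ∀ j ≤ m, ∀ u, g j u (b j u) = b m u := by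
    intro j hj u
    simp only [g, b, suf_pre]
    rw [show j + (m - j) = m by omega]
  have hge : ∀ j (e : C(X, X)), Continuous fun u => g j u (e (b j u)) := fun j e =>
    (continuous_suf hH (m - j) j).comp (hT.prodMk (e.continuous.comp (hb j)))
  let lam : C → (Fin m → ℝ) → ℝ := fun c u => max 0 (r - dist (b m u) c)
  have hlam : ∀ c u, 0 < lam c u ↔ b m u ∈ ball (c : X) r := by
    intro c u
    simp only [lam, lt_max_iff, lt_irrefl, false_or, mem_ball, sub_pos]
  let Q : C → ℕ → (Fin m → ℝ) → Prop := fun c j u =>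
    ∀ e : C(X, X), (∀ w, dist (e w) w < min η1 η2) →
      JoinedIn (ball (c : X) (2 * r)) (g j u (e (b j u))) (b m u)
  have hsub : ∀ (c : X) (z : X), z ∈ ball c r → ball z r ⊆ ball c (2 * r) := by
    intro c z hz
    apply ball_subset_ball'
    have := mem_ball.mp hz
    linarith
  have hQ1 : ∀ (c : C) j, j ≤ m → ∀ u v, JoinedIn (b m ⁻¹' ball (c : X) r) u v → Q c j u → Q c j v := by
    intro c j hj u v huv hq e he
    have a1 : JoinedIn (ball (c : X) (2 * r)) (g j u (e (b j u))) (g j v (e (b j v))) := by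
      refine (huv.map (hge j e)).mono ?_
      rintro _ ⟨w, hw, rfl⟩
      apply hsub _ _ hw
      rw [← hgb j hj w]
      exact hu j hj _ _ _ (lt_of_lt_of_le (he _) (min_le_left _ _))
    have a2 : JoinedIn (ball (c : X) (2 * r)) (b m u) (b m v) := by
      refine (huv.map (hb m)).mono ?_
      rintro _ ⟨w, hw, rfl⟩
      exact hsub _ _ hw (mem_ball_self hr)
    exact (a1.symm.trans (hq e he)).trans a2
  have hQm : ∀ c u, ¬ Q c m u := by
    intro c u hq
    obtain ⟨e, he, hn⟩ := hcon (b m u) c
    apply hn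
    have := hq e he
    simp only [g, Nat.sub_self] at this
    exact this
  have hQ0 : ∀ c u (k : Fin m), u k ≤ 0 → Q c k u → Q c (k + 1) u := by
    intro c u k hk hq e he
    have := hq e he
    simp only [g] at this
    rw [suf_step H _ k.2, hT0 u k hk, h0] at this
    have hb' : b (k + 1) u = b k u := by
      show H (T u k) (b k u) = b k u
      rw [hT0 u k hk, h0]
    simp only [g]
    rw [hb']
    exact this
  have hQt : ∀ c u (k : Fin m), 0 < lam c u → 1 ≤ u k → Q c k u := by
    intro c u k hc hk e he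
    have hz := (hlam c u).mp hc
    have a := hj (b k u) (e (b k u)) (by
      rw [dist_comm]; exact lt_of_lt_of_le (he _) (min_le_right _ _))
    have hcg : Continuous (g (k + 1) u) :=
      (continuous_suf hH (m - (k + 1)) (k + 1)).comp (continuous_const.prodMk continuous_id)
    have e1 : g k u (e (b k u)) = g (k + 1) u (H 1 (e (b k u))) := by
      simp only [g]
      rw [suf_step H _ k.2, hT1 u k hk]
    have e2 : b m u = g (k + 1) u (H 1 (b k u)) := by
      rw [← hgb k k.2.le u]
      simp only [g]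
      rw [suf_step H _ k.2, hT1 u k hk]
    rw [e1]
    conv_rhs => rw [e2]
    refine (a.map hcg).mono ?_
    rintro _ ⟨w, hw, rfl⟩
    apply hsub _ _ hz
    rw [e2]
    exact hu (k + 1) k.2 _ _ _ hw
  let P : C → (Fin m → ℝ) → ℕ → Prop := fun c u l => l = 0 ∨ Q c (l - 1) u
  let lab : C → (Fin m → ℝ) → ℕ := fun c u => Nat.findGreatest (P c u) m
  have hfin := labels m lam
    (fun c => continuous_const.max (continuous_const.sub ((hb m).dist continuous_const)))
    (fun c u => le_max_left _ _)
    (by
      intro u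
      obtain ⟨c, hc, hu⟩ := mem_iUnion₂.mp (hcov (mem_univ (b m u)))
      exact ⟨⟨c, hc⟩, (hlam ⟨c, hc⟩ u).mpr hu⟩)
    lab
    (by
      intro c u hc
      have hV : b m ⁻¹' ball (c : X) r ∈ 𝓝 u :=
        (isOpen_ball.preimage (hb m)).mem_nhds ((hlam c u).mp hc)
      filter_upwards [pathComponentIn_mem_nhds hV] with v hv
      have hv' : JoinedIn (b m ⁻¹' ball (c : X) r) u v := hv
      have hiff : ∀ l ≤ m, P c v l ↔ P c u l := by
        intro l hl
        exact or_congr_right ⟨hQ1 c _ (by omega) v u hv'.symm, hQ1 c _ (by omega) u v hv'⟩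
      apply le_antisymm
      · exact Nat.le_findGreatest (Nat.findGreatest_le m)
          ((hiff _ (Nat.findGreatest_le m)).mp
            (Nat.findGreatest_spec (P := P c v) (Nat.zero_le m) (Or.inl rfl)))
      · exact Nat.le_findGreatest (Nat.findGreatest_le m)
          ((hiff _ (Nat.findGreatest_le m)).mpr
            (Nat.findGreatest_spec (P := P c u) (Nat.zero_le m) (Or.inl rfl))))
    (fun c u _ => Nat.findGreatest_le m)
    (by
      intro c u k _ hk hl
      have a1 : P c u (lab c u) := Nat.findGreatest_spec (P := P c u) (Nat.zero_le m) (Or.inl rfl)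
      rw [hl] at a1
      have a2 : Q c (k + 1) u := hQ0 c u k hk (by simpa [P] using a1)
      by_cases hkm : (k : ℕ) + 1 = m
      · rw [hkm] at a2
        exact hQm c u a2
      · have : (k : ℕ) + 2 ≤ lab c u :=
          Nat.le_findGreatest (P := P c u) (by have := k.2; omega) (Or.inr a2)
        omega)
    (by
      intro c u k hc hk
      exact Nat.le_findGreatest (P := P c u) k.2 (Or.inr (hQt c u k hc hk)))
  omega

/-- A Baire category argument: an open local property available at every scale somewhere holds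
at every scale everywhere. -/
theorem spread [CompactSpace X] (hom : ∀ x y : X, ∃ h : X ≃ₜ X, h x = y) (A : ℝ → Set X)
    (ho : ∀ ε, IsOpen (A ε)) (hne : ∀ ε > 0, (A ε).Nonempty)
    (htr : ∀ (h : X ≃ₜ X), ∀ ε > 0, ∃ δ > 0, ∀ ε' ≤ δ, MapsTo h (A ε') (A ε)) :
    ∀ ε > 0, ∀ x, x ∈ A ε := by
  have hp : ∀ n : ℕ, (0 : ℝ) < 1 / ((n : ℝ) + 1) := fun n => by positivity
  choose s hs using fun n : ℕ => hne _ (hp n)
  obtain ⟨x0, φ, hφ, hlim⟩ := CompactSpace.tendsto_subseq s
  have hsmall : ∀ δ > 0, ∀ᶠ n : ℕ in atTop, 1 / ((n : ℝ) + 1) ≤ δ := fun δ hδ =>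
    tendsto_one_div_add_atTop_nhds_zero_nat.eventually (ge_mem_nhds hδ)
  have hd : ∀ ε > 0, Dense (A ε) := by
    intro ε hε z
    obtain ⟨h, rfl⟩ := hom x0 z
    obtain ⟨δ, hδ, hm⟩ := htr h ε hε
    refine mem_closure_of_tendsto ((h.continuous.tendsto x0).comp hlim) ?_
    filter_upwards [hφ.tendsto_atTop.eventually (hsmall δ hδ)] with n hn
    exact hm _ hn (hs (φ n))
  have : Nonempty X := ⟨x0⟩
  obtain ⟨y, hy⟩ := (dense_iInter_of_isOpen_nat (f := fun n : ℕ => A (1 / ((n : ℝ) + 1)))
    (fun n => ho _) (fun n => hd _ (hp n))).nonempty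
  intro ε hε z
  obtain ⟨h, rfl⟩ := hom y z
  obtain ⟨δ, hδ, hm⟩ := htr h ε hε
  obtain ⟨n, hn⟩ := (hsmall δ hδ).exists
  exact hm _ hn (mem_iInter.mp hy n)

theorem locallyPathConnected [CompactSpace X] (hom : ∀ x y : X, ∃ h : X ≃ₜ X, h x = y)
    {H : I → X → X} (hH : Continuous fun q : I × X => H q.1 q.2) (h0 : ∀ x, H 0 x = x)
    (h1 : ∀ ε > 0, ∃ η > 0, ∀ y y', dist y y' < η →
      JoinedIn (ball (H 1 y) ε) (H 1 y') (H 1 y)) : LocallyPathConnectedSpace X := by
  rw [locallyPathConnectedSpace_iff_pathComponentIn_mem_nhds]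
  intro x U hU hx
  let A : ℝ → Set X := fun ε =>
    {x | ∃ S ∈ 𝓝 x, IsPathConnected S ∧ ∀ y ∈ S, ∀ z ∈ S, dist y z < ε}
  have hA := spread hom A
    (by
      intro ε
      rw [isOpen_iff_mem_nhds]
      rintro y ⟨S, hS, h⟩
      filter_upwards [eventually_mem_nhds_iff.mpr hS] with z hz
      exact ⟨S, hz, h⟩)
    (by
      intro ε hε
      obtain ⟨η, hη, b, c, h⟩ := key hH h0 h1 x (r := ε / 4) (by positivity)
      obtain ⟨δ, hδ, he⟩ := effros_map hom hη
      have hb : b ∈ ball c (2 * (ε / 4)) :=
        (h (ContinuousMap.id X) (fun w => by simpa using hη)).target_mem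
      refine ⟨b, pathComponentIn (ball c (2 * (ε / 4))) b, ?_,
        isPathConnected_pathComponentIn hb, fun y hy z hz => ?_⟩
      · filter_upwards [ball_mem_nhds b hδ] with y hy
        obtain ⟨e, he1, rfl⟩ := he b y (by rwa [mem_ball, dist_comm] at hy)
        exact (h e he1).symm
      · have a1 := mem_ball.mp (pathComponentIn_subset hy)
        have a2 := mem_ball.mp (pathComponentIn_subset hz)
        have := dist_triangle_right y z c
        linarith)
    (by
      intro h ε hε
      obtain ⟨δ, hδ, hu⟩ := Metric.uniformContinuous_iff.mp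
        (CompactSpace.uniformContinuous_of_continuous h.continuous) ε hε
      refine ⟨δ, hδ, fun ε' hε' y ⟨S, hS, hp, hd⟩ => ⟨h '' S, h.isOpenMap.image_mem_nhds hS,
        hp.image h.continuous, ?_⟩⟩
      rintro _ ⟨a, ha, rfl⟩ _ ⟨b, hb, rfl⟩
      exact hu (lt_of_lt_of_le (hd a ha b hb) hε'))
  obtain ⟨ε, hε, hb⟩ := Metric.isOpen_iff.mp hU x hx
  obtain ⟨S, hS, hp, hd⟩ := hA ε hε x
  have hxS := mem_of_mem_nhds hS
  exact mem_of_superset hS (hp.subset_pathComponentIn hxS fun y hy => hb (hd y hy x hxS))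

end Pool.Agent.Lib.MP_d328cc_gt
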