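import Mathlib

/-!
A contractible compact metric space carries no local direction: there is no relation on close
pairs of distinct points which is locally constant, asymmetric and has arrows of arbitrarily
small length starting at every point.
-/

open Set Metric Filter Topology unitInterval

namespace Pool.Agent.Lib.MP_d328cc_gt

theorem lift_real {Z : Type*} [TopologicalSpace Z] [ContractibleSpace Z]
    (Φ : C(Z, AddCircle (1 : ℝ))) : ∃ f : C(Z, ℝ), ∀ z, (f z : AddCircle (1 : ℝ)) = Φ z := by
  obtain ⟨p, ⟨F⟩⟩ := id_nullhomotopic Z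
  obtain ⟨r, hr⟩ := QuotientAddGroup.mk_surjective (Φ p)
  let H : C(I × Z, AddCircle (1 : ℝ)) := Φ.comp F.symm.toContinuousMap
  have H0 : ∀ a, H (0, a) = ((ContinuousMap.const Z r a : ℝ) : AddCircle (1 : ℝ)) := by
    intro a
    show Φ (F.symm (0, a)) = _
    rw [F.symm.apply_zero]
    exact hr.symm
  have cov := AddCircle.isCoveringMap_coe (1 : ℝ)
  refine ⟨(cov.liftHomotopy H _ H0).comp ((ContinuousMap.const Z 1).prodMk (ContinuousMap.id Z)),
    fun z => ?_⟩
  have := congr_fun (cov.liftHomotopy_lifts H _ H0) (1, z)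
  refine this.trans ?_
  show Φ (F.symm (1, z)) = _
  rw [F.symm.apply_one]
  rfl

variable {X : Type*} [MetricSpace X] [CompactSpace X]

theorem signed_lift [ContractibleSpace X] (G : X → X → Prop) {δ : ℝ} (hδ : 0 < δ)
    (c1 : ∀ x y, 0 < dist x y → dist x y < δ → ∀ᶠ q in 𝓝 (x, y), (G q.1 q.2 ↔ G x y)) :
    ∃ g : X × X → ℝ, Continuous g ∧ (∀ x y, g (x, y) = 0 ↔ x = y) ∧
      ∃ κ > 0, ∀ x y, 0 < dist x y → dist x y < κ → (0 < g (x, y) ↔ G x y) := by
  classical
  let m : X × X → ℝ := fun q => min (dist q.1 q.2 / δ) (1 / 2)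
  have hm : Continuous m := (continuous_dist.div_const δ).min continuous_const
  have hm0 : ∀ q, 0 ≤ m q := fun q => le_min (by positivity) (by norm_num)
  let θ : X × X → ℝ := fun q => if G q.1 q.2 then m q else -m q
  have hθ : ∀ q, |θ q| = m q := by
    intro q
    simp only [θ]
    split_ifs
    · exact abs_of_nonneg (hm0 q)
    · rw [abs_neg]
      exact abs_of_nonneg (hm0 q)
  have hc : Continuous ((↑) : ℝ → AddCircle (1 : ℝ)) := AddCircle.continuous_mk' 1
  have hΦ : Continuous fun q => (θ q : AddCircle (1 : ℝ)) := by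
    rw [continuous_iff_continuousAt]
    rintro ⟨x, y⟩
    rcases eq_or_lt_of_le (dist_nonneg : 0 ≤ dist x y) with h | h
    · apply hc.continuousAt.comp
      have m0 : m (x, y) = 0 := by simp [m, ← h]
      have t0 : θ (x, y) = 0 := abs_eq_zero.mp (by rw [hθ, m0])
      rw [ContinuousAt, t0, tendsto_zero_iff_abs_tendsto_zero]
      have := hm.tendsto (x, y)
      rw [m0] at this
      exact this.congr fun q => (hθ q).symm
    rcases lt_or_ge (dist x y) δ with h' | h'
    · apply hc.continuousAt.comp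
      by_cases hG : G x y
      · apply hm.continuousAt.congr
        filter_upwards [c1 x y h h'] with q hq
        simp only [θ, hq.mpr hG, if_true]
      · apply hm.neg.continuousAt.congr
        filter_upwards [c1 x y h h'] with q hq
        simp only [θ, mt hq.mp hG, if_false, Pi.neg_apply]
    · apply (continuousAt_const (y := (((1 / 2 : ℝ)) : AddCircle (1 : ℝ)))).congr
      have ho : IsOpen {q : X × X | δ / 2 < dist q.1 q.2} :=
        isOpen_lt continuous_const continuous_dist
      filter_upwards [ho.mem_nhds (show δ / 2 < dist x y by linarith)] with q hq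
      have : m q = 1 / 2 := min_eq_right (by
        rw [le_div_iff₀ hδ]
        have : δ / 2 < dist q.1 q.2 := hq
        linarith)
      simp only [θ, this]
      split_ifs
      · rfl
      · rw [QuotientAddGroup.eq, AddSubgroup.mem_zmultiples_iff]
        exact ⟨-1, by norm_num⟩
  obtain ⟨f, hf⟩ := lift_real ⟨_, hΦ⟩
  have hn : ∀ q, ∃ n : ℤ, f q = θ q + n := by
    intro q
    have : (θ q : AddCircle (1 : ℝ)) = (f q : ℝ) := (hf q).symm
    rw [QuotientAddGroup.eq, AddSubgroup.mem_zmultiples_iff] at this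
    obtain ⟨n, hn⟩ := this
    refine ⟨n, ?_⟩
    simp only [zsmul_eq_mul, mul_one] at hn
    linarith
  have t0 : ∀ x, θ (x, x) = 0 := fun x => abs_eq_zero.mp (by rw [hθ]; simp [m])
  obtain ⟨p⟩ : Nonempty X := inferInstance
  have hd : ∀ x, f (x, x) = f (p, p) := fun x =>
    (AddCircle.isCoveringMap_coe (1 : ℝ)).const_of_comp (g := fun x => f (x, x))
      (f.continuous.comp (continuous_id.prodMk continuous_id))
      (fun a a' => by
        rw [hf, hf]
        show (θ (a, a) : AddCircle (1 : ℝ)) = θ (a', a')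
        rw [t0, t0]) x p
  obtain ⟨k, hk⟩ := hn (p, p)
  rw [t0, zero_add] at hk
  have hn' : ∀ q, ∃ n : ℤ, f q - k = θ q + n := by
    intro q
    obtain ⟨n, h⟩ := hn q
    exact ⟨n - k, by rw [h]; push_cast; ring⟩
  have hz : ∀ n : ℤ, |(n : ℝ)| < 1 → n = 0 := by
    intro n h
    have : |n| < 1 := by exact_mod_cast h
    exact Int.abs_lt_one_iff.mp this
  refine ⟨fun q => f q - k, f.continuous.sub continuous_const, fun x y => ⟨fun h => ?_, ?_⟩, ?_⟩
  · obtain ⟨n, h1⟩ := hn' (x, y)
    have h2 : (n : ℝ) = -θ (x, y) := by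
      have : f (x, y) - k = 0 := h
      linarith
    have h3 : m (x, y) ≤ 1 / 2 := min_le_right _ _
    have h4 : n = 0 := hz n (by rw [h2, abs_neg, hθ]; linarith)
    have h5 : m (x, y) = 0 := by
      rw [← hθ, ← abs_neg, ← h2, h4]
      simp
    by_contra hxy
    have : 0 < m (x, y) := lt_min (div_pos (dist_pos.mpr hxy) hδ) (by norm_num)
    linarith
  · rintro rfl
    show f (x, x) - k = 0
    rw [hd, hk, sub_self]
  · obtain ⟨κ, hκ, hu⟩ := Metric.uniformContinuous_iff.mp
      (CompactSpace.uniformContinuous_of_continuous f.continuous) (1 / 2) (by norm_num)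
    refine ⟨κ, hκ, fun x y h0 h1 => ?_⟩
    have h2 : dist (f (x, y)) (f (x, x)) < 1 / 2 := hu (by
      rw [Prod.dist_eq, dist_self, dist_comm y x]
      exact max_lt hκ h1)
    rw [hd, hk, Real.dist_eq] at h2
    obtain ⟨n, h3⟩ := hn' (x, y)
    have h4 : m (x, y) ≤ 1 / 2 := min_le_right _ _
    have h5 : n = 0 := hz n (by
      have e : (n : ℝ) = (f (x, y) - k) - θ (x, y) := by linarith
      have := abs_sub (f (x, y) - k) (θ (x, y))
      rw [hθ] at this
      rw [e]
      linarith)
    have h6 : 0 < m (x, y) := lt_min (div_pos h0 hδ) (by norm_num)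
    show 0 < f (x, y) - k ↔ _
    rw [h3, h5]
    simp only [θ]
    split_ifs with hG
    · simp [hG, h6]
    · simp [hG, h6.le]

theorem no_direction [ContractibleSpace X] (G : X → X → Prop) {δ : ℝ} (hδ : 0 < δ)
    (c1 : ∀ x y, 0 < dist x y → dist x y < δ → ∀ᶠ q in 𝓝 (x, y), (G q.1 q.2 ↔ G x y))
    (c2 : ∀ x y, 0 < dist x y → dist x y < δ → G x y → ¬ G y x)
    (c3 : ∀ x, ∀ κ > 0, ∃ y, 0 < dist x y ∧ dist x y < κ ∧ G x y) : False := by
  obtain ⟨g, hg, hz, κ, hκ, hG⟩ := signed_lift G hδ c1
  have hgs : Continuous fun q : X × X => g q.swap := hg.comp continuous_swap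
  obtain ⟨p⟩ : Nonempty X := inferInstance
  have irr : ∀ x, ¬ 0 < g (x, x) := fun x h => by
    rw [(hz x x).mpr rfl] at h
    exact lt_irrefl _ h
  have anti : ∀ x y, 0 < g (x, y) → ¬ 0 < g (y, x) := by
    have e : {q : X × X | 0 < g q ∧ 0 < g q.swap} =
        {q : X × X | (0 ≤ g q ∧ 0 ≤ g q.swap) ∧ min κ δ ≤ dist q.1 q.2} := by
      ext ⟨x, y⟩
      constructor
      · rintro ⟨h1, h2⟩
        refine ⟨⟨h1.le, h2.le⟩, ?_⟩
        by_contra h3
        have h4 : dist x y < min κ δ := not_le.mp h3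
        have h5 : 0 < dist x y := dist_pos.mpr (by rintro rfl; exact irr _ h1)
        have h6 := h4.trans_le (min_le_left _ _)
        refine c2 x y h5 (h4.trans_le (min_le_right _ _)) ((hG x y h5 h6).mp h1)
          ((hG y x ?_ ?_).mp h2) <;> rwa [dist_comm]
      · rintro ⟨⟨h1, h2⟩, h3⟩
        have h4 : x ≠ y := dist_pos.mp ((lt_min hκ hδ).trans_le h3)
        exact ⟨lt_of_le_of_ne h1 fun h => h4 ((hz x y).mp h.symm),
          lt_of_le_of_ne h2 fun h => h4 ((hz y x).mp h.symm).symm⟩
    have hc : IsClopen {q : X × X | 0 < g q ∧ 0 < g q.swap} := by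
      constructor
      · rw [e]
        exact ((isClosed_le continuous_const hg).inter (isClosed_le continuous_const hgs)).inter
          (isClosed_le continuous_const continuous_dist)
      · exact (isOpen_lt continuous_const hg).inter (isOpen_lt continuous_const hgs)
    intro x y h1 h2
    have := hc.eq_univ ⟨(x, y), h1, h2⟩
    exact irr x (this.ge (mem_univ (x, x))).1
  have tr : ∀ x y z, 0 < g (x, y) → 0 < g (y, z) → 0 < g (x, z) := by
    intro x y z h1 h2
    have c : ∀ a, Continuous fun z => g (a, z) := fun a =>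
      hg.comp (continuous_const.prodMk continuous_id)
    have e : {z | 0 < g (y, z) ∧ g (x, z) < 0} = {z | 0 ≤ g (y, z) ∧ g (x, z) ≤ 0} := by
      ext w
      refine ⟨fun h => ⟨h.1.le, h.2.le⟩, fun h => ?_⟩
      have a1 : 0 < g (y, w) := lt_of_le_of_ne h.1 fun h' => by
        have := (hz y w).mp h'.symm
        subst this
        exact absurd h1 (not_lt.mpr h.2)
      refine ⟨a1, lt_of_le_of_ne h.2 fun h' => ?_⟩
      have := (hz x w).mp h'
      subst this
      exact anti _ _ h1 a1
    have hc : IsClopen {z | 0 ≤ g (y, z) ∧ g (x, z) ≤ 0} := by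
      constructor
      · exact (isClosed_le continuous_const (c y)).inter (isClosed_le (c x) continuous_const)
      · rw [← e]
        exact (isOpen_lt continuous_const (c y)).inter (isOpen_lt (c x) continuous_const)
    by_contra h3
    have := hc.eq_univ ⟨z, h2.le, not_lt.mp h3⟩
    exact absurd h1 (not_lt.mpr (this.ge (mem_univ y)).2)
  obtain ⟨t, ht⟩ := isCompact_univ.elim_finite_subcover (fun w : X => {x | 0 < g (x, w)})
    (fun w => isOpen_lt continuous_const (hg.comp (continuous_id.prodMk continuous_const)))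
    (fun x _ => by
      obtain ⟨y, h1, h2, h3⟩ := c3 x κ hκ
      exact mem_iUnion.mpr ⟨y, (hG x y h1 h2).mpr h3⟩)
  have nx : ∀ x, ∃ w : t, 0 < g (x, w) := fun x => by
    obtain ⟨w, hw, h⟩ := mem_iUnion₂.mp (ht (mem_univ x))
    exact ⟨⟨w, hw⟩, h⟩
  let r : t → t → Prop := fun a b => 0 < g (b, a)
  have : IsTrans t r := ⟨fun a b c h1 h2 => tr _ _ _ h2 h1⟩
  have : Std.Irrefl r := ⟨fun a => irr _⟩
  obtain ⟨a, -, ha⟩ := (Finite.wellFounded_of_trans_of_irrefl r).has_min univ
    ⟨(nx p).choose, trivial⟩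
  obtain ⟨w, hw⟩ := nx a
  exact ha w trivial hw

end Pool.Agent.Lib.MP_d328cc_gt
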