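import Mathlib
import Pool.Agent.Lib.MP_d328cc_gt.Main
import Pool.Agent.Lib.MP_d328cc_gt.Pairs
import Pool.Agent.Lib.MP_d328cc_gt.Order
import Pool.Agent.Lib.MP_d328cc_gt.Germ

/-!
In a 2-homogeneous contractible compact metric space in which every point can be pushed a small
definite distance by a small deformation of a neighbourhood, any point can be pushed onto any
sufficiently close point by such a deformation.
-/

open Set Metric Filter Topology

namespace Pool.Agent.Lib.MP_d328cc_gt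

variable {X : Type*} [MetricSpace X]

/-- chains of small pushes staying in `O` -/
def Ch (v : ℝ) (O : Set X) : X → X → Prop :=
  Relation.ReflTransGen fun a b => TrIn (ball a v) a b ∧ b ∈ O

theorem Ch.mem {v : ℝ} {O : Set X} {a b : X} (h : Ch v O a b) (ha : a ∈ O) : b ∈ O := by
  induction h with
  | refl => exact ha
  | tail _ h _ => exact h.2

theorem Ch.map {v v' : ℝ} {O O' : Set X} {a b : X} (h : Ch v O a b) (φ : X ≃ₜ X)
    (h1 : ∀ a, MapsTo φ (ball a v) (ball (φ a) v')) (h2 : MapsTo φ O O') :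
    Ch v' O' (φ a) (φ b) := by
  induction h with
  | refl => exact Relation.ReflTransGen.refl
  | tail _ h ih => exact Relation.ReflTransGen.tail ih ⟨h.1.map φ (h1 _), h2 h.2⟩

theorem Ch.mono {v v' : ℝ} {O O' : Set X} {a b : X} (h : Ch v O a b) (h1 : v ≤ v')
    (h2 : O ⊆ O') : Ch v' O' a b :=
  h.map (Homeomorph.refl X) (fun _ => ball_subset_ball h1) h2

theorem Ch.tr {v ρ : ℝ} {c a b : X} (hv : 0 < v) (h : Ch v (ball c ρ) a b) (ha : a ∈ ball c ρ) :
    TrIn (ball c (ρ + v)) a b := by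
  induction h with
  | refl => exact TrIn.refl (isOpen_ball.mem_nhds (ball_subset_ball (by linarith) ha))
  | tail h1 h ih =>
    refine ih.trans (h.1.mono (ball_subset_ball' ?_))
    have := mem_ball.mp (Ch.mem h1 ha)
    linarith

theorem Ch.exit {v : ℝ} {O : Set X} {a b : X} (h : Ch v O a b) (U : Set X) :
    Ch v U a b ∨ ∃ z, z ∉ U ∧ Ch v O a z ∧ Ch v O z b := by
  induction h with
  | refl => exact Or.inl Relation.ReflTransGen.refl
  | @tail b c h1 h ih =>
    rcases ih with ih | ⟨z, hz, a1, a2⟩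
    · by_cases hc : c ∈ U
      · exact Or.inl (Relation.ReflTransGen.tail ih ⟨h.1, hc⟩)
      · exact Or.inr ⟨c, hc, Relation.ReflTransGen.tail h1 h, Relation.ReflTransGen.refl⟩
    · exact Or.inr ⟨z, hz, a1, Relation.ReflTransGen.tail a2 h⟩

theorem small_ball {η : ℝ} {φ : X ≃ₜ X} (hφ : ∀ w, dist (φ w) w < η) (c : X) (r : ℝ) :
    MapsTo φ (ball c r) (ball c (r + η)) := by
  intro w hw
  have := dist_triangle (φ w) w c
  have := hφ w
  rw [mem_ball] at *
  linarith

theorem small_ball' {η : ℝ} {φ : X ≃ₜ X} (hφ : ∀ w, dist (φ w) w < η) (c : X) (r : ℝ) :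
    MapsTo φ (ball c r) (ball (φ c) (r + 2 * η)) := by
  intro w hw
  have := dist_triangle_right (φ w) (φ c) c
  have := mem_ball.mp (small_ball hφ c r hw)
  have := hφ c
  rw [mem_ball]
  linarith

/-- chains of arbitrarily small pushes -/
def Fw (O : Set X) (x y : X) : Prop := ∀ v > 0, Ch v O x y

/-- no push inside a ball of radius `η` can be reversed -/
def Irr (X : Type*) [MetricSpace X] (η : ℝ) : Prop :=
  ∀ c x w : X, x ≠ w → TrIn (ball c η) x w → ¬ TrIn (ball c η) w x

/-- every point can be pushed at every small scale -/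
def Steps (X : Type*) [MetricSpace X] (ε : ℝ) : Prop :=
  ∀ v, 0 < v → v ≤ ε → ∀ x : X, ∃ y, v / 2 ≤ dist x y ∧ TrIn (ball x v) x y

variable [CompactSpace X]

theorem Fw.map {O O' : Set X} {a b : X} (h : Fw O a b) (φ : X ≃ₜ X) (h2 : MapsTo φ O O') :
    Fw O' (φ a) (φ b) := by
  intro v hv
  obtain ⟨δ, hδ, hu⟩ := modulus φ hv
  exact (h δ hδ).map φ (fun a w hw => hu w a hw) h2

theorem shrink (h2 : TwoHom X) {η ρ : ℝ} (hI : Irr X η) (hρ : 0 < ρ) (hη : 5 * ρ ≤ η) :
    ∃ δ > 0, ∀ x y : X, dist x y < δ → Fw (ball x (3 * ρ)) x y → Fw (ball x ρ) x y := by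
  obtain ⟨δ, hδ, he⟩ := effros2 h2 hρ hρ
  refine ⟨δ, hδ, fun x y hxy h v hv => ?_⟩
  have hv' : 0 < min v ρ := lt_min hv hρ
  have hle : min v ρ ≤ ρ := min_le_right _ _
  rcases (h _ hv').exit (ball x ρ) with h1 | ⟨z, hz, a1, a2⟩
  · exact h1.mono (min_le_left _ _) subset_rfl
  have hx : x ∈ ball x (3 * ρ) := mem_ball_self (by positivity)
  have hz' : ρ ≤ dist z x := not_lt.mp hz
  obtain ⟨φ, hφ, e1, e2⟩ := he z x z y hz' (by simpa using hδ) hxy
  have b1 := a1.tr hv' hx
  have b2 := (a2.tr hv' (a1.mem hx)).map φ (small_ball hφ _ _)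
  rw [e1, e2] at b2
  exact absurd (b1.mono (ball_subset_ball (by linarith)))
    (hI x z x (dist_pos.mp (hρ.trans_le hz')) (b2.mono (ball_subset_ball (by linarith))))

theorem far_chain (h2 : TwoHom X) {η ε ρ v : ℝ} (hI : Irr X η) (hS : Steps X ε) (hρ : 0 < ρ)
    (hη : 3 * ρ ≤ η) (hv : 0 < v) (hvρ : v ≤ ρ) (hvε : v ≤ ε) (x : X) :
    ∃ y, ρ ≤ dist x y ∧ Ch v (ball x (ρ + v)) x y := by
  by_contra hcon
  push Not at hcon
  choose nx hn1 hn2 using hS v hv hvε
  let s : ℕ → X := fun n => nx^[n] x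
  have hs : ∀ n, s (n + 1) = nx (s n) := fun n => Function.iterate_succ_apply' _ _ _
  have lt : ∀ y, Ch v (ball x (ρ + v)) x y → dist x y < ρ := fun y h => by
    by_contra h'
    exact hcon y (not_lt.mp h') h
  have stp : ∀ n, dist x (s n) < ρ → Ch v (ball x (ρ + v)) (s n) (s (n + 1)) := by
    intro n h
    rw [hs]
    refine Relation.ReflTransGen.single ⟨hn2 _, ball_subset_ball' ?_ (hn2 _).right⟩
    rw [dist_comm] at h
    linarith
  have ch0 : ∀ n, Ch v (ball x (ρ + v)) x (s n) := by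
    intro n
    induction n with
    | zero => exact Relation.ReflTransGen.refl
    | succ n ih => exact Relation.ReflTransGen.trans ih (stp n (lt _ ih))
  have ch : ∀ i j, i ≤ j → Ch v (ball x ρ) (s i) (s j) := by
    intro i j hij
    induction j, hij using Nat.le_induction with
    | base => exact Relation.ReflTransGen.refl
    | succ j _ ih =>
      refine Relation.ReflTransGen.tail ih ⟨by rw [hs]; exact hn2 _, ?_⟩
      rw [mem_ball, dist_comm]
      exact lt _ (ch0 _)
  have hm : ∀ i, s i ∈ ball x ρ := fun i => by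
    rw [mem_ball, dist_comm]
    exact lt _ (ch0 _)
  obtain ⟨δ, hδ, he⟩ := effros2 h2 (half_pos hv) hρ
  obtain ⟨l, ψ, hψ, hlim⟩ := CompactSpace.tendsto_subseq s
  obtain ⟨N, hN⟩ := Metric.cauchySeq_iff'.mp hlim.cauchySeq δ hδ
  have hd : dist (s (ψ N)) (s (ψ (N + 1))) < δ := by
    rw [dist_comm]
    exact hN (N + 1) (Nat.le_succ N)
  have hfar : v / 2 ≤ dist (s (ψ N + 1)) (s (ψ N)) := by
    rw [dist_comm, hs]
    exact hn1 _
  obtain ⟨φ, hφ, e1, e2⟩ := he _ _ (s (ψ N + 1)) _ hfar (by simpa using hδ) hd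
  have b1 := (ch _ _ (Nat.le_succ (ψ N))).tr hv (hm _)
  have b2 := ((ch (ψ N + 1) _ (hψ (Nat.lt_succ_self N))).tr hv (hm _)).map φ (small_ball hφ _ _)
  rw [e1, e2] at b2
  exact absurd (b1.mono (ball_subset_ball (by linarith)))
    (hI x _ _ (dist_pos.mp ((half_pos hv).trans_le hfar))
      (b2.mono (ball_subset_ball (by linarith))))

theorem far_fw (h2 : TwoHom X) {η ε ρ : ℝ} (hI : Irr X η) (hS : Steps X ε) (hε : 0 < ε)
    (hρ : 0 < ρ) (hη : 3 * ρ ≤ η) (x : X) : ∃ y, ρ ≤ dist x y ∧ Fw (ball x (2 * ρ)) x y := by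
  have hm : 0 < min ρ ε := lt_min hρ hε
  have hp : ∀ n : ℕ, 0 < min ρ ε * (1 / ((n : ℝ) + 1)) := fun n => by positivity
  have hle : ∀ n : ℕ, min ρ ε * (1 / ((n : ℝ) + 1)) ≤ min ρ ε := fun n =>
    mul_le_of_le_one_right hm.le (by
      rw [div_le_one (by positivity)]
      have : (0 : ℝ) ≤ n := Nat.cast_nonneg n
      linarith)
  choose y hy1 hy2 using fun n : ℕ => far_chain h2 hI hS hρ hη (hp n)
    ((hle n).trans (min_le_left _ _)) ((hle n).trans (min_le_right _ _)) x
  obtain ⟨l, ψ, hψ, hlim⟩ := CompactSpace.tendsto_subseq y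
  have hl : ρ ≤ dist x l :=
    ge_of_tendsto' (tendsto_const_nhds.dist hlim) fun n => hy1 _
  refine ⟨l, hl, fun v hv => ?_⟩
  have hw : 0 < min v ρ / 4 := by positivity
  obtain ⟨δ, hδ, he⟩ := effros2 h2 hρ hw
  have t0 : Tendsto (fun n : ℕ => min ρ ε * (1 / ((n : ℝ) + 1))) atTop (𝓝 0) := by
    simpa using tendsto_one_div_add_atTop_nhds_zero_nat.const_mul (min ρ ε)
  obtain ⟨n, hn1, hn2⟩ := (((t0.comp hψ.tendsto_atTop).eventually (gt_mem_nhds hw)).and
    (hlim.eventually (ball_mem_nhds l hδ))).exists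
  obtain ⟨φ, hφ, e1, e2⟩ := he x l x (y (ψ n)) hl (by simpa using hδ) (by
    rw [dist_comm]; exact hn2)
  have := (hy2 (ψ n)).map φ (fun a => small_ball' hφ a _) (small_ball hφ _ _)
  rw [e1, e2] at this
  have m1 := min_le_left v ρ
  have m2 := min_le_right v ρ
  simp only [Function.comp_apply] at hn1
  exact this.mono (by linarith) (ball_subset_ball (by linarith))

theorem not_irr [ContractibleSpace X] (h2 : TwoHom X) {η ε : ℝ} (hS : Steps X ε) (hε : 0 < ε)
    (hη : 0 < η) : ¬ Irr X η := by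
  intro hI
  set ρ := η / 5 with hρe
  have hρ : 0 < ρ := by positivity
  obtain ⟨δ, hδ, hG⟩ := shrink h2 hI hρ (by linarith)
  have mv : ∀ (φ : X ≃ₜ X) (x y : X), (∀ w, dist (φ w) w < ρ) → dist (φ x) (φ y) < δ →
      Fw (ball x ρ) x y → Fw (ball (φ x) ρ) (φ x) (φ y) := by
    intro φ x y hφ hd h
    apply hG _ _ hd
    have := h.map φ (small_ball' hφ x ρ)
    rwa [show ρ + 2 * ρ = 3 * ρ by ring] at this
  refine no_direction (fun x y : X => Fw (ball x ρ) x y) hδ ?_ ?_ ?_
  · intro x y h0 h1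
    obtain ⟨δ', hδ', he⟩ := effros2 h2 h0 hρ
    have ho : IsOpen {q : X × X | dist q.1 q.2 < δ} := isOpen_lt continuous_dist continuous_const
    filter_upwards [ho.mem_nhds (show (x, y) ∈ {q : X × X | dist q.1 q.2 < δ} from h1),
      ball_mem_nhds (x, y) hδ'] with q hq1 hq2
    rw [mem_ball, Prod.dist_eq, max_lt_iff, dist_comm q.1, dist_comm q.2] at hq2
    obtain ⟨φ, hφ, e1, e2⟩ := he x y q.1 q.2 le_rfl hq2.1 hq2.2
    constructor
    · intro h
      have := mv φ _ _ hφ (by rwa [e1, e2]) h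
      rwa [e1, e2] at this
    · intro h
      have f1 : φ.symm x = q.1 := by rw [← e1, φ.symm_apply_apply]
      have f2 : φ.symm y = q.2 := by rw [← e2, φ.symm_apply_apply]
      have := mv φ.symm _ _ (symm_small hφ) (by rwa [f1, f2]) h
      rwa [f1, f2] at this
  · intro x y h0 _ a1 a2
    have b1 := (a1 ρ hρ).tr hρ (mem_ball_self hρ)
    have b2 := (a2 ρ hρ).tr hρ (mem_ball_self hρ)
    have hy := mem_ball.mp ((a1 ρ hρ).mem (mem_ball_self hρ))
    exact hI x x y (dist_pos.mp h0) (b1.mono (ball_subset_ball (by linarith)))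
      (b2.mono (ball_subset_ball' (by linarith)))
  · intro x κ hκ
    have hw : 0 < min κ ρ / 2 := by positivity
    have m1 := min_le_left κ ρ
    have m2 := min_le_right κ ρ
    obtain ⟨y, hy1, hy2⟩ := far_fw h2 hI hS hε hw (by linarith) x
    have hy := mem_ball.mp ((hy2 1 one_pos).mem (mem_ball_self (by linarith)))
    rw [dist_comm] at hy
    exact ⟨y, hw.trans_le hy1, by linarith,
      fun v hv => (hy2 v hv).mono le_rfl (ball_subset_ball (by linarith))⟩

theorem push_close [ContractibleSpace X] (h2 : TwoHom X) {ε : ℝ} (hS : Steps X ε) (hε : 0 < ε)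
    {η : ℝ} (hη : 0 < η) : ∃ δ > 0, ∀ y y' : X, dist y y' < δ → TrIn (ball y η) y y' := by
  let A : ℝ → Set X := fun r =>
    {x | ∃ N ∈ 𝓝 x, ∃ c, ∀ y ∈ N, ∀ y' ∈ N, TrIn (ball c r) y y'}
  have hA := spread h2.hom A
    (by
      intro r
      rw [isOpen_iff_mem_nhds]
      rintro y ⟨S, hS, h⟩
      filter_upwards [eventually_mem_nhds_iff.mpr hS] with z hz
      exact ⟨S, hz, h⟩)
    (by
      intro r hr
      have := not_irr h2 hS hε (half_pos hr)
      simp only [Irr, not_forall, not_not] at this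
      obtain ⟨c, x, w, hxw, a1, a2⟩ := this
      obtain ⟨δ, hδ, he⟩ := effros2 h2 (dist_pos.mpr hxw) (half_pos hr)
      have key : ∀ y ∈ ball w δ, TrIn (ball c r) x y ∧ TrIn (ball c r) y x := by
        intro y hy
        obtain ⟨φ, hφ, e1, e2⟩ := he x w x y le_rfl (by simpa using hδ) (by
          rw [dist_comm]; exact hy)
        have f1 : φ.symm x = x := by rw [φ.symm_apply_eq, e1]
        have f2 : φ.symm w = y := by rw [← e2, φ.symm_apply_apply]
        have b1 := a1.map φ.symm (small_ball (symm_small hφ) _ _)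
        have b2 := a2.map φ.symm (small_ball (symm_small hφ) _ _)
        rw [f1, f2, add_halves] at b1 b2
        exact ⟨b1, b2⟩
      exact ⟨w, ball w δ, ball_mem_nhds w hδ, c,
        fun y hy y' hy' => (key y hy).2.trans (key y' hy').1⟩)
    (by
      intro h r hr
      obtain ⟨δ, hδ, hu⟩ := modulus h hr
      refine ⟨δ, hδ, fun r' hr' y ⟨S, hS, c, hd⟩ =>
        ⟨h '' S, h.isOpenMap.image_mem_nhds hS, h c, ?_⟩⟩
      rintro _ ⟨a, ha, rfl⟩ _ ⟨b, hb, rfl⟩
      exact (hd a ha b hb).map h fun w hw => hu w c (lt_of_lt_of_le hw hr'))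
  choose N hN c hc using hA (η / 2) (half_pos hη)
  obtain ⟨δ, hδ, hl⟩ := lebesgue_number_lemma_of_metric (isCompact_univ (X := X))
    (c := fun z => interior (N z)) (fun z => isOpen_interior)
    (fun z _ => mem_iUnion.mpr ⟨z, mem_interior_iff_mem_nhds.mpr (hN z)⟩)
  refine ⟨δ, hδ, fun y y' hy => ?_⟩
  obtain ⟨z, hz'⟩ := hl y (mem_univ y)
  have hz := hz'.trans interior_subset
  have := hc z y (hz (mem_ball_self hδ)) y' (hz (by rwa [mem_ball, dist_comm]))
  have hm := mem_ball.mp this.left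
  rw [dist_comm] at hm
  exact this.mono (ball_subset_ball' (by linarith))

end Pool.Agent.Lib.MP_d328cc_gt
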