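import Mathlib
import Pool.Agent.Lib.MP_d328cc_gt.Rev

/-!
Local contractibility of contractible 2-homogeneous compact metric spaces.
-/

open Set Metric Filter Topology unitInterval

namespace Pool.Agent.Lib.MP_d328cc_gt

variable {X : Type*} [MetricSpace X] [CompactSpace X]

theorem key2 {H : I → X → X} (hH : Continuous fun q : I × X => H q.1 q.2)
    (h0 : ∀ x, H 0 x = x) {p : X} (h1 : ∀ x, H 1 x = p)
    (hD : ∀ η > 0, ∃ δ > 0, ∀ y y' : X, dist y y' < δ → TrIn (ball y η) y y')
    {r : ℝ} (hr : 0 < r) : ∃ b c : X, Dead (ball c (2 * r)) (ContinuousMap.id X) b := by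
  classical
  obtain ⟨C, hC, hcov⟩ := Metric.totallyBounded_iff.mp
    (isCompact_univ (X := X)).totallyBounded r hr
  have : Fintype C := hC.fintype
  set m := Fintype.card C with hm
  obtain ⟨η1, hη1, hu⟩ := suf_unif hH m hr
  obtain ⟨δ0, hδ0, hj⟩ := hD (η1 / 2) (half_pos hη1)
  set δ := min δ0 (η1 / 2) with hδe
  have hδ : 0 < δ := lt_min hδ0 (half_pos hη1)
  have hδ1 : δ ≤ δ0 := min_le_left _ _
  have hδ2 : δ ≤ η1 / 2 := min_le_right _ _
  by_contra hcon
  push Not at hcon
  let T : (Fin m → ℝ) → ℕ → I := fun u k =>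
    if h : k < m then projIcc 0 1 zero_le_one (u ⟨k, h⟩) else 0
  have hT : Continuous T := by
    apply continuous_pi
    intro k
    by_cases h : k < m
    · simp only [T, h, dif_pos]
      exact continuous_projIcc.comp (continuous_apply _)
    · simp only [T, h, dif_neg, not_false_eq_true]
      exact continuous_const
  have hT0 : ∀ u (k : Fin m), u k ≤ 0 → T u k = 0 := by
    intro u k hk
    simp only [T, k.2, dif_pos]
    exact projIcc_of_le_left _ hk
  have hT1 : ∀ u (k : Fin m), 1 ≤ u k → T u k = 1 := by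
    intro u k hk
    simp only [T, k.2, dif_pos]
    exact projIcc_of_right_le _ hk
  let b : ℕ → (Fin m → ℝ) → X := fun j u => pre H p (T u) j
  let g : ℕ → (Fin m → ℝ) → C(X, X) := fun j u => ⟨suf H (T u) (m - j) j,
    (continuous_suf hH (m - j) j).comp (continuous_const.prodMk continuous_id)⟩
  have hg : ∀ j, Continuous (g j) := fun j =>
    ContinuousMap.continuous_of_continuous_uncurry _
      ((continuous_suf hH (m - j) j).comp ((hT.comp continuous_fst).prodMk continuous_snd))
  have hb : ∀ j, Continuous (b j) := fun j => (continuous_pre hH p j).comp hT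
  have hgb : ∀ j ≤ m, ∀ u, g j u (b j u) = b m u := by
    intro j hj u
    show suf H (T u) (m - j) j (pre H p (T u) j) = pre H p (T u) m
    rw [suf_pre, show j + (m - j) = m by omega]
  let lam : C → (Fin m → ℝ) → ℝ := fun c u => max 0 (r - dist (b m u) c)
  have hlam : ∀ c u, 0 < lam c u ↔ b m u ∈ ball (c : X) r := by
    intro c u
    simp only [lam, lt_max_iff, lt_irrefl, false_or, mem_ball, sub_pos]
  let Q : C → ℕ → (Fin m → ℝ) → Prop := fun c j u => Dead (ball (c : X) (2 * r)) (g j u) (b j u)
  have hsub : ∀ (c : X) (z : X), z ∈ ball c r → ball z r ⊆ ball c (2 * r) := by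
    intro c z hz
    apply ball_subset_ball'
    have := mem_ball.mp hz
    linarith
  have hmap : ∀ (c : X) j, j ≤ m → ∀ u y, b m u ∈ ball c r → dist y (b j u) < δ →
      MapsTo (g j u) (ball y (η1 / 2)) (ball c (2 * r)) := by
    intro c j hj u y hc hy w hw
    apply hsub _ _ hc
    rw [← hgb j hj u]
    refine hu j hj _ _ _ ?_
    have := dist_triangle w y (b j u)
    have := mem_ball.mp hw
    linarith
  let N : C → (Fin m → ℝ) → Set (Fin m → ℝ) := fun c u =>
    {v | b m v ∈ ball (c : X) r ∧ ∀ j ∈ Finset.range (m + 1), b j v ∈ ball (b j u) (δ / 2)}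
  have hQ1 : ∀ (c : C) u j, j ≤ m → ∀ v w, JoinedIn (N c u) w v → Q c j v → Q c j w := by
    intro c u j hj' v w hwv hq
    have hd : ∀ z ∈ N c u, dist (b j w) (b j z) < δ := by
      intro z hz
      have a1 := mem_ball.mp (hz.2 j (Finset.mem_range.mpr (by omega)))
      have a2 := mem_ball.mp (hwv.source_mem.2 j (Finset.mem_range.mpr (by omega)))
      have := dist_triangle_right (b j w) (b j z) (b j u)
      linarith
    have a1 := Dead.pull hq (hj _ _ ((hd v hwv.target_mem).trans_le hδ1))
      (hmap c j hj' v _ hwv.target_mem.1 (hd v hwv.target_mem))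
    refine a1.change (ball_mem_nhds _ (half_pos hη1)) ((hwv.map (hg j)).mono ?_)
    rintro _ ⟨z, hz, rfl⟩
    exact hmap c j hj' z _ hz.1 (hd z hz)
  have hQm : ∀ c u, ¬ Q c m u := by
    intro c u hq
    apply hcon (b m u) c
    have e : g m u = ContinuousMap.id X := by
      ext x
      show suf H (T u) (m - m) m x = x
      rw [Nat.sub_self]
      rfl
    rw [← e]
    exact hq
  have hQ0 : ∀ c u (k : Fin m), u k ≤ 0 → Q c k u → Q c (k + 1) u := by
    intro c u k hk hq
    have hb' : b (k + 1) u = b k u := by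
      show H (T u k) (b k u) = b k u
      rw [hT0 u k hk, h0]
    have hg' : g (k + 1) u = g k u := by
      ext x
      show suf H (T u) (m - (k + 1)) (k + 1) x = suf H (T u) (m - k) k x
      rw [suf_step H _ k.2, hT0 u k hk, h0]
    simp only [Q]
    rw [hb', hg']
    exact hq
  have hQt : ∀ c u (k : Fin m), 0 < lam c u → 1 ≤ u k → Q c k u := by
    intro c u k hc hk
    have hz := (hlam c u).mp hc
    have e1 : ∀ x, g k u x = g (k + 1) u p := by
      intro x
      show suf H (T u) (m - k) k x = suf H (T u) (m - (k + 1)) (k + 1) p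
      rw [suf_step H _ k.2, hT1 u k hk, h1]
    have e2 : (g k u).comp (inc univ) = ContinuousMap.const _ (b m u) := by
      ext x
      show g k u x = b m u
      rw [← hgb k k.2.le u, e1, e1]
    refine ⟨univ, univ_mem, b m u, ?_⟩
    rw [e2]
    exact JoinedIn.refl fun _ => hsub _ _ hz (mem_ball_self hr)
  let P : C → (Fin m → ℝ) → ℕ → Prop := fun c u l => l = 0 ∨ Q c (l - 1) u
  let lab : C → (Fin m → ℝ) → ℕ := fun c u => Nat.findGreatest (P c u) m
  have hfin := labels m lam
    (fun c => continuous_const.max (continuous_const.sub ((hb m).dist continuous_const)))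
    (fun c u => le_max_left _ _)
    (by
      intro u
      obtain ⟨c, hc, hu⟩ := mem_iUnion₂.mp (hcov (mem_univ (b m u)))
      exact ⟨⟨c, hc⟩, (hlam ⟨c, hc⟩ u).mpr hu⟩)
    lab
    (by
      intro c u hc
      have hV : N c u ∈ 𝓝 u :=
        Eventually.and ((isOpen_ball.preimage (hb m)).mem_nhds ((hlam c u).mp hc))
          ((Finset.eventually_all _).mpr fun j _ =>
            (hb j).continuousAt.preimage_mem_nhds (ball_mem_nhds _ (half_pos hδ)))
      filter_upwards [pathComponentIn_mem_nhds hV] with v hv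
      have hv' : JoinedIn (N c u) u v := hv
      have hiff : ∀ l ≤ m, P c v l ↔ P c u l := by
        intro l hl
        exact or_congr_right ⟨hQ1 c u _ (by omega) v u hv', hQ1 c u _ (by omega) u v hv'.symm⟩
      apply le_antisymm
      · exact Nat.le_findGreatest (Nat.findGreatest_le m)
          ((hiff _ (Nat.findGreatest_le m)).mp
            (Nat.findGreatest_spec (P := P c v) (Nat.zero_le m) (Or.inl rfl)))
      · exact Nat.le_findGreatest (Nat.findGreatest_le m)
          ((hiff _ (Nat.findGreatest_le m)).mpr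
            (Nat.findGreatest_spec (P := P c u) (Nat.zero_le m) (Or.inl rfl))))
    (fun c u _ => Nat.findGreatest_le m)
    (by
      intro c u k _ hk hl
      have a1 : P c u (lab c u) := Nat.findGreatest_spec (P := P c u) (Nat.zero_le m) (Or.inl rfl)
      rw [hl] at a1
      have a2 : Q c (k + 1) u := hQ0 c u k hk (by simpa [P] using a1)
      by_cases hkm : (k : ℕ) + 1 = m
      · rw [hkm] at a2
        exact hQm c u a2
      · have : (k : ℕ) + 2 ≤ lab c u :=
          Nat.le_findGreatest (P := P c u) (by have := k.2; omega) (Or.inr a2)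
        omega)
    (by
      intro c u k hc hk
      exact Nat.le_findGreatest (P := P c u) k.2 (Or.inr (hQt c u k hc hk)))
  omega

omit [CompactSpace X] in
theorem steps {H : I → X → X} (hH : Continuous fun q : I × X => H q.1 q.2)
    (h0 : ∀ x, H 0 x = x) {p : X} (h1 : ∀ x, H 1 x = p) {ε : ℝ}
    (hn : ∀ b c : X, ¬ Dead (ball c ε) (ContinuousMap.id X) b) : Steps X ε := by
  intro v hv hvε x
  let F : ℝ → C(X, X) := fun t => ⟨H (projIcc 0 1 zero_le_one t),
    hH.comp (continuous_const.prodMk continuous_id)⟩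
  have hF : Continuous fun q : ℝ × X => F q.1 q.2 :=
    hH.comp (((continuous_projIcc (h := zero_le_one)).comp continuous_fst).prodMk continuous_snd)
  have F0 : ∀ y, F 0 y = y := fun y => by
    show H (projIcc 0 1 zero_le_one 0) y = y
    rw [projIcc_left]
    exact h0 y
  have F1 : ∀ y, F 1 y = p := fun y => by
    show H (projIcc 0 1 zero_le_one 1) y = p
    rw [projIcc_right]
    exact h1 y
  have hf : Continuous fun t => dist x (F t x) :=
    continuous_const.dist (hF.comp (continuous_id.prodMk continuous_const))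
  have hK : IsCompact (Icc (0 : ℝ) 1 ∩ {t | v / 2 ≤ dist x (F t x)}) :=
    isCompact_Icc.inter_right (isClosed_le continuous_const hf)
  have hne : (Icc (0 : ℝ) 1 ∩ {t | v / 2 ≤ dist x (F t x)}).Nonempty := by
    by_contra he
    obtain ⟨V, hV, j⟩ := tube hF F0 (O := ball x ε) isOpen_ball (x := x) zero_le_one (by
      intro s hs
      by_contra h
      apply he
      refine ⟨s, hs, ?_⟩
      rw [mem_ball, dist_comm] at h
      show v / 2 ≤ _
      linarith)
    apply hn x x
    refine ⟨V, hV, p, ?_⟩
    have e : (F 1).comp (inc V) = ContinuousMap.const V p := by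
      ext y
      exact F1 y
    rw [← e]
    exact j
  obtain ⟨t, ⟨ht, ht2⟩, hmin⟩ := hK.exists_isLeast hne
  have hlt : ∀ s ∈ Ico 0 t, dist x (F s x) ≤ v / 2 := by
    intro s hs
    by_contra h
    exact absurd (hmin ⟨⟨hs.1, hs.2.le.trans ht.2⟩, (not_le.mp h).le⟩) (not_le.mpr hs.2)
  have ht0 : 0 ≠ t := by
    rintro rfl
    have : v / 2 ≤ dist x (F 0 x) := ht2
    rw [F0, dist_self] at this
    linarith
  have hle : ∀ s ∈ Icc 0 t, dist x (F s x) ≤ v / 2 := by
    rw [← closure_Ico ht0]
    exact closure_minimal hlt (isClosed_le hf continuous_const)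
  obtain ⟨V, hV, j⟩ := tube hF F0 (O := ball x v) isOpen_ball (x := x) ht.1 (by
    intro s hs
    have := hle s hs
    rw [mem_ball, dist_comm]
    linarith)
  exact ⟨F t x, ht2, V, hV, _, j, rfl⟩

theorem locallyContractible_of [ContractibleSpace X] (hom : ∀ x y : X, ∃ h : X ≃ₜ X, h x = y)
    (hD : ∀ ε > 0, Steps X ε → ∀ η > 0, ∃ δ > 0, ∀ y y' : X, dist y y' < δ →
      TrIn (ball y η) y y') : LocallyContractibleSpace X := by
  obtain ⟨p, ⟨F⟩⟩ := id_nullhomotopic X
  let A : ℝ → Set X := fun ε => {x | ∃ c, Dead (ball c ε) (ContinuousMap.id X) x}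
  have hA := spread hom A
    (by
      intro ε
      rw [isOpen_iff_mem_nhds]
      rintro y ⟨c, h⟩
      filter_upwards [h.eventually] with z hz
      exact ⟨c, hz⟩)
    (by
      intro ε hε
      by_contra hne
      have hn : ∀ b c : X, ¬ Dead (ball c ε) (ContinuousMap.id X) b :=
        fun b c h => hne ⟨b, c, h⟩
      have hS := steps (H := fun t x => F (t, x)) F.continuous (fun x => F.apply_zero x)
        (fun x => F.apply_one x) hn
      obtain ⟨b, c, h⟩ := key2 (H := fun t x => F (t, x)) F.continuous (fun x => F.apply_zero x)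
        (fun x => F.apply_one x) (hD ε hε hS) (half_pos hε)
      rw [mul_div_cancel₀ _ two_ne_zero] at h
      exact hn b c h)
    (by
      intro h r hr
      obtain ⟨δ, hδ, hu⟩ := modulus h hr
      exact ⟨δ, hδ, fun r' hr' y ⟨c, hd⟩ =>
        ⟨h c, hd.map h fun w hw => hu w c (lt_of_lt_of_le hw hr')⟩⟩)
  intro x U hU
  obtain ⟨ε, hε, hb⟩ := Metric.mem_nhds_iff.mp hU
  obtain ⟨c, hc⟩ := hA (ε / 2) (half_pos hε) x
  have hm : dist x c < ε / 2 := hc.mem
  rw [dist_comm] at hm
  exact (hc.mono ((ball_subset_ball' (by linarith)).trans hb)).nullhomotopic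

theorem locallyContractible [ContractibleSpace X] (h2 : TwoHom X) :
    LocallyContractibleSpace X :=
  locallyContractible_of h2.hom fun _ hε hS _ hη => push_close h2 hS hε hη

end Pool.Agent.Lib.MP_d328cc_gt
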