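import Mathlib
import Pool.Agent.Lib.MP_d328cc_gt.Key2

/-!
The Effros property for isotopies, and local contractibility of contractible compact metric spaces
which are homogeneous through isotopies.
-/

open Set Metric Filter Topology unitInterval

namespace Pool.Agent.Lib.MP_d328cc_gt

variable {X : Type*} [MetricSpace X]

/-- level preserving homeomorphisms of `I × X` which are the identity on level `0` -/
def IsIso (Φ : I × X ≃ₜ I × X) : Prop := (∀ q, (Φ q).1 = q.1) ∧ ∀ x, Φ (0, x) = (0, x)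

/-- the map on level `1` -/
def top (Φ : I × X ≃ₜ I × X) (x : X) : X := (Φ (1, x)).2

theorem IsIso.one {Φ : I × X ≃ₜ I × X} (h : IsIso Φ) (x : X) : Φ (1, x) = (1, top Φ x) :=
  Prod.ext (h.1 _) rfl

theorem IsIso.trans {Φ Ψ : I × X ≃ₜ I × X} (h : IsIso Φ) (h' : IsIso Ψ) : IsIso (Φ.trans Ψ) :=
  ⟨fun q => (h'.1 _).trans (h.1 q), fun x => by
    show Ψ (Φ (0, x)) = _
    rw [h.2, h'.2]⟩

theorem IsIso.symm {Φ : I × X ≃ₜ I × X} (h : IsIso Φ) : IsIso Φ.symm :=
  ⟨fun q => by
    have := h.1 (Φ.symm q)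
    rw [Φ.apply_symm_apply] at this
    exact this.symm, fun x => by rw [Φ.symm_apply_eq, h.2]⟩

theorem IsIso.top_trans {Φ : I × X ≃ₜ I × X} (h : IsIso Φ) (Ψ : I × X ≃ₜ I × X) (x : X) :
    top (Φ.trans Ψ) x = top Ψ (top Φ x) := by
  show (Ψ (Φ (1, x))).2 = _
  rw [h.one]
  rfl

/-- the homeomorphism on level `1` -/
def IsIso.homeo {Φ : I × X ≃ₜ I × X} (h : IsIso Φ) : X ≃ₜ X where
  toFun := top Φ
  invFun := top Φ.symm
  left_inv x := by
    rw [← h.top_trans, Φ.self_trans_symm]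
    rfl
  right_inv x := by
    rw [← h.symm.top_trans, Φ.symm_trans_self]
    rfl
  continuous_toFun := continuous_snd.comp (Φ.continuous.comp (Continuous.prodMk_right 1))
  continuous_invFun := continuous_snd.comp (Φ.symm.continuous.comp (Continuous.prodMk_right 1))

/-- points reached from `z` by isotopies moving every point less than `η` -/
def OrbI (η : ℝ) (z : X) : Set X :=
  {y | ∃ Φ : I × X ≃ₜ I × X, IsIso Φ ∧ (∀ w, dist (Φ w) w < η) ∧ top Φ z = y}

theorem map_closure_orbI {η η' : ℝ} {v : I × X ≃ₜ I × X} (hi : IsIso v)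
    (hv : ∀ w, dist (v w) w < η) (z : X) :
    MapsTo hi.homeo (closure (OrbI η' z)) (closure (OrbI (η + η') z)) := by
  apply MapsTo.closure _ hi.homeo.continuous
  rintro y ⟨h, hj, hh, rfl⟩
  refine ⟨h.trans v, hj.trans hi, fun w => ?_, hj.top_trans v z⟩
  calc dist (v (h w)) w ≤ dist (v (h w)) (h w) + dist (h w) w := dist_triangle _ _ _
    _ < η + η' := add_lt_add (hv _) (hh _)

variable [CompactSpace X]

theorem interior_orbI_nonempty (hom : ∀ x y : X, ∃ Φ, IsIso Φ ∧ top Φ x = y) {η : ℝ}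
    (hη : 0 < η) (z : X) : (interior (closure (OrbI η z))).Nonempty := by
  have : Nonempty X := ⟨z⟩
  choose δ hδ0 hδ using fun g : {Φ : I × X ≃ₜ I × X // IsIso Φ} => modulus g.1.symm hη
  obtain ⟨T, hT, hU⟩ := TopologicalSpace.isOpen_iUnion_countable
    (fun g : {Φ : I × X ≃ₜ I × X // IsIso Φ} => ball (g.1 : C(I × X, I × X)) (δ g))
    fun _ => isOpen_ball
  have : Countable T := hT.to_subtype
  obtain ⟨g, hg⟩ := nonempty_interior_of_iUnion_of_closed
    (f := fun g : T => g.1.2.homeo '' closure (OrbI η z))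
    (fun g => g.1.2.homeo.isClosedMap _ isClosed_closure) (by
      apply eq_univ_of_forall
      intro y
      obtain ⟨h, hi, rfl⟩ := hom z y
      have : (h : C(I × X, I × X)) ∈ ⋃ g ∈ T, ball (g.1 : C(I × X, I × X)) (δ g) := by
        rw [hU]
        exact mem_iUnion.mpr ⟨⟨h, hi⟩, mem_ball_self (hδ0 _)⟩
      obtain ⟨g, hgT, hg⟩ := mem_iUnion₂.mp this
      refine mem_iUnion.mpr ⟨⟨g, hgT⟩, g.2.homeo.symm (top h z),
        subset_closure ⟨h.trans g.1.symm, hi.trans g.2.symm, ?_, hi.top_trans _ _⟩,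
        g.2.homeo.apply_symm_apply _⟩
      intro w
      have h1 : dist (h w) (g.1 w) < δ g :=
        lt_of_le_of_lt (ContinuousMap.dist_apply_le_dist (f := (h : C(I × X, I × X)))
          (g := (g.1 : C(I × X, I × X))) w) hg
      have := hδ g _ _ h1
      rwa [g.1.symm_apply_apply] at this)
  rw [← Homeomorph.image_interior] at hg
  exact hg.of_image

theorem mem_interior_orbI (hom : ∀ x y : X, ∃ Φ, IsIso Φ ∧ top Φ x = y) {η : ℝ} (hη : 0 < η)
    (z : X) : z ∈ interior (closure (OrbI (η + η) z)) := by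
  obtain ⟨y, hy⟩ := interior_orbI_nonempty hom hη z
  obtain ⟨_, hw, ⟨v, hi, hv, rfl⟩⟩ := mem_closure_iff.mp (interior_subset hy) _ isOpen_interior hy
  have h1 : hi.symm.homeo '' interior (closure (OrbI η z)) ⊆ closure (OrbI (η + η) z) := by
    rintro _ ⟨w, hw, rfl⟩
    exact map_closure_orbI hi.symm (symm_small hv) z (interior_subset hw)
  have := interior_maximal h1 (hi.symm.homeo.isOpenMap _ isOpen_interior) (mem_image_of_mem _ hw)
  have e : hi.symm.homeo (top v z) = z := hi.homeo.symm_apply_apply z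
  rwa [e] at this

theorem weak_effrosI (hom : ∀ x y : X, ∃ Φ, IsIso Φ ∧ top Φ x = y) {η : ℝ} (hη : 0 < η) :
    ∃ δ > 0, ∀ x y : X, dist x y < δ → y ∈ closure (OrbI η x) := by
  have h6 : 0 < η / 6 := by positivity
  obtain ⟨δ, hδ, h⟩ := lebesgue_number_lemma_of_metric (s := (univ : Set X)) isCompact_univ
    (c := fun z : X => interior (closure (OrbI (η / 6 + η / 6) z))) (fun _ => isOpen_interior)
    (fun z _ => mem_iUnion.mpr ⟨z, mem_interior_orbI hom h6 z⟩)
  refine ⟨δ, hδ, fun x y hxy => ?_⟩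
  obtain ⟨z, hz⟩ := h x (mem_univ x)
  have hx := interior_subset (hz (mem_ball_self hδ))
  have hy := interior_subset (hz (show y ∈ ball x δ by rwa [mem_ball, dist_comm]))
  obtain ⟨_, hw, ⟨v, hi, hv, rfl⟩⟩ := mem_closure_iff.mp hx _ isOpen_interior
    (mem_interior_orbI hom h6 x)
  have hz' := map_closure_orbI hi.symm (symm_small hv) x (interior_subset hw)
  have e : hi.symm.homeo (top v z) = z := hi.homeo.symm_apply_apply z
  rw [e] at hz'
  have : OrbI (η / 6 + η / 6) z ⊆ closure (OrbI η x) := by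
    rintro _ ⟨w, hj, hw, rfl⟩
    have := map_closure_orbI hj hw x hz'
    rwa [show η / 6 + η / 6 + (η / 6 + η / 6 + (η / 6 + η / 6)) = η by ring] at this
  exact closure_minimal this isClosed_closure hy

theorem push_closeI (hom : ∀ x y : X, ∃ Φ, IsIso Φ ∧ top Φ x = y) {η : ℝ} (hη : 0 < η) :
    ∃ δ > 0, ∀ x y : X, dist x y < δ → TrIn (ball x η) x y := by
  have hp : ∀ n : ℕ, 0 < η / 2 / 2 / 2 ^ n := fun n => by positivity
  choose δ hδ0 hδ using fun n : ℕ => weak_effrosI hom (hp n)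
  refine ⟨δ 0, hδ0 0, fun x y hxy => ?_⟩
  let S : ℕ → Type _ := fun n => {e : I × X ≃ₜ I × X // IsIso e ∧ dist (top e x) y < δ n}
  have step : ∀ (n : ℕ) (e : S n), ∃ e' : S (n + 1),
        dist (e.1 : C(I × X, I × X)) e'.1 ≤ η / 2 / 2 / 2 ^ n ∧
          dist (top e'.1 x) y < 1 / ((n : ℝ) + 1) := by
    intro n e
    have hpos : 0 < min (δ (n + 1)) (1 / ((n : ℝ) + 1)) := lt_min (hδ0 _) (by positivity)
    obtain ⟨_, ⟨h, hi, hh, rfl⟩, hd⟩ := Metric.mem_closure_iff.mp (hδ n _ _ e.2.2) _ hpos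
    rw [dist_comm, ← e.2.1.top_trans] at hd
    refine ⟨⟨e.1.trans h, e.2.1.trans hi, lt_of_lt_of_le hd (min_le_left _ _)⟩, ?_,
      lt_of_lt_of_le hd (min_le_right _ _)⟩
    rw [ContinuousMap.dist_le (hp n).le]
    intro w
    rw [dist_comm]
    exact (hh _).le
  choose nxt hn1 hn2 using step
  let s : (n : ℕ) → S n := fun n =>
    Nat.rec (motive := S) ⟨Homeomorph.refl _, ⟨fun _ => rfl, fun _ => rfl⟩, hxy⟩
      (fun n e => nxt n e) n
  have hs : ∀ n, dist ((s n).1 : C(I × X, I × X)) (s (n + 1)).1 ≤ η / 2 / 2 / 2 ^ n :=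
    fun n => hn1 n (s n)
  have hs2 : ∀ n : ℕ, dist (top (s (n + 1)).1 x) y < 1 / ((n : ℝ) + 1) := fun n => hn2 n (s n)
  obtain ⟨e, he⟩ := cauchySeq_tendsto_of_complete
    (cauchySeq_of_le_geometric_two (f := fun n => ((s n).1 : C(I × X, I × X))) hs)
  have hd : dist ((s 0).1 : C(I × X, I × X)) e ≤ η / 2 :=
    dist_le_of_le_geometric_two_of_tendsto₀ hs he
  have ev : ∀ q, Tendsto (fun n => ((s (n + 1)).1 q).2) atTop (𝓝 (e q).2) := fun q =>
    (continuous_snd.tendsto _).comp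
      (((continuous_eval_const q).tendsto e).comp (he.comp (tendsto_add_atTop_nat 1)))
  let F : ℝ → C(X, X) := fun t => ⟨fun w => (e (projIcc 0 1 zero_le_one t, w)).2,
    continuous_snd.comp (e.continuous.comp (Continuous.prodMk_right _))⟩
  have hF : Continuous fun q : ℝ × X => F q.1 q.2 :=
    continuous_snd.comp (e.continuous.comp
      (((continuous_projIcc (h := zero_le_one)).comp continuous_fst).prodMk continuous_snd))
  have F0 : ∀ w, F 0 w = w := fun w => by
    show (e (projIcc 0 1 zero_le_one 0, w)).2 = w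
    rw [projIcc_left]
    have h1 := ev (0, w)
    simp only [(s _).2.1.2 w] at h1
    exact tendsto_nhds_unique h1 tendsto_const_nhds
  have F1 : F 1 x = y := by
    show (e (projIcc 0 1 zero_le_one 1, x)).2 = y
    rw [projIcc_right]
    have h2 : Tendsto (fun n => top (s (n + 1)).1 x) atTop (𝓝 y) := by
      rw [tendsto_iff_dist_tendsto_zero]
      exact squeeze_zero (fun _ => dist_nonneg) (fun n => (hs2 n).le)
        tendsto_one_div_add_atTop_nhds_zero_nat
    exact tendsto_nhds_unique (ev (1, x)) h2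
  obtain ⟨V, hV, j⟩ := tube hF F0 (O := ball x η) isOpen_ball (x := x) zero_le_one (by
    intro t _
    have h1 := (ContinuousMap.dist_apply_le_dist (f := ((s 0).1 : C(I × X, I × X))) (g := e)
      (projIcc 0 1 zero_le_one t, x)).trans hd
    have h2 : dist x (F t x) ≤ η / 2 := (le_max_right _ _).trans h1
    rw [mem_ball, dist_comm]
    linarith)
  exact ⟨V, hV, _, j, F1⟩

theorem isIso_of_isotopy (α : I → X ≃ₜ X) (hc : Continuous fun q : I × X => α q.1 q.2)
    (h0 : ∀ x, α 0 x = x) : ∃ Φ, IsIso Φ ∧ ∀ x, top Φ x = α 1 x := by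
  let E : I × X ≃ I × X :=
    ⟨fun q => (q.1, α q.1 q.2), fun q => (q.1, (α q.1).symm q.2), fun q => by simp,
      fun q => by simp⟩
  have hE : Continuous E := continuous_fst.prodMk hc
  exact ⟨hE.homeoOfEquivCompactToT2, ⟨fun _ => rfl, fun x => Prod.ext rfl (h0 x)⟩, fun _ => rfl⟩

theorem locallyContractible_iso [ContractibleSpace X]
    (h : ∀ x y : X, ∃ α : I → X ≃ₜ X, Continuous (fun q : I × X => α q.1 q.2) ∧
      (∀ w, α 0 w = w) ∧ α 1 x = y) : LocallyContractibleSpace X := by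
  refine locallyContractible_of (fun x y => ?_) fun _ _ _ _ hη => push_closeI (fun x y => ?_) hη
  · obtain ⟨α, -, -, e⟩ := h x y
    exact ⟨α 1, e⟩
  · obtain ⟨α, hc, h0, e⟩ := h x y
    obtain ⟨Φ, hi, ht⟩ := isIso_of_isotopy α hc h0
    exact ⟨Φ, hi, (ht x).trans e⟩

end Pool.Agent.Lib.MP_d328cc_gt
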