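import Mathlib
import Pool.Agent.Lib.MP_d328cc_gt.Dim

/-!
The space is not homeomorphic to the Hilbert cube.
-/

open Set Metric Filter Topology

namespace Pool.Agent.Lib.MP_d328cc_gt.CE

/-- truncation to `[-1, 1]` -/
noncomputable def c1 (s : ℝ) : ℝ := max (-1) (min 1 s)

theorem c1_cont : Continuous c1 := by
  unfold c1
  fun_prop

theorem abs_c1_le (s : ℝ) : |c1 s| ≤ 1 :=
  abs_le.mpr ⟨le_max_left _ _, max_le (by norm_num) (min_le_left _ _)⟩

theorem c1_self {s : ℝ} (h : |s| ≤ 1) : c1 s = s := by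
  rw [c1, min_eq_right (abs_le.mp h).2, max_eq_right (abs_le.mp h).1]

theorem c1_top {s : ℝ} (h : 1 ≤ s) : c1 s = 1 := by
  rw [c1, min_eq_left h, max_eq_right (by norm_num)]

theorem c1_bot {s : ℝ} (h : s ≤ -1) : c1 s = -1 :=
  max_eq_left ((min_le_right _ _).trans h)

theorem eq_of_abs_c1_lt {s : ℝ} (h : |c1 s| < 1) : c1 s = s := by
  rcases le_total 1 s with a | a
  · rw [c1_top a] at h
    simp at h
  · rcases le_total s (-1) with b | b
    · rw [c1_bot b] at h
      simp at h
    · exact c1_self (abs_le.mpr ⟨b, a⟩)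

theorem sphere_no_null {D : ℕ} (H : (Fin D → ℝ) × ℝ → Fin D → ℝ) (hc : Continuous H)
    {w : Fin D → ℝ} (hw : w ≠ 0) (h0 : ∀ v, ‖v‖ = 1 → H (v, 0) = v) (h1 : ∀ v, H (v, 1) = w)
    (hne : ∀ v, ‖v‖ = 1 → ∀ s, 0 ≤ s → H (v, s) ≠ 0) : False := by
  let v : (Fin D → ℝ) → Fin D → ℝ := fun u k => c1 (2 * u k - 1)
  have vc : Continuous v := continuous_pi fun k => c1_cont.comp (by fun_prop)
  have v1 : ∀ u, ‖v u‖ ≤ 1 := fun u =>
    (pi_norm_le_iff_of_nonneg zero_le_one).mpr fun k => abs_c1_le _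
  have hb : ∀ u k, |v u k| = 1 →
      H ((max ‖v u‖ (1 / 2))⁻¹ • v u, min 1 (2 - 2 * ‖v u‖)) = v u := by
    intro u k hk
    have e : ‖v u‖ = 1 := le_antisymm (v1 u) (hk ▸ norm_le_pi_norm (v u) k)
    rw [e, max_eq_left (by norm_num), inv_one, one_smul, min_eq_right (by norm_num),
      show (2 : ℝ) - 2 * 1 = 0 by norm_num, h0 _ e]
  obtain ⟨u, hu⟩ := miranda D
    (fun u => H ((max ‖v u‖ (1 / 2))⁻¹ • v u, min 1 (2 - 2 * ‖v u‖))) (by
      have a : Continuous fun u => (max ‖v u‖ (1 / 2))⁻¹ := Continuous.inv₀ (by fun_prop)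
        fun u => (lt_of_lt_of_le (by norm_num) (le_max_right _ _)).ne'
      fun_prop) (by
      intro u k hk
      have e : v u k = -1 := c1_bot (by linarith)
      rw [hb u k (by rw [e]; simp), e]
      norm_num) (by
      intro u k hk
      have e : v u k = 1 := c1_top (by linarith)
      rw [hb u k (by rw [e]; simp), e]
      norm_num)
  rcases le_total ‖v u‖ (1 / 2) with h | h
  · rw [min_eq_left (by linarith), h1] at hu
    exact hw hu
  · refine hne _ ?_ _ (le_min zero_le_one (by linarith [v1 u])) hu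
    rw [max_eq_left h, norm_smul, norm_inv, norm_norm, inv_mul_cancel₀ (by linarith)]

theorem no_factor {d D : ℕ} (hd : d + 1 < D) (G : (Fin D → ℝ) × ℝ → Fin D → ℝ)
    (hG : Continuous G) (x : (Fin D → ℝ) → Fin d → ℝ) (hx : Continuous x)
    (g : (Fin d → ℝ) → Fin D → ℝ) (hg : Continuous g) (h0 : ∀ v, ‖v‖ = 1 → G (v, 0) = v)
    (h1 : ∀ v, G (v, 1) = g (x v)) (hne : ∀ v, ‖v‖ = 1 → ∀ s, 1 / 2 ≤ ‖G (v, s)‖) : False := by
  obtain ⟨g', a1, a2, -⟩ := hg.exists_contDiff_approx 1 (ε := fun _ => 1 / 4) continuous_const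
    (fun _ => by norm_num)
  have a3 : ContDiff ℝ 1 fun p : (Fin d → ℝ) × ℝ => p.2 • g' p.1 :=
    contDiff_snd.smul (a1.comp contDiff_fst)
  obtain ⟨w, hw⟩ := (a3.dense_compl_range_of_finrank_lt_finrank (by simpa using hd)).nonempty
  have hw' : ∀ (ρ : ℝ) y, ρ • g' y ≠ w := fun ρ y h => hw ⟨(y, ρ), h⟩
  have gc := a1.continuous
  have clc := cl_cont
  refine sphere_no_null (fun p => (1 - cl (2 * p.2 - 1)) •
    (G (p.1, cl (2 * p.2)) + cl (2 * p.2) • (g' (x p.1) - g (x p.1))) - cl (2 * p.2 - 1) • w)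
    (by fun_prop) (w := -w) (neg_ne_zero.mpr fun h => hw' 0 0 (by rw [h, zero_smul]))
    (fun v hv => ?_) (fun v => ?_) fun v hv s hs => ?_
  · simp only
    rw [cl_zero (by norm_num), cl_zero (by norm_num), h0 v hv]
    simp
  · simp only
    rw [cl_one (s := 2 * 1 - 1) (by norm_num)]
    simp
  · have b : G (v, cl (2 * s)) + cl (2 * s) • (g' (x v) - g (x v)) ≠ 0 := by
      intro h
      have e := hne v hv (cl (2 * s))
      rw [eq_neg_of_add_eq_zero_left h, norm_neg, norm_smul, Real.norm_eq_abs] at e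
      have f := a2 (x v)
      rw [dist_eq_norm] at f
      nlinarith [abs_cl_le (2 * s), abs_nonneg (cl (2 * s)), norm_nonneg (g' (x v) - g (x v))]
    simp only
    intro h
    rcases eq_or_lt_of_le (cl_nonneg (2 * s - 1)) with e | e
    · rw [← e] at h
      exact b (by simpa using h)
    · have f : 1 ≤ 2 * s := by
        by_contra hc
        rw [cl_zero (by linarith)] at e
        exact lt_irrefl _ e
      rw [cl_one f, h1, one_smul, add_sub_cancel, sub_eq_zero] at h
      apply hw' ((cl (2 * s - 1))⁻¹ * (1 - cl (2 * s - 1))) (x v)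
      rw [mul_smul, h, smul_smul, inv_mul_cancel₀ e.ne', one_smul]

theorem exists_depth (φ : X ≃ₜ (ℕ → unitInterval)) : ∃ d : ℕ, ∀ z w : X, z.1 (xi 0) = 0 →
    (∀ i < d, φ w i = φ z i) → w.1 (xi 0) < 1 / 2 := by
  by_contra hc
  push Not at hc
  let C : ℕ → Set (X × X) := fun d =>
    ({p | p.1.1 (xi 0) = 0} ∩ {p | 1 / 2 ≤ p.2.1 (xi 0)}) ∩ ⋂ i < d, {p | φ p.2 i = φ p.1 i}
  have hC : ∀ d, IsClosed (C d) := fun d =>
    ((isClosed_eq ((continuous_coord _).comp continuous_fst) continuous_const).inter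
      (isClosed_le continuous_const ((continuous_coord _).comp continuous_snd))).inter
      (isClosed_biInter fun i _ => isClosed_eq (by fun_prop) (by fun_prop))
  obtain ⟨p, hp⟩ := IsCompact.nonempty_iInter_of_sequence_nonempty_isCompact_isClosed C
    (fun d p hp => ⟨hp.1, mem_iInter₂.mpr fun i hi =>
      mem_iInter₂.mp hp.2 i (Nat.lt_succ_of_lt hi)⟩)
    (fun d => by
      obtain ⟨z, w, a1, a2, a3⟩ := hc d
      exact ⟨(z, w), ⟨a1, a3⟩, mem_iInter₂.mpr a2⟩) (hC 0).isCompact hC
  have e : p.2 = p.1 := φ.injective (funext fun i =>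
    mem_iInter₂.mp (mem_iInter.mp hp (i + 1)).2 i (Nat.lt_succ_self i))
  obtain ⟨a1, a2⟩ := (mem_iInter.mp hp 0).1
  have a1' : p.1.1 (xi 0) = 0 := a1
  have a2' : 1 / 2 ≤ p.2.1 (xi 0) := a2
  rw [e, a1'] at a2'
  norm_num at a2'

/-- the coordinates `t n, x 1, ..., x n` -/
def proj (n : ℕ) (z : X) : Fin (n + 1) → ℝ := fun j =>
  if (j : ℕ) = 0 then z.1 (ti n) else z.1 (xi j)

theorem proj_cont (n : ℕ) : Continuous (proj n) := by
  apply continuous_pi
  intro j
  unfold proj
  split_ifs <;> exact continuous_coord _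

theorem half_le_proj (n : ℕ) {z : X} (h : z.1 (xi 0) < 1 / 2) : 1 / 2 ≤ ‖proj n z‖ := by
  by_contra hc
  have a := (pi_norm_lt_iff (by norm_num)).mp (not_le.mp hc)
  have hr := half_le_r n
  refine z.2.2.2 n ⟨lt_of_lt_of_le (a 0) hr, fun j hj => ?_⟩
  by_cases e : j = 0
  · rw [e, abs_of_nonneg z.2.2.1]
    linarith
  · have := a ⟨j, Nat.lt_succ_iff.mpr hj⟩
    simp only [proj, e, if_false] at this
    exact lt_of_lt_of_le this hr

/-- a sphere around the `n`-th box -/
noncomputable def sphV (n : ℕ) (v : Fin (n + 1) → ℝ) : Idx → ℝ :=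
  Sum.elim (fun k => if k = 0 then cl ((1 - ‖v‖) / (1 - r n))
      else if h : k < n + 1 then c1 (v ⟨k, h⟩) else 0)
    (Sum.elim (fun m => if m = n then c1 (v 0) else 1) fun _ => 0)

theorem sphV_mem (n : ℕ) (v : Fin (n + 1) → ℝ) : sphV n v ∈ S := by
  have hr := r_lt_one n
  refine ⟨?_, ?_, fun m hm => ?_⟩
  · rintro (k | k | k) <;> simp only [sphV, Sum.elim_inl, Sum.elim_inr]
    · split_ifs
      · exact abs_cl_le _
      · exact abs_c1_le _
      · simp
    · split_ifs
      · exact abs_c1_le _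
      · simp
    · simp
  · simp only [sphV, Sum.elim_inl, if_true]
    exact cl_nonneg _
  · by_cases e : m = n
    · rw [e] at hm
      have a : ‖v‖ < r n := by
        rw [pi_norm_lt_iff (by linarith [half_le_r n])]
        intro j
        have b : |c1 (v j)| < r n := by
          by_cases f : j = 0
          · have := hm.1
            simpa [sphV, f] using this
          · have := hm.2 j (Nat.lt_succ_iff.mp j.2)
            have f' : (j : ℕ) ≠ 0 := fun h => f (Fin.ext h)
            simpa only [sphV, Sum.elim_inl, f', if_false, j.2, dif_pos] using this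
        rwa [eq_of_abs_c1_lt (b.trans hr)] at b
      have := hm.2 0 (Nat.zero_le n)
      simp only [sphV, Sum.elim_inl, if_true] at this
      rw [cl_one (by rw [le_div_iff₀ (by linarith)]; linarith), abs_one] at this
      linarith
    · have := hm.1
      simp only [sphV, Sum.elim_inl, Sum.elim_inr, e, if_false, abs_one] at this
      linarith [r_lt_one m]

theorem sphV_cont (n : ℕ) : Continuous (sphV n) := by
  have := cl_cont
  have := c1_cont
  apply continuous_pi
  rintro (k | k | k) <;> simp only [sphV, Sum.elim_inl, Sum.elim_inr]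
  · split_ifs <;> fun_prop
  · split_ifs <;> fun_prop
  · fun_prop

theorem not_cube (φ : X ≃ₜ (ℕ → unitInterval)) : False := by
  obtain ⟨d, hd⟩ := exists_depth φ
  let ι : (Fin (d + 1 + 1) → ℝ) → X := fun v => ⟨sphV (d + 1) v, sphV_mem _ v⟩
  have ιc : Continuous ι := continuous_mk (sphV_cont _) _
  let c : ℝ → unitInterval := projIcc 0 1 zero_le_one
  have cc : Continuous c := continuous_projIcc
  let P : (Fin (d + 1 + 1) → ℝ) × ℝ → ℕ → unitInterval := fun p i =>
    if i < d then φ (ι p.1) i else c (1 - p.2) * φ (ι p.1) i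
  have Pc : Continuous P := by
    apply continuous_pi
    intro i
    simp only [P]
    split_ifs <;> fun_prop
  let e : (Fin d → ℝ) → ℕ → unitInterval := fun y i => if h : i < d then c (y ⟨i, h⟩) else 0
  have ec : Continuous e := by
    apply continuous_pi
    intro i
    simp only [e]
    split_ifs <;> fun_prop
  have pc := proj_cont (d + 1)
  refine no_factor (d := d) (D := d + 1 + 1) (by omega) (fun p => proj (d + 1) (φ.symm (P p)))
    (by fun_prop) (fun v i => φ (ι v) i) (by fun_prop) (fun y => proj (d + 1) (φ.symm (e y)))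
    (by fun_prop) (fun v hv => ?_) (fun v => ?_) fun v hv s => ?_
  · have : P (v, 0) = φ (ι v) := by
      funext i
      simp [P, c]
    simp only [this, Homeomorph.symm_apply_apply]
    funext j
    have b : c1 (v j) = v j := c1_self (hv ▸ norm_le_pi_norm v j)
    by_cases f : j = 0
    · rw [← b, f]
      simp [proj, ι, sphV]
    · have f' : (j : ℕ) ≠ 0 := fun h => f (Fin.ext h)
      simp only [proj, ι, sphV, Sum.elim_inl, f', if_false, j.2, dif_pos, b]
  · have : P (v, 1) = e fun i => φ (ι v) i := by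
      funext i
      by_cases h : i < d <;> simp [P, e, c, h]
    simp only [this]
  · refine half_le_proj _ (hd (ι v) _ ?_ fun i hi => ?_)
    · simp [ι, sphV, hv, cl_zero]
    · simp [P, hi]

end Pool.Agent.Lib.MP_d328cc_gt.CE
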