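import Mathlib
import Pool.Agent.Lib.MP_d328cc_gt.NotQ

/-!
The space is not a retract of the Hilbert cube.
-/

open Set Metric Filter Topology

namespace Pool.Agent.Lib.MP_d328cc_gt.CE

theorem exists_depth' (φ : C(X, ℕ → unitInterval)) (ψ : C(ℕ → unitInterval, X))
    (h : ∀ z, ψ (φ z) = z) : ∃ d : ℕ, ∀ (z : X) (w : ℕ → unitInterval), z.1 (xi 0) = 0 →
    (∀ i < d, w i = φ z i) → (ψ w).1 (xi 0) < 1 / 2 := by
  by_contra hc
  push Not at hc
  let C : ℕ → Set (X × (ℕ → unitInterval)) := fun d =>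
    ({p | p.1.1 (xi 0) = 0} ∩ {p | 1 / 2 ≤ (ψ p.2).1 (xi 0)}) ∩ ⋂ i < d, {p | p.2 i = φ p.1 i}
  have hC : ∀ d, IsClosed (C d) := fun d =>
    ((isClosed_eq ((continuous_coord _).comp continuous_fst) continuous_const).inter
      (isClosed_le continuous_const
        ((continuous_coord _).comp (ψ.continuous.comp continuous_snd)))).inter
      (isClosed_biInter fun i _ => isClosed_eq (by fun_prop) (by fun_prop))
  obtain ⟨p, hp⟩ := IsCompact.nonempty_iInter_of_sequence_nonempty_isCompact_isClosed C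
    (fun d p hp => ⟨hp.1, mem_iInter₂.mpr fun i hi =>
      mem_iInter₂.mp hp.2 i (Nat.lt_succ_of_lt hi)⟩)
    (fun d => by
      obtain ⟨z, w, a1, a2, a3⟩ := hc d
      exact ⟨(z, w), ⟨a1, a3⟩, mem_iInter₂.mpr a2⟩) (hC 0).isCompact hC
  have e : p.2 = φ p.1 := funext fun i =>
    mem_iInter₂.mp (mem_iInter.mp hp (i + 1)).2 i (Nat.lt_succ_self i)
  obtain ⟨a1, a2⟩ := (mem_iInter.mp hp 0).1
  have a1' : p.1.1 (xi 0) = 0 := a1
  have a2' : 1 / 2 ≤ (ψ p.2).1 (xi 0) := a2
  rw [e, h, a1'] at a2'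
  norm_num at a2'

theorem not_retract (φ : C(X, ℕ → unitInterval)) (ψ : C(ℕ → unitInterval, X))
    (h : ∀ z, ψ (φ z) = z) : False := by
  obtain ⟨d, hd⟩ := exists_depth' φ ψ h
  let ι : (Fin (d + 1 + 1) → ℝ) → X := fun v => ⟨sphV (d + 1) v, sphV_mem _ v⟩
  have ιc : Continuous ι := continuous_mk (sphV_cont _) _
  let c : ℝ → unitInterval := projIcc 0 1 zero_le_one
  have cc : Continuous c := continuous_projIcc
  let P : (Fin (d + 1 + 1) → ℝ) × ℝ → ℕ → unitInterval := fun p i =>
    if i < d then φ (ι p.1) i else c (1 - p.2) * φ (ι p.1) i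
  have Pc : Continuous P := by
    apply continuous_pi
    intro i
    simp only [P]
    split_ifs <;> fun_prop
  let e : (Fin d → ℝ) → ℕ → unitInterval := fun y i => if h : i < d then c (y ⟨i, h⟩) else 0
  have ec : Continuous e := by
    apply continuous_pi
    intro i
    simp only [e]
    split_ifs <;> fun_prop
  have pc := proj_cont (d + 1)
  refine no_factor (d := d) (D := d + 1 + 1) (by omega) (fun p => proj (d + 1) (ψ (P p)))
    (by fun_prop) (fun v i => φ (ι v) i) (by fun_prop) (fun y => proj (d + 1) (ψ (e y)))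
    (by fun_prop) (fun v hv => ?_) (fun v => ?_) fun v hv s => ?_
  · have : P (v, 0) = φ (ι v) := by
      funext i
      simp [P, c]
    simp only [this, h]
    funext j
    have b : c1 (v j) = v j := c1_self (hv ▸ norm_le_pi_norm v j)
    by_cases f : j = 0
    · rw [← b, f]
      simp [proj, ι, sphV]
    · have f' : (j : ℕ) ≠ 0 := fun h => f (Fin.ext h)
      simp only [proj, ι, sphV, Sum.elim_inl, f', if_false, j.2, dif_pos, b]
  · have : P (v, 1) = e fun i => φ (ι v) i := by
      funext i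
      by_cases h : i < d <;> simp [P, e, c, h]
    simp only [this]
  · refine half_le_proj _ (hd (ι v) _ ?_ fun i hi => ?_)
    · simp [ι, sphV, hv, cl_zero]
    · simp [P, hi]

end Pool.Agent.Lib.MP_d328cc_gt.CE
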